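import Mathlib
import Pool.Agent.H24.GN.Def

/-!
# Project GSC (helper66), MP_20ddb5_an: definitions

Lean blueprint of note 1871 (the C² Ghys-Sullivan theorem for finitely generated minimal groups of
circle diffeomorphisms).
-/

set_option autoImplicit false
open Set Filter Topology MeasureTheory

namespace Pool.Agent.H66.GSC

open Pool.Agent.H52.GS (TT BB)
open Pool.Agent.H24.GN (ld Rg DB)

/-- the fourth root -/
noncomputable def hr (x : ℝ) : ℝ := √(√x)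

/-- `σ` is a C² diffeomorphism; `a` is the derivative of `log σ'`, bounded by `K` -/
structure Sm (K : ℝ) (σ : ℝ ≃o ℝ) (a : ℝ → ℝ) : Prop where
  rg : Rg σ
  cont : Continuous a
  bd : ∀ x, |a x| ≤ K
  der : ∀ x, HasDerivAt (ld σ) (a x) x

/-- the mean of `a` on `[P, P + R]` with the weight `P + R - z` -/
noncomputable def Ap (a : ℝ → ℝ) (P R : ℝ) : ℝ :=
  2 / R ^ 2 * ∫ z in P..(P + R), (P + R - z) * a z

/-- the mean of `a` on `[P - L, P]` with the weight `z - (P - L)` -/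
noncomputable def Am (a : ℝ → ℝ) (P L : ℝ) : ℝ :=
  2 / L ^ 2 * ∫ z in (P - L)..P, (z - (P - L)) * a z

/-- the mean of `a` on `[P - ρ, P + ρ]` -/
noncomputable def mn (a : ℝ → ℝ) (P ρ : ℝ) : ℝ := (∫ z in (P - ρ)..(P + ρ), a z) / (2 * ρ)

/-- Hölder control with exponent `1/4` of the primitive of `a - m` on `[P - ρ, P + ρ]` -/
def Osc (a : ℝ → ℝ) (P ρ m W : ℝ) : Prop :=
  0 ≤ W ∧ ∀ x ∈ Icc (P - ρ) (P + ρ), ∀ y ∈ Icc (P - ρ) (P + ρ),
    |∫ z in x..y, (a z - m)| ≤ W * hr (|y - x| / ρ)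

/-- the error of the step at the point `P` with the neighbouring intervals `(P - L, P)`, `(P, P + R)`
at the scale `ρ` -/
noncomputable def Er (a : ℝ → ℝ) (P L R ρ m W : ℝ) : ℝ :=
  W / ρ + |Ap a P R - m| + |Am a P L - m| + (L + R)

/-- the box `(p - t, p + t)` is good for the map `w` on the interval `(x1, x2)` -/
structure Gd (w : ℝ ≃o ℝ) (x1 p x2 t : ℝ) : Prop where
  r : 10000 * (t * deriv (w : ℝ → ℝ) p) ≤ w x2 - w p
  l : 10000 * (t * deriv (w : ℝ → ℝ) p) ≤ w p - w x1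
  h : ∀ x ∈ Icc (p - 4 * t) (p + 4 * t), ∀ y ∈ Icc (p - 4 * t) (p + 4 * t),
    |ld w x - ld w y| ≤ hr (|x - y| / t) / 100

/-- a word `v N = σ (N-1) ... σ 0 (v 0)` with its prefixes `v j`, acting on `(x1, x2) ∋ p` -/
structure Path (K : ℝ) (N : ℕ) (v σ : ℕ → ℝ ≃o ℝ) (a : ℕ → ℝ → ℝ) (x1 p x2 : ℝ) : Prop where
  lt1 : x1 < p
  lt2 : p < x2
  v0 : ∀ x, deriv (v 0 : ℝ → ℝ) x = 1
  st : ∀ j < N, v (j + 1) = σ j * v j
  rg : ∀ j ≤ N, Rg (v j)
  sm : ∀ j < N, Sm K (σ j) (a j)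
  small : ∀ j < N, v j x2 - v j x1 ≤ 1 / (1000 * K)
  win : ∀ j < N, 0 ≤ v j p ∧ v j p ≤ 7
  sep : ∀ i j, i < j → j < N → ¬(v i x1 < v j p ∧ v j p < v i x2)

/-- a return map at scale `t` -/
structure Ru (u : ℝ ≃o ℝ) (p t : ℝ) : Prop where
  rg : Rg u
  map : ∀ x, |x - p| ≤ 2 * t → |u x - p| ≤ 51 / 50 * t
  der : ∀ x, |x - p| ≤ 2 * t → deriv (u : ℝ → ℝ) x ≤ 11 / 10000
  h : ∀ x y, |x - p| ≤ 2 * t → |y - p| ≤ 2 * t →
    |ld u x - ld u y| ≤ 12 / 1000 * hr (|x - y| / t)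

/-- the elements of the group which are controlled on the box of radius `2 t` and map it into the
box of radius `2 t0` -/
def CC (Γ : Subgroup (ℝ ≃o ℝ)) (p t0 t : ℝ) : Set (ℝ ≃o ℝ) :=
  {g | g ∈ Γ ∧ Rg g ∧ (∀ x, |x - p| ≤ 2 * t → |g x - p| ≤ 2 * t0) ∧
    ∀ x y, |x - p| ≤ 2 * t → |y - p| ≤ 2 * t → |ld g x - ld g y| ≤ hr (|x - y| / t) / 50}

/-- the union of the images of the box of radius `t` under the controlled elements -/
def HH (Γ : Subgroup (ℝ ≃o ℝ)) (p t0 t : ℝ) : Set ℝ :=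
  ⋃ g ∈ CC Γ p t0 t, (g : ℝ → ℝ) '' Ioo (p - t) (p + t)

/-- the data of the energy theorem -/
structure Dat (I : Finset ℕ) (P L R T : ℕ → ℝ) (ε : ℝ) : Prop where
  win : ∀ i ∈ I, |P i| ≤ 7
  T0 : ∀ i ∈ I, 0 < T i
  TL : ∀ i ∈ I, 10000 * T i ≤ L i
  TR : ∀ i ∈ I, 10000 * T i ≤ R i
  sm : ∀ i ∈ I, L i + R i ≤ ε
  sep : ∀ i ∈ I, ∀ j ∈ I, i < j → ¬(P i - L i < P j ∧ P j < P i + R i)

/-- the left end of the cell `k` of level `l` of the dyadic grid with base point `r` and size `h` -/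
noncomputable def ce (r h : ℝ) (l k : ℕ) : ℝ := r + k * (h / 2 ^ l)

/-- the mean of `a` on the cell `k` of level `l` -/
noncomputable def fa (a : ℝ → ℝ) (r h : ℝ) (l k : ℕ) : ℝ :=
  (∫ z in (ce r h l k)..(ce r h l k + h / 2 ^ l), a z) / (h / 2 ^ l)

end Pool.Agent.H66.GSC
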