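import Mathlib
import Pool.Agent.H66.GSC.Def

/-!
# GSC-1: the fourth root
-/

set_option autoImplicit false
open Set Filter Topology MeasureTheory

namespace Pool.Agent.H66.GSC

theorem hr_nonneg (x : ℝ) : 0 ≤ hr x := Real.sqrt_nonneg _

theorem hr_mono {x y : ℝ} (h : x ≤ y) : hr x ≤ hr y := Real.sqrt_le_sqrt (Real.sqrt_le_sqrt h)

theorem hr_mul {x : ℝ} (hx : 0 ≤ x) (y : ℝ) : hr (x * y) = hr x * hr y := by
  unfold hr
  rw [Real.sqrt_mul hx, Real.sqrt_mul (Real.sqrt_nonneg _)]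

theorem hr_pow {x : ℝ} (hx : 0 ≤ x) : hr x ^ 4 = x := by
  have h1 : hr x ^ 2 = √x := Real.sq_sqrt (Real.sqrt_nonneg _)
  calc hr x ^ 4 = (hr x ^ 2) ^ 2 := by ring
    _ = x := by rw [h1, Real.sq_sqrt hx]

theorem hr_le {x c : ℝ} (hc : 0 ≤ c) (h : x ≤ c ^ 4) : hr x ≤ c := by
  unfold hr
  apply Real.sqrt_le_iff.2
  refine ⟨hc, ?_⟩
  apply Real.sqrt_le_iff.2
  refine ⟨by positivity, ?_⟩
  calc x ≤ c ^ 4 := h
    _ = (c ^ 2) ^ 2 := by ring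

theorem le_hr {x c : ℝ} (hc : 0 ≤ c) (h : c ^ 4 ≤ x) : c ≤ hr x := by
  unfold hr
  apply Real.le_sqrt_of_sq_le
  apply Real.le_sqrt_of_sq_le
  calc (c ^ 2) ^ 2 = c ^ 4 := by ring
    _ ≤ x := h

theorem hr_zero : hr 0 = 0 := by simp [hr]

theorem hr_one : hr 1 = 1 := by simp [hr]

theorem hr_le_one {x : ℝ} (h : x ≤ 1) : hr x ≤ 1 := by
  have := hr_mono h
  rwa [hr_one] at this

/-- `x ≤ hr x` for `x ≤ 1` -/
theorem le_hr_self {x : ℝ} (h0 : 0 ≤ x) (h : x ≤ 1) : x ≤ hr x := by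
  apply le_hr h0
  have : x ^ 4 ≤ x ^ 1 := pow_le_pow_of_le_one h0 h (by norm_num)
  simpa using this

/-- `x ≤ c³ hr x` for `x ≤ c⁴` -/
theorem le_hr_mul {x c : ℝ} (h0 : 0 ≤ x) (hc : 0 ≤ c) (h : x ≤ c ^ 4) : x ≤ c ^ 3 * hr x := by
  have h1 := hr_le hc h
  have h2 := hr_nonneg x
  calc x = hr x ^ 4 := (hr_pow h0).symm
    _ = hr x ^ 3 * hr x := by ring
    _ ≤ c ^ 3 * hr x := by gcongr

/-- `x ≤ 5 hr x` for `x ≤ 8` -/
theorem le_hr_8 {x : ℝ} (h0 : 0 ≤ x) (h : x ≤ 8) : x ≤ 5 * hr x := by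
  have h1 : x ≤ (17 / 10 : ℝ) ^ 3 * hr x := le_hr_mul h0 (by norm_num) (h.trans (by norm_num))
  have h2 := hr_nonneg x
  nlinarith

theorem hr_pos {x : ℝ} (h : 0 < x) : 0 < hr x := Real.sqrt_pos.2 (Real.sqrt_pos.2 h)

theorem hr_continuous : Continuous hr := by
  unfold hr
  fun_prop

/-- subadditivity-free comparison: `hr x + hr y ≤ 2 hr (max)` -/
theorem hr_add_le {x y z : ℝ} (hx : x ≤ z) (hy : y ≤ z) : hr x + hr y ≤ 2 * hr z := by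
  have h1 := hr_mono hx
  have h2 := hr_mono hy
  linarith

end Pool.Agent.H66.GSC
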