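import Mathlib

/-!
# GSC-7: a finite family of open intervals has a subfamily with the same union and multiplicity two

PROOF.  Take a subfamily `s' ⊆ s` with the same union of minimal cardinality.  A point which is in
three of its members `I, J, K`: the one with the smallest left end and the one with the largest right
end cover all three, so a third one may be removed; contradiction.  So every point is in at most two
members (`Finset.card (s'.filter ...) ≤ 2`), and
`∑ volume (I i) = ∫ ∑ indicator ≤ ∫ 2 * indicator (⋃ I i)`.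
-/

set_option autoImplicit false
open Set Filter Topology MeasureTheory

namespace Pool.Agent.H66.GSC

theorem cov_mult {ι : Type} [DecidableEq ι] (s : Finset ι) (a b : ι → ℝ)
    (hmin : ∀ t ⊆ s, (⋃ i ∈ t, Ioo (a i) (b i)) = (⋃ i ∈ s, Ioo (a i) (b i)) → s.card ≤ t.card)
    (x : ℝ) (F : Finset ι) (hF : ∀ i, i ∈ F ↔ i ∈ s ∧ x ∈ Ioo (a i) (b i)) : F.card ≤ 2 := by
  by_contra hc
  push Not at hc
  have hne : F.Nonempty := Finset.card_pos.1 (by omega)
  obtain ⟨i1, hi1, h1⟩ := Finset.exists_min_image F a hne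
  obtain ⟨i2, hi2, h2⟩ := Finset.exists_max_image F b hne
  have h3 : ∃ i ∈ F, i ≠ i1 ∧ i ≠ i2 := by
    by_contra hcc
    push Not at hcc
    have h4 : F ⊆ {i1, i2} := by
      intro i hi
      rw [Finset.mem_insert, Finset.mem_singleton]
      by_cases h5 : i = i1
      · exact Or.inl h5
      · exact Or.inr (hcc i hi h5)
    have h5 := Finset.card_le_card h4
    have h6 := Finset.card_le_two (a := i1) (b := i2)
    omega
  obtain ⟨i, hi, hn1, hn2⟩ := h3
  have hi' := (hF i).1 hi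
  have h1' := (hF i1).1 hi1
  have h2' := (hF i2).1 hi2
  have h7 : (⋃ j ∈ s.erase i, Ioo (a j) (b j)) = (⋃ j ∈ s, Ioo (a j) (b j)) := by
    apply Set.Subset.antisymm
    · intro y hy
      rw [mem_iUnion₂] at hy ⊢
      obtain ⟨j, hj, hy⟩ := hy
      exact ⟨j, Finset.mem_of_mem_erase hj, hy⟩
    · intro y hy
      rw [mem_iUnion₂] at hy ⊢
      obtain ⟨j, hj, hy⟩ := hy
      by_cases hji : j = i
      · subst hji
        rcases le_or_gt y x with h8 | h8
        · exact ⟨i1, Finset.mem_erase.2 ⟨Ne.symm hn1, h1'.1⟩,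
            lt_of_le_of_lt (h1 j hi) hy.1, lt_of_le_of_lt h8 h1'.2.2⟩
        · exact ⟨i2, Finset.mem_erase.2 ⟨Ne.symm hn2, h2'.1⟩,
            lt_trans h2'.2.1 h8, lt_of_lt_of_le hy.2 (h2 j hi)⟩
      · exact ⟨j, Finset.mem_erase.2 ⟨hji, hj⟩, hy⟩
  have h9 := hmin _ (Finset.erase_subset _ _) h7
  have h10 := Finset.card_erase_lt_of_mem hi'.1
  omega

theorem cover2 {ι : Type} (s : Finset ι) (a b : ι → ℝ) : ∃ s' ⊆ s,
    (⋃ i ∈ s', Ioo (a i) (b i)) = (⋃ i ∈ s, Ioo (a i) (b i)) ∧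
    ∑ i ∈ s', volume (Ioo (a i) (b i)) ≤ 2 * volume (⋃ i ∈ s, Ioo (a i) (b i)) := by
  classical
  obtain ⟨s', hs', hmin⟩ := Finset.exists_min_image
    (s.powerset.filter fun t => (⋃ i ∈ t, Ioo (a i) (b i)) = (⋃ i ∈ s, Ioo (a i) (b i)))
    Finset.card ⟨s, by simp⟩
  rw [Finset.mem_filter, Finset.mem_powerset] at hs'
  refine ⟨s', hs'.1, hs'.2, ?_⟩
  rw [← hs'.2]
  have hmin' : ∀ t ⊆ s', (⋃ i ∈ t, Ioo (a i) (b i)) = (⋃ i ∈ s', Ioo (a i) (b i)) →
      s'.card ≤ t.card := by
    intro t ht h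
    refine hmin t ?_
    rw [Finset.mem_filter, Finset.mem_powerset]
    exact ⟨ht.trans hs'.1, h.trans hs'.2⟩
  have hU : MeasurableSet (⋃ i ∈ s', Ioo (a i) (b i)) :=
    Finset.measurableSet_biUnion _ fun i _ => measurableSet_Ioo
  have h1 : ∑ i ∈ s', volume (Ioo (a i) (b i)) =
      ∫⁻ x, ∑ i ∈ s', (Ioo (a i) (b i)).indicator 1 x := by
    rw [lintegral_finset_sum]
    · refine Finset.sum_congr rfl fun i _ => ?_
      rw [lintegral_indicator_one measurableSet_Ioo]
    · intro i _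
      exact measurable_one.indicator measurableSet_Ioo
  have h2 : 2 * volume (⋃ i ∈ s', Ioo (a i) (b i)) =
      ∫⁻ x, 2 * (⋃ i ∈ s', Ioo (a i) (b i)).indicator 1 x := by
    rw [lintegral_const_mul _ (measurable_one.indicator hU), lintegral_indicator_one hU]
  rw [h1, h2]
  refine lintegral_mono fun x => ?_
  show ∑ i ∈ s', (Ioo (a i) (b i)).indicator 1 x ≤
    2 * (⋃ i ∈ s', Ioo (a i) (b i)).indicator 1 x
  have h3 : ∑ i ∈ s', (Ioo (a i) (b i)).indicator (1 : ℝ → ENNReal) x =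
      ((s'.filter fun i => x ∈ Ioo (a i) (b i)).card : ENNReal) := by
    rw [Finset.card_filter, Nat.cast_sum]
    refine Finset.sum_congr rfl fun i _ => ?_
    by_cases h : x ∈ Ioo (a i) (b i)
    · rw [indicator_of_mem h, if_pos h]; simp
    · rw [indicator_of_notMem h, if_neg h]; simp
  rw [h3]
  by_cases hx : x ∈ ⋃ i ∈ s', Ioo (a i) (b i)
  · rw [indicator_of_mem hx]
    have h4 := cov_mult s' a b hmin' x (s'.filter fun i => x ∈ Ioo (a i) (b i))
      (fun i => by rw [Finset.mem_filter])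
    simp only [Pi.one_apply, mul_one]
    exact_mod_cast h4
  · rw [indicator_of_notMem hx, mul_zero]
    have h4 : (s'.filter fun i => x ∈ Ioo (a i) (b i)) = ∅ := by
      rw [Finset.filter_eq_empty_iff]
      intro i hi h
      exact hx (mem_iUnion₂.2 ⟨i, hi, h⟩)
    rw [h4]
    simp

end Pool.Agent.H66.GSC
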