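import Mathlib
import Pool.Agent.H66.GSC.Hr

/-!
# GSC-5: measure of the image of a set under a map of small distortion

PROOF.  `MeasureTheory.lintegral_image_eq_lintegral_abs_deriv_mul` (with the function 1) and
bounds of the derivative.  `img_le`: for `x, y ∈ [α, β]`, `deriv g x ≤ exp δ * deriv g y`, so
`deriv g x * (β - α) ≤ exp δ * (g β - g α)` (integrate or mean value theorem).
`img_ge`: `deriv g x ≥ exp (-δ) * deriv g y` for all `x ∈ [α, β]`.
-/

set_option autoImplicit false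
open Set Filter Topology MeasureTheory

namespace Pool.Agent.H66.GSC

open Pool.Agent.H24.GN (ld Rg DB)

theorem img_deriv {g : ℝ ≃o ℝ} (hg : Rg g) {α β δ x y : ℝ} (hd : DB g α β δ) (hx : x ∈ Icc α β)
    (hy : y ∈ Icc α β) : deriv (g : ℝ → ℝ) x ≤ Real.exp δ * deriv (g : ℝ → ℝ) y := by
  have h1 := (abs_le.1 (hd x hx y hy)).2
  unfold ld at h1
  have hx0 := hg.2 x
  have hy0 := hg.2 y
  have h2 : Real.log (deriv (g : ℝ → ℝ) x) ≤ δ + Real.log (deriv (g : ℝ → ℝ) y) := by linarith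
  have h3 := Real.exp_le_exp.2 h2
  rwa [Real.exp_add, Real.exp_log hx0, Real.exp_log hy0] at h3

theorem img_le {g : ℝ ≃o ℝ} (hg : Rg g) {α β δ : ℝ} (hab : α < β) (hd : DB g α β δ) {E : Set ℝ}
    (hE : MeasurableSet E) (hE' : E ⊆ Icc α β) :
    volume ((g : ℝ → ℝ) '' E) ≤
      ENNReal.ofReal (Real.exp δ * ((g β - g α) / (β - α))) * volume E := by
  have h1 := lintegral_image_eq_lintegral_abs_deriv_mul hE
    (fun s _ => (hg.1 s).hasDerivAt.hasDerivWithinAt) (g.injective.injOn) (fun _ => 1)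
  rw [setLIntegral_one] at h1
  rw [h1, ← setLIntegral_const]
  refine setLIntegral_mono' hE fun s hs => ?_
  rw [mul_one, abs_of_pos (hg.2 s)]
  apply ENNReal.ofReal_le_ofReal
  obtain ⟨c, hc, hc'⟩ := exists_deriv_eq_slope (g : ℝ → ℝ) hab g.continuous.continuousOn
    (fun x _ => (hg.1 x).differentiableWithinAt)
  rw [← hc']
  exact img_deriv hg hd (hE' hs) ⟨hc.1.le, hc.2.le⟩

theorem img_ge {g : ℝ ≃o ℝ} (hg : Rg g) {α β δ y : ℝ} (hd : DB g α β δ) (hy : y ∈ Icc α β)
    {E : Set ℝ} (hE : MeasurableSet E) (hE' : E ⊆ Icc α β) :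
    ENNReal.ofReal (Real.exp (-δ) * deriv (g : ℝ → ℝ) y) * volume E ≤
      volume ((g : ℝ → ℝ) '' E) := by
  have h1 := lintegral_image_eq_lintegral_abs_deriv_mul hE
    (fun s _ => (hg.1 s).hasDerivAt.hasDerivWithinAt) (g.injective.injOn) (fun _ => 1)
  rw [setLIntegral_one] at h1
  rw [h1, ← setLIntegral_const]
  refine setLIntegral_mono' hE fun s hs => ?_
  rw [mul_one, abs_of_pos (hg.2 s)]
  apply ENNReal.ofReal_le_ofReal
  have h2 := img_deriv hg hd hy (hE' hs)
  calc Real.exp (-δ) * deriv (g : ℝ → ℝ) y ≤ Real.exp (-δ) * (Real.exp δ * deriv (g : ℝ → ℝ) s) := by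
        gcongr
    _ = deriv (g : ℝ → ℝ) s := by
        rw [← mul_assoc, ← Real.exp_add, neg_add_cancel, Real.exp_zero, one_mul]

end Pool.Agent.H66.GSC
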