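import Mathlib
import Pool.Agent.H66.GSC.Img

/-!
# GSC-6: the set `E` of points without a return has disjoint images

PROOF.  `c = Ioo (p - t) (p + t)`, `E = c \ ⋃ u ''  c`.  For `i < j < τ` the images `v i '' E` and
`v j '' E` are disjoint: if `v i x = v j y`, `x, y ∈ E`, then `y = (v j)⁻¹ * v i) x ∈ u '' c` with
`u = (v j)⁻¹ * v i ∈ UU v p t τ`.  All are contained in `[-1, 8]` (`v i '' c ⊆ (v i x1, v i x2)`
by `Gd.r`, `Gd.l` (or `t ≤ p - x1`), of length `≤ 1/1000`).  `img_ge` on `[p - t, p + t]` with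
`δ = 2/100` (`hr 2 ≤ 2`), `y = p`: `exp (-2/100) (∑ deriv (v i) p) volume E ≤ 9`, and `9 ≤ 10 exp (-2/100)`.
-/

set_option autoImplicit false
open Set Filter Topology MeasureTheory

namespace Pool.Agent.H66.GSC

open Pool.Agent.H24.GN (ld Rg DB)

/-- the return maps to the box of radius `t` before the time `τ` -/
def UU (v : ℕ → ℝ ≃o ℝ) (p t : ℝ) (τ : ℕ) : Set (ℝ ≃o ℝ) :=
  {u | ∃ i j, i < j ∧ j < τ ∧ u = (v j)⁻¹ * v i ∧
    ∃ z z', |z - p| < t ∧ |z' - p| < t ∧ v i z = v j z'}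

theorem UU_finite (v : ℕ → ℝ ≃o ℝ) (p t : ℝ) (τ : ℕ) : (UU v p t τ).Finite := by
  have h : (UU v p t τ) ⊆ (fun q : ℕ × ℕ => (v q.2)⁻¹ * v q.1) ''
      (((Finset.range τ) ×ˢ (Finset.range τ) : Finset (ℕ × ℕ)) : Set (ℕ × ℕ)) := by
    rintro u ⟨i, j, hij, hj, hu, -⟩
    refine ⟨(i, j), ?_, hu.symm⟩
    simp only [Finset.coe_product, Finset.coe_range, mem_prod, mem_Iio]
    exact ⟨lt_trans hij hj, hj⟩
  exact ((Finset.finite_toSet _).image _).subset h

theorem dis_open (u : ℝ ≃o ℝ) {c : Set ℝ} (hc : IsOpen c) : IsOpen ((u : ℝ → ℝ) '' c) :=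
  u.toHomeomorph.isOpenMap c hc

theorem dis_meas (v : ℕ → ℝ ≃o ℝ) (p t : ℝ) (τ : ℕ) :
    MeasurableSet (Ioo (p - t) (p + t) \ ⋃ u ∈ UU v p t τ, (u : ℝ → ℝ) '' Ioo (p - t) (p + t)) := by
  refine measurableSet_Ioo.diff ?_
  refine IsOpen.measurableSet ?_
  exact isOpen_biUnion fun u _ => dis_open u isOpen_Ioo

theorem dis_abs {p t x : ℝ} (hx : x ∈ Ioo (p - t) (p + t)) : |x - p| < t := by
  rw [abs_lt]
  constructor <;> linarith [hx.1, hx.2]

theorem dis_disj (v : ℕ → ℝ ≃o ℝ) (p t : ℝ) {τ : ℕ} {i j : ℕ} (hij : i < j) (hj : j < τ) :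
    Disjoint
      ((v i : ℝ → ℝ) '' (Ioo (p - t) (p + t) \
        ⋃ u ∈ UU v p t τ, (u : ℝ → ℝ) '' Ioo (p - t) (p + t)))
      ((v j : ℝ → ℝ) '' (Ioo (p - t) (p + t) \
        ⋃ u ∈ UU v p t τ, (u : ℝ → ℝ) '' Ioo (p - t) (p + t))) := by
  rw [Set.disjoint_left]
  rintro z ⟨x, hx, hxz⟩ ⟨y, hy, hyz⟩
  have hxy : v i x = v j y := by rw [hxz, hyz]
  apply hy.2
  refine mem_iUnion₂.2 ⟨(v j)⁻¹ * v i, ⟨i, j, hij, hj, rfl, x, y, dis_abs hx.1, dis_abs hy.1, hxy⟩,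
    x, hx.1, ?_⟩
  show (v j).symm (v i x) = y
  rw [hxy]
  exact (v j).symm_apply_apply y

theorem dis_sub {K : ℝ} (hK : 1 ≤ K) {N : ℕ} {v σ : ℕ → ℝ ≃o ℝ} {a : ℕ → ℝ → ℝ}
    {x1 p x2 : ℝ} (hP : Path K N v σ a x1 p x2) {t : ℝ} (h1 : t ≤ p - x1)
    (h2 : t ≤ x2 - p) {i : ℕ} (hi : i < N) {x : ℝ} (hx : x ∈ Ioo (p - t) (p + t)) :
    v i x ∈ Icc (-1 : ℝ) 8 := by
  have a1 : v i x1 < v i x := (v i).strictMono (by linarith [hx.1])
  have a2 : v i x < v i x2 := (v i).strictMono (by linarith [hx.2])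
  have a3 : v i x1 < v i p := (v i).strictMono hP.lt1
  have a4 : v i p < v i x2 := (v i).strictMono hP.lt2
  have a5 := hP.small i hi
  have a6 := hP.win i hi
  have a7 : 1 / (1000 * K) ≤ 1 / 1000 :=
    one_div_le_one_div_of_le (by norm_num) (by linarith)
  constructor
  · linarith [a6.1]
  · linarith [a6.2]

theorem E_bound {K : ℝ} (hK : 1 ≤ K) {N : ℕ} {v σ : ℕ → ℝ ≃o ℝ} {a : ℕ → ℝ → ℝ}
    {x1 p x2 : ℝ} (hP : Path K N v σ a x1 p x2) {t : ℝ} (ht : 0 < t) (h1 : t ≤ p - x1)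
    (h2 : t ≤ x2 - p) {τ : ℕ} (hτ : τ ≤ N) (hτ0 : 0 < τ) (hg : ∀ i < τ, Gd (v i) x1 p x2 t) :
    volume (Ioo (p - t) (p + t) \ ⋃ u ∈ UU v p t τ, (u : ℝ → ℝ) '' Ioo (p - t) (p + t)) ≤
      ENNReal.ofReal (10 / ∑ i ∈ Finset.range τ, deriv (v i : ℝ → ℝ) p) := by
  set E : Set ℝ := Ioo (p - t) (p + t) \
    ⋃ u ∈ UU v p t τ, (u : ℝ → ℝ) '' Ioo (p - t) (p + t) with hE
  set S : ℝ := ∑ i ∈ Finset.range τ, deriv (v i : ℝ → ℝ) p with hS
  have hEm : MeasurableSet E := dis_meas v p t τ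
  have hEc : E ⊆ Icc (p - t) (p + t) := fun x hx => Ioo_subset_Icc_self hx.1
  have hpos : ∀ i ∈ Finset.range τ, 0 < deriv (v i : ℝ → ℝ) p := by
    intro i hi
    exact (hP.rg i (by have := Finset.mem_range.1 hi; omega)).2 p
  have hSpos : 0 < S := Finset.sum_pos hpos ⟨0, Finset.mem_range.2 hτ0⟩
  have hDB : ∀ i < τ, DB (v i) (p - t) (p + t) (2 / 100) := by
    intro i hi x hx y hy
    have h := (hg i hi).h x ⟨by linarith [hx.1], by linarith [hx.2]⟩ y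
      ⟨by linarith [hy.1], by linarith [hy.2]⟩
    have hxy : |x - y| / t ≤ (2 : ℝ) ^ 4 := by
      rw [div_le_iff₀ ht]
      have : |x - y| ≤ 2 * t := by
        rw [abs_le]
        constructor <;> linarith [hx.1, hx.2, hy.1, hy.2]
      linarith
    have := hr_le (by norm_num) hxy
    linarith
  have hge : ∀ i ∈ Finset.range τ, ENNReal.ofReal (9 / 10 * deriv (v i : ℝ → ℝ) p) * volume E ≤
      volume ((v i : ℝ → ℝ) '' E) := by
    intro i hi
    have hi' := Finset.mem_range.1 hi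
    have h := img_ge (hP.rg i (by omega)) (hDB i hi') (y := p)
      ⟨by linarith, by linarith⟩ hEm hEc
    refine le_trans ?_ h
    gcongr
    · exact (hpos i hi).le
    · have := Real.add_one_le_exp (-(2 / 100) : ℝ)
      linarith
  have hsum : ∑ i ∈ Finset.range τ, volume ((v i : ℝ → ℝ) '' E) ≤ ENNReal.ofReal 9 := by
    have hdis : (↑(Finset.range τ) : Set ℕ).PairwiseDisjoint
        (fun i => (v i : ℝ → ℝ) '' E) := by
      intro i hi j hj hij
      have hi' := Finset.mem_range.1 (Finset.mem_coe.1 hi)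
      have hj' := Finset.mem_range.1 (Finset.mem_coe.1 hj)
      rcases lt_or_gt_of_ne hij with h | h
      · exact dis_disj v p t h hj'
      · exact (dis_disj v p t h hi').symm
    have hm : ∀ i ∈ Finset.range τ, MeasurableSet ((v i : ℝ → ℝ) '' E) := by
      intro i _
      exact (v i).toHomeomorph.measurableEmbedding.measurableSet_image.2 hEm
    rw [← measure_biUnion_finset hdis hm]
    calc volume (⋃ i ∈ Finset.range τ, (v i : ℝ → ℝ) '' E) ≤ volume (Icc (-1 : ℝ) 8) := by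
          apply measure_mono
          refine iUnion₂_subset fun i hi => ?_
          rintro _ ⟨x, hx, rfl⟩
          exact dis_sub hK hP h1 h2 (lt_of_lt_of_le (Finset.mem_range.1 hi) hτ) hx.1
      _ = ENNReal.ofReal 9 := by
          rw [Real.volume_Icc]
          norm_num
  have hfin : volume E ≠ ⊤ := by
    refine ne_top_of_le_ne_top ?_ (measure_mono hEc)
    rw [Real.volume_Icc]
    exact ENNReal.ofReal_ne_top
  have htot : ENNReal.ofReal (9 / 10 * S) * volume E ≤ ENNReal.ofReal 9 := by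
    refine le_trans ?_ hsum
    refine le_trans ?_ (Finset.sum_le_sum hge)
    rw [← Finset.sum_mul, hS, Finset.mul_sum,
      ENNReal.ofReal_sum_of_nonneg (fun i hi => by have := hpos i hi; positivity)]
  rw [← ENNReal.ofReal_toReal hfin] at htot ⊢
  rw [← ENNReal.ofReal_mul (by positivity)] at htot
  have h9 : 9 / 10 * S * (volume E).toReal ≤ 9 := (ENNReal.ofReal_le_ofReal_iff (by norm_num)).1 htot
  apply ENNReal.ofReal_le_ofReal
  rw [le_div_iff₀ hSpos]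
  nlinarith

end Pool.Agent.H66.GSC
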