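import Mathlib
import Pool.Agent.H66.GSC.Hr
import Pool.Agent.H24.GN.Calc

/-!
# GSC-4: a return map

PROOF.  `deriv v x ≤ exp (1/100) * deriv v p` for `|x - p| ≤ t` (and `exp (12/1000)` for
`|x - p| ≤ 2 t`, as `hr 2 ≤ 1.2`), same for `w`.  So
`|v p - w p| ≤ 1.02 t (deriv v p + deriv w p)`, while `hsep` and `Gd v` give
`|v p - w p| ≥ 10000 t deriv v p`.  Hence `deriv w p ≥ 9000 deriv v p`.  For `|x - p| ≤ 2 t`:
`|v x - v z| ≤ 3.1 t deriv v p ≤ 0.001 t deriv w p`, while `w` maps `[p - 51/50 t, p + 51/50 t]` onto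
an interval which contains the `0.019 t deriv w p` neighbourhood of `w z' = v z`.  So
`u x = w⁻¹ (v x)` satisfies `|u x - p| ≤ 51/50 t`.  `deriv u x = deriv v x / deriv w (u x)`,
`ld u x = ld v x - ld w (u x)`, `|u x - u y| ≤ 11/10000 |x - y|` (mean value), `hr (11/10000) ≤ 0.19`.
-/

set_option autoImplicit false
open Set Filter Topology MeasureTheory

namespace Pool.Agent.H66.GSC

open Pool.Agent.H24.GN (ld Rg DB)

theorem ret_le {w : ℝ ≃o ℝ} (hw : Rg w) {lo hi c : ℝ}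
    (h : ∀ x ∈ Icc lo hi, deriv (w : ℝ → ℝ) x ≤ c) {y z : ℝ} (hy : y ∈ Icc lo hi)
    (hz : z ∈ Icc lo hi) : |w y - w z| ≤ c * |y - z| := by
  have key : ∀ y z : ℝ, y ∈ Icc lo hi → z ∈ Icc lo hi → y < z → |w y - w z| ≤ c * |y - z| := by
    intro y z hy hz hlt
    obtain ⟨e, h1, h2, h3⟩ := Pool.Agent.H24.GN.calc_mvt hw hlt
    have h4 : 0 < z - y := by linarith
    have h5 : 0 < w z - w y := sub_pos.mpr (w.strictMono hlt)
    rw [abs_sub_comm (w y), abs_sub_comm y, abs_of_pos h4, abs_of_pos h5, h3]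
    exact mul_le_mul_of_nonneg_right (h e ⟨hy.1.trans h1.le, h2.le.trans hz.2⟩) h4.le
  rcases lt_trichotomy y z with hlt | rfl | hlt
  · exact key y z hy hz hlt
  · simp
  · have := key z y hz hy hlt
    rw [abs_sub_comm (w y), abs_sub_comm y]
    exact this

theorem ret_ge {w : ℝ ≃o ℝ} (hw : Rg w) {lo hi c : ℝ}
    (h : ∀ x ∈ Icc lo hi, c ≤ deriv (w : ℝ → ℝ) x) {y z : ℝ} (hy : y ∈ Icc lo hi)
    (hz : z ∈ Icc lo hi) (hyz : y ≤ z) : c * (z - y) ≤ w z - w y := by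
  rcases hyz.eq_or_lt with rfl | hlt
  · simp
  obtain ⟨e, h1, h2, h3⟩ := Pool.Agent.H24.GN.calc_mvt hw hlt
  rw [h3]
  exact mul_le_mul_of_nonneg_right (h e ⟨hy.1.trans h1.le, h2.le.trans hz.2⟩) (by linarith)

theorem ret_ld {w : ℝ ≃o ℝ} {x1 p x2 t : ℝ} (ht : 0 < t) (g : Gd w x1 p x2 t) {x : ℝ}
    (hx : |x - p| ≤ 2 * t) : |ld w x - ld w p| ≤ 12 / 1000 := by
  have hx' := abs_le.mp hx
  have h1 := g.h x ⟨by linarith [hx'.1], by linarith [hx'.2]⟩ p ⟨by linarith, by linarith⟩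
  have h2 : |x - p| / t ≤ 2 := by
    rw [div_le_iff₀ ht]
    exact hx
  have h3 : hr (|x - p| / t) ≤ 12 / 10 := hr_le (by norm_num) (h2.trans (by norm_num))
  linarith

theorem ret_exp_hi {s : ℝ} (h : s ≤ 12 / 1000) : Real.exp s ≤ 10122 / 10000 := by
  have h1 : |(12 / 1000 : ℝ)| ≤ 1 := by norm_num [abs_le]
  have h2 := Real.abs_exp_sub_one_sub_id_le h1
  have h3 := (abs_le.mp h2).2
  have h4 : Real.exp s ≤ Real.exp (12 / 1000) := Real.exp_le_exp.mpr h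
  norm_num at h3
  linarith

theorem ret_exp_lo {s : ℝ} (h : -(12 / 1000) ≤ s) : 988 / 1000 ≤ Real.exp s := by
  have h1 := Real.add_one_le_exp s
  linarith

theorem ret_hi {w : ℝ ≃o ℝ} {x1 p x2 t : ℝ} (ht : 0 < t) (hw : Rg w) (g : Gd w x1 p x2 t) {x : ℝ}
    (hx : |x - p| ≤ 2 * t) :
    deriv (w : ℝ → ℝ) x ≤ 10122 / 10000 * deriv (w : ℝ → ℝ) p := by
  have h1 := abs_le.mp (ret_ld ht g hx)
  have h2 : deriv (w : ℝ → ℝ) x = Real.exp (ld w x - ld w p) * deriv (w : ℝ → ℝ) p := by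
    rw [← Pool.Agent.H24.GN.calc_exp_ld hw x, ← Pool.Agent.H24.GN.calc_exp_ld hw p,
      ← Real.exp_add]
    congr 1
    ring
  rw [h2]
  exact mul_le_mul_of_nonneg_right (ret_exp_hi h1.2) (hw.2 p).le

theorem ret_lo {w : ℝ ≃o ℝ} {x1 p x2 t : ℝ} (ht : 0 < t) (hw : Rg w) (g : Gd w x1 p x2 t) {x : ℝ}
    (hx : |x - p| ≤ 2 * t) :
    988 / 1000 * deriv (w : ℝ → ℝ) p ≤ deriv (w : ℝ → ℝ) x := by
  have h1 := abs_le.mp (ret_ld ht g hx)
  have h2 : deriv (w : ℝ → ℝ) x = Real.exp (ld w x - ld w p) * deriv (w : ℝ → ℝ) p := by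
    rw [← Pool.Agent.H24.GN.calc_exp_ld hw x, ← Pool.Agent.H24.GN.calc_exp_ld hw p,
      ← Real.exp_add]
    congr 1
    ring
  rw [h2]
  exact mul_le_mul_of_nonneg_right (ret_exp_lo h1.1) (hw.2 p).le

theorem ret_dist {w : ℝ ≃o ℝ} {x1 p x2 t : ℝ} (ht : 0 < t) (hw : Rg w) (g : Gd w x1 p x2 t)
    {x y : ℝ} (hx : |x - p| ≤ 2 * t) (hy : |y - p| ≤ 2 * t) :
    |w x - w y| ≤ 10122 / 10000 * deriv (w : ℝ → ℝ) p * |x - y| := by
  have hx' := abs_le.mp hx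
  have hy' := abs_le.mp hy
  refine ret_le hw (lo := p - 2 * t) (hi := p + 2 * t) ?_ ⟨by linarith [hx'.1], by linarith [hx'.2]⟩
    ⟨by linarith [hy'.1], by linarith [hy'.2]⟩
  intro s hs
  exact ret_hi ht hw g (abs_le.mpr ⟨by linarith [hs.1], by linarith [hs.2]⟩)

theorem ret {v w : ℝ ≃o ℝ} {x1 p x2 t : ℝ} (ht : 0 < t) (hv : Rg v) (hw : Rg w)
    (gv : Gd v x1 p x2 t) (gw : Gd w x1 p x2 t) (hsep : ¬(v x1 < w p ∧ w p < v x2))
    {z z' : ℝ} (hz : |z - p| < t) (hz' : |z' - p| < t) (h : v z = w z') :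
    Ru (w⁻¹ * v) p t := by
  have ha : 0 < deriv (v : ℝ → ℝ) p := hv.2 p
  have hb : 0 < deriv (w : ℝ → ℝ) p := hw.2 p
  set a := deriv (v : ℝ → ℝ) p with had
  set b := deriv (w : ℝ → ℝ) p with hbd
  have hz2 : |z - p| ≤ 2 * t := by linarith
  have hz2' : |z' - p| ≤ 2 * t := by linarith
  have hp : |p - p| ≤ 2 * t := by simp; linarith
  have hta : 0 < t * a := mul_pos ht ha
  have htb : 0 < t * b := mul_pos ht hb
  -- step 1: comparison of the derivatives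
  have s1 := ret_dist ht hv gv hz2 hp
  have s2 := ret_dist ht hw gw hz2' hp
  rw [← had] at s1
  rw [← hbd] at s2
  have s1' : |v z - v p| ≤ 10122 / 10000 * (t * a) := by
    have := mul_le_mul_of_nonneg_left hz.le (by positivity : 0 ≤ 10122 / 10000 * a)
    linarith
  have s2' : |w z' - w p| ≤ 10122 / 10000 * (t * b) := by
    have := mul_le_mul_of_nonneg_left hz'.le (by positivity : 0 ≤ 10122 / 10000 * b)
    linarith
  have s1a := abs_le.mp s1'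
  have s2a := abs_le.mp s2'
  have gr := gv.r
  have gl := gv.l
  rw [← had] at gr gl
  have hab : 9800 * (t * a) ≤ t * b := by
    by_cases hc : v x1 < w p
    · have hc2 : v x2 ≤ w p := by
        by_contra hc3
        exact hsep ⟨hc, not_le.mp hc3⟩
      linarith [s1a.1, s1a.2, s2a.1, s2a.2]
    · have hc2 : w p ≤ v x1 := not_lt.mp hc
      linarith [s1a.1, s1a.2, s2a.1, s2a.2]
  have hab' : 9800 * a ≤ b := by
    have : t * (9800 * a) ≤ t * b := by linarith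
    exact le_of_mul_le_mul_left this ht
  -- the inverse
  have hinv : ∀ x : ℝ, w ((w⁻¹ : ℝ ≃o ℝ) x) = x := fun x => RelIso.apply_inv_self w x
  have hz1 := abs_lt.mp hz
  have hz1' := abs_lt.mp hz'
  -- step 2
  have hmap : ∀ x, |x - p| ≤ 2 * t → |(w⁻¹ * v : ℝ ≃o ℝ) x - p| ≤ 51 / 50 * t := by
    intro x hx
    have e1 : (w⁻¹ * v : ℝ ≃o ℝ) x = (w⁻¹ : ℝ ≃o ℝ) (v x) := rfl
    rw [e1]
    have hx' := abs_le.mp hx
    have r1 := ret_dist ht hv gv hx hz2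
    rw [← had] at r1
    have r2 : |x - z| ≤ 3 * t := abs_le.mpr ⟨by linarith [hx'.1], by linarith [hx'.2]⟩
    have r3 : |v x - v z| ≤ 30366 / 10000 * (t * a) := by
      have := mul_le_mul_of_nonneg_left r2 (by positivity : 0 ≤ 10122 / 10000 * a)
      linarith
    have r4 : |v x - v z| ≤ 1 / 1000 * (t * b) := by linarith
    have r5 := abs_le.mp r4
    have u1 : 988 / 1000 * b * (p + 51 / 50 * t - (p + t)) ≤ w (p + 51 / 50 * t) - w (p + t) := by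
      refine ret_ge hw (lo := p + t) (hi := p + 51 / 50 * t) ?_ ⟨le_rfl, by linarith⟩
        ⟨by linarith, le_rfl⟩ (by linarith)
      intro s hs
      exact ret_lo ht hw gw (abs_le.mpr ⟨by linarith [hs.1], by linarith [hs.2]⟩)
    have u2 : 988 / 1000 * b * (p - t - (p - 51 / 50 * t)) ≤ w (p - t) - w (p - 51 / 50 * t) := by
      refine ret_ge hw (lo := p - 51 / 50 * t) (hi := p - t) ?_ ⟨le_rfl, by linarith⟩
        ⟨by linarith, le_rfl⟩ (by linarith)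
      intro s hs
      exact ret_lo ht hw gw (abs_le.mpr ⟨by linarith [hs.1], by linarith [hs.2]⟩)
    have u1' : 988 / 1000 * b * (p + 51 / 50 * t - (p + t)) = 1976 / 100000 * (t * b) := by ring
    have u2' : 988 / 1000 * b * (p - t - (p - 51 / 50 * t)) = 1976 / 100000 * (t * b) := by ring
    rw [u1'] at u1
    rw [u2'] at u2
    have m1 : w z' ≤ w (p + t) := w.monotone (by linarith)
    have m2 : w (p - t) ≤ w z' := w.monotone (by linarith)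
    have k1 : (w⁻¹ : ℝ ≃o ℝ) (v x) ≤ p + 51 / 50 * t := by
      rw [← w.le_iff_le, hinv]
      linarith [r5.2]
    have k2 : p - 51 / 50 * t ≤ (w⁻¹ : ℝ ≃o ℝ) (v x) := by
      rw [← w.le_iff_le, hinv]
      linarith [r5.1]
    exact abs_le.mpr ⟨by linarith, by linarith⟩
  have hRg : Rg (w⁻¹ * v) :=
    Pool.Agent.H24.GN.rg_mul (Pool.Agent.H24.GN.rg_inv hw) hv
  have hld : ∀ x, ld (w⁻¹ * v) x = ld v x - ld w ((w⁻¹ * v : ℝ ≃o ℝ) x) := by
    intro x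
    rw [Pool.Agent.H24.GN.ld_mul (Pool.Agent.H24.GN.rg_inv hw) hv,
      Pool.Agent.H24.GN.ld_inv' hw]
    have e1 : (w⁻¹ * v : ℝ ≃o ℝ) x = (w⁻¹ : ℝ ≃o ℝ) (v x) := rfl
    rw [e1]
    ring
  -- step 3
  have hder : ∀ x, |x - p| ≤ 2 * t → deriv ((w⁻¹ * v : ℝ ≃o ℝ) : ℝ → ℝ) x ≤ 11 / 10000 := by
    intro x hx
    have h1 := hmap x hx
    have h2 : |(w⁻¹ * v : ℝ ≃o ℝ) x - p| ≤ 2 * t := by linarith
    have h3 := ret_hi ht hv gv hx
    have h4 := ret_lo ht hw gw h2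
    rw [← had] at h3
    rw [← hbd] at h4
    have h5 : deriv ((w⁻¹ * v : ℝ ≃o ℝ) : ℝ → ℝ) x * deriv (w : ℝ → ℝ) ((w⁻¹ * v : ℝ ≃o ℝ) x) =
        deriv (v : ℝ → ℝ) x := by
      rw [← Pool.Agent.H24.GN.calc_exp_ld hRg x, ← Pool.Agent.H24.GN.calc_exp_ld hw,
        ← Pool.Agent.H24.GN.calc_exp_ld hv x, ← Real.exp_add, hld x]
      congr 1
      ring
    have h6 : 0 < deriv (w : ℝ → ℝ) ((w⁻¹ * v : ℝ ≃o ℝ) x) := hw.2 _
    by_contra h7
    push Not at h7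
    have h8 : 11 / 10000 * (988 / 1000 * b) ≤
        deriv ((w⁻¹ * v : ℝ ≃o ℝ) : ℝ → ℝ) x * deriv (w : ℝ → ℝ) ((w⁻¹ * v : ℝ ≃o ℝ) x) :=
      mul_le_mul h7.le h4 (by positivity) (by linarith)
    rw [h5] at h8
    linarith
  refine ⟨hRg, hmap, hder, ?_⟩
  intro x y hx hy
  have hx' := abs_le.mp hx
  have hy' := abs_le.mp hy
  have h1 := gv.h x ⟨by linarith [hx'.1], by linarith [hx'.2]⟩ y
    ⟨by linarith [hy'.1], by linarith [hy'.2]⟩
  have mx := abs_le.mp (hmap x hx)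
  have my := abs_le.mp (hmap y hy)
  have h2 := gw.h ((w⁻¹ * v : ℝ ≃o ℝ) x) ⟨by linarith [mx.1], by linarith [mx.2]⟩
    ((w⁻¹ * v : ℝ ≃o ℝ) y) ⟨by linarith [my.1], by linarith [my.2]⟩
  have h3 : |(w⁻¹ * v : ℝ ≃o ℝ) x - (w⁻¹ * v : ℝ ≃o ℝ) y| ≤ 11 / 10000 * |x - y| := by
    refine ret_le hRg (lo := p - 2 * t) (hi := p + 2 * t) ?_
      ⟨by linarith [hx'.1], by linarith [hx'.2]⟩ ⟨by linarith [hy'.1], by linarith [hy'.2]⟩
    intro s hs
    exact hder s (abs_le.mpr ⟨by linarith [hs.1], by linarith [hs.2]⟩)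
  have h4 : |(w⁻¹ * v : ℝ ≃o ℝ) x - (w⁻¹ * v : ℝ ≃o ℝ) y| / t ≤ 11 / 10000 * (|x - y| / t) := by
    rw [← mul_div_assoc]
    exact div_le_div_of_nonneg_right h3 ht.le
  have h5 : hr (|(w⁻¹ * v : ℝ ≃o ℝ) x - (w⁻¹ * v : ℝ ≃o ℝ) y| / t) ≤
      19 / 100 * hr (|x - y| / t) := by
    refine (hr_mono h4).trans ?_
    rw [hr_mul (by norm_num)]
    exact mul_le_mul_of_nonneg_right (hr_le (by norm_num) (by norm_num)) (hr_nonneg _)
  have h6 := hr_nonneg (|x - y| / t)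
  rw [hld x, hld y]
  have h7 : |ld v x - ld w ((w⁻¹ * v : ℝ ≃o ℝ) x) - (ld v y - ld w ((w⁻¹ * v : ℝ ≃o ℝ) y))| ≤
      |ld v x - ld v y| + |ld w ((w⁻¹ * v : ℝ ≃o ℝ) x) - ld w ((w⁻¹ * v : ℝ ≃o ℝ) y)| := by
    have e : ld v x - ld w ((w⁻¹ * v : ℝ ≃o ℝ) x) - (ld v y - ld w ((w⁻¹ * v : ℝ ≃o ℝ) y)) =
      (ld v x - ld v y) - (ld w ((w⁻¹ * v : ℝ ≃o ℝ) x) - ld w ((w⁻¹ * v : ℝ ≃o ℝ) y)) := by ring
    rw [e]
    exact abs_sub _ _
  linarith

end Pool.Agent.H66.GSC
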