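import Mathlib
import Pool.Agent.H66.GSC.Hr
import Pool.Agent.H24.GN.Calc

/-!
# GSC-2: the Moebius corrected step

PROOF.  Write `Q = P + R`, `Φ u = σ' u / (σ Q - σ u) - 1 / (Q - u)` for `u < Q`.
`phi_ap`: `σ' w = σ' u * exp (∫_u^w a)` and `|exp s - 1 - s| ≤ s²` for `|s| ≤ 1`; integrate over
`w ∈ [u, Q]` (Fubini or integration by parts: `∫_u^Q ∫_u^w a = ∫_u^Q (Q - z) a z`).
`hasDerivAt_log`: `u ↦ log ((σ Q - σ u) / (Q - u))` has the derivative `-Φ u`.
`ap_near`: integration by parts.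
`step_right`: mean value inequality for
`u ↦ ld σ u - 2 log ((σ Q - σ u) / (Q - u)) - ∫_P^u (a - m)`, whose derivative is `2 Φ u + m`.
`step_lam`: `phi_ap` at `u = P` and its mirror image.
-/

set_option autoImplicit false
open Set Filter Topology MeasureTheory

namespace Pool.Agent.H66.GSC

open Pool.Agent.H24.GN (ld Rg DB)

theorem phi_ld_int {K : ℝ} {σ : ℝ ≃o ℝ} {a : ℝ → ℝ} (hs : Sm K σ a) (u w : ℝ) :
    ∫ z in u..w, a z = ld σ w - ld σ u :=
  intervalIntegral.integral_eq_sub_of_hasDerivAt (fun x _ => hs.der x)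
    (hs.cont.intervalIntegrable _ _)

theorem phi_der_eq {K : ℝ} {σ : ℝ ≃o ℝ} {a : ℝ → ℝ} (hs : Sm K σ a) (u w : ℝ) :
    deriv (σ : ℝ → ℝ) w = deriv (σ : ℝ → ℝ) u * Real.exp (∫ z in u..w, a z) := by
  rw [phi_ld_int hs, Real.exp_sub, Pool.Agent.H24.GN.calc_exp_ld hs.rg,
    Pool.Agent.H24.GN.calc_exp_ld hs.rg]
  have := (hs.rg.2 u).ne'
  field_simp

theorem phi_ld_cont {K : ℝ} {σ : ℝ ≃o ℝ} {a : ℝ → ℝ} (hs : Sm K σ a) : Continuous (ld σ) :=
  continuous_iff_continuousAt.2 fun x => (hs.der x).continuousAt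

theorem phi_der_cont {K : ℝ} {σ : ℝ ≃o ℝ} {a : ℝ → ℝ} (hs : Sm K σ a) :
    Continuous (deriv (σ : ℝ → ℝ)) := by
  have h : deriv (σ : ℝ → ℝ) = fun x => Real.exp (ld σ x) := by
    funext x
    exact (Pool.Agent.H24.GN.calc_exp_ld hs.rg x).symm
  rw [h]
  exact Real.continuous_exp.comp (phi_ld_cont hs)

theorem phi_int {K : ℝ} {σ : ℝ ≃o ℝ} {a : ℝ → ℝ} (hs : Sm K σ a) (u c d : ℝ) :
    σ d - σ c = deriv (σ : ℝ → ℝ) u * ∫ w in c..d, Real.exp (∫ z in u..w, a z) := by
  rw [← intervalIntegral.integral_const_mul]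
  have h : ∀ w, deriv (σ : ℝ → ℝ) u * Real.exp (∫ z in u..w, a z) = deriv (σ : ℝ → ℝ) w :=
    fun w => (phi_der_eq hs u w).symm
  simp_rw [h]
  exact (intervalIntegral.integral_eq_sub_of_hasDerivAt
    (fun x _ => (hs.rg.1 x).hasDerivAt) ((phi_der_cont hs).intervalIntegrable _ _)).symm

theorem phi_exp_bd {s : ℝ} (h : |s| ≤ 1) : |Real.exp s - 1 - s| ≤ s ^ 2 :=
  Real.abs_exp_sub_one_sub_id_le h

theorem phi_alg {K h A r : ℝ} (hK : 1 ≤ K) (hh : 0 < h) (hKh : K * h ≤ 1 / 50)
    (hA : |A| ≤ K * h ^ 2 / 2) (hr : |r| ≤ K ^ 2 * h ^ 3 / 3) :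
    0 < h + A + r ∧ |1 / (h + A + r) - 1 / h + A / h ^ 2| ≤ K ^ 2 * h := by
  have hK0 : 0 < K := by linarith
  have hA' := abs_le.1 hA
  have hr' := abs_le.1 hr
  have e1 : K * h ^ 2 = (K * h) * h := by ring
  have e2 : K ^ 2 * h ^ 3 = (K * h) * (K * h) * h := by ring
  have hkh0 : 0 < K * h := by positivity
  have b1 : (K * h) * h ≤ 1 / 50 * h := by gcongr
  have b2 : (K * h) * (K * h) * h ≤ 1 / 50 * (1 / 50) * h := by gcongr
  have hJ : 98 / 100 * h ≤ h + A + r := by
    rw [e1] at hA'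
    rw [e2] at hr'
    linarith [hA'.1, hr'.1]
  have hJ0 : 0 < h + A + r := by linarith
  refine ⟨hJ0, ?_⟩
  have e3 : 1 / (h + A + r) - 1 / h + A / h ^ 2 =
      (A ^ 2 + A * r - h * r) / ((h + A + r) * h ^ 2) := by
    field_simp
    ring
  rw [e3, abs_div, abs_of_pos (show 0 < (h + A + r) * h ^ 2 by positivity), div_le_iff₀ (by positivity)]
  have c1 : |A ^ 2 + A * r - h * r| ≤ |A| * |A| + |A| * |r| + h * |r| := by
    have t1 := abs_add_le (A ^ 2 + A * r) (-(h * r))
    have t2 := abs_add_le (A ^ 2) (A * r)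
    have t3 : |A ^ 2| = |A| * |A| := by rw [pow_two, abs_mul]
    have t4 : |A * r| = |A| * |r| := abs_mul _ _
    have t5 : |-(h * r)| = h * |r| := by rw [abs_neg, abs_mul, abs_of_pos hh]
    have t6 : A ^ 2 + A * r + -(h * r) = A ^ 2 + A * r - h * r := by ring
    rw [t6] at t1
    linarith
  have c2 : |A| * |A| ≤ (K * h ^ 2 / 2) * (K * h ^ 2 / 2) := by gcongr
  have c3 : |A| * |r| ≤ (K * h ^ 2 / 2) * (K ^ 2 * h ^ 3 / 3) := by gcongr
  have c4 : h * |r| ≤ h * (K ^ 2 * h ^ 3 / 3) := by gcongr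
  have c5 : (K * h ^ 2 / 2) * (K ^ 2 * h ^ 3 / 3) = K ^ 2 * h ^ 4 * ((K * h) / 6) := by ring
  have c6 : K ^ 2 * h ^ 4 * ((K * h) / 6) ≤ K ^ 2 * h ^ 4 * ((1 / 50) / 6) := by gcongr
  have c7 : K ^ 2 * h * ((98 / 100 * h) * h ^ 2) ≤ K ^ 2 * h * ((h + A + r) * h ^ 2) := by gcongr
  have c8 : 0 ≤ K ^ 2 * h ^ 4 := by positivity
  calc |A ^ 2 + A * r - h * r| ≤ (K * h ^ 2 / 2) * (K * h ^ 2 / 2) +
        K ^ 2 * h ^ 4 * ((1 / 50) / 6) + h * (K ^ 2 * h ^ 3 / 3) := by linarith
    _ ≤ K ^ 2 * h * ((98 / 100 * h) * h ^ 2) := by nlinarith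
    _ ≤ _ := c7

/-- bounds of the primitive -/
theorem phi_prim {K : ℝ} {a : ℝ → ℝ} (hb : ∀ x, |a x| ≤ K) (u w : ℝ) :
    |∫ z in u..w, a z| ≤ K * |w - u| := by
  have h := intervalIntegral.norm_integral_le_of_norm_le_const (a := u) (b := w) (C := K)
    (f := a) (fun x _ => by rw [Real.norm_eq_abs]; exact hb x)
  rwa [Real.norm_eq_abs] at h

theorem phi_prim_hd {a : ℝ → ℝ} (ha : Continuous a) (u w : ℝ) :
    HasDerivAt (fun w => ∫ z in u..w, a z) (a w) w :=
  intervalIntegral.integral_hasDerivAt_right (ha.intervalIntegrable _ _)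
    (ha.stronglyMeasurableAtFilter _ _) ha.continuousAt

theorem phi_prim_cont {a : ℝ → ℝ} (ha : Continuous a) (u : ℝ) :
    Continuous (fun w => ∫ z in u..w, a z) :=
  continuous_iff_continuousAt.2 fun w => (phi_prim_hd ha u w).continuousAt

/-- integration by parts -/
theorem phi_parts {a : ℝ → ℝ} (ha : Continuous a) (u e c d : ℝ) :
    ∫ w in c..d, (e - w) * a w = (e - d) * (∫ z in u..d, a z) - (e - c) * (∫ z in u..c, a z) +
      ∫ w in c..d, ∫ z in u..w, a z := by
  have h1 : ∀ w, HasDerivAt (fun w => (e - w) * ∫ z in u..w, a z)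
      (-(∫ z in u..w, a z) + (e - w) * a w) w := by
    intro w
    have h2 : HasDerivAt (fun w => (e - w) * ∫ z in u..w, a z)
        (-1 * (∫ z in u..w, a z) + (e - w) * a w) w :=
      ((hasDerivAt_id w).const_sub e).mul (phi_prim_hd ha u w)
    refine h2.congr_deriv ?_
    ring
  have hc : Continuous (fun w => -(∫ z in u..w, a z) + (e - w) * a w) :=
    (phi_prim_cont ha u).neg.add ((continuous_const.sub continuous_id).mul ha)
  have h3 := intervalIntegral.integral_eq_sub_of_hasDerivAt (a := c) (b := d)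
    (fun x _ => h1 x) (hc.intervalIntegrable _ _)
  have h4 := intervalIntegral.integral_add (a := c) (b := d) (μ := volume)
    (f := fun w => -(∫ z in u..w, a z)) (g := fun w => (e - w) * a w)
    ((phi_prim_cont ha u).neg.intervalIntegrable _ _)
    (((continuous_const.sub continuous_id).mul ha).intervalIntegrable _ _)
  rw [h4, intervalIntegral.integral_neg] at h3
  linarith

/-- the error of the exponential, on an interval of length `h` next to `u` -/
theorem phi_err {K : ℝ} {a : ℝ → ℝ} (ha : Continuous a) (hb : ∀ x, |a x| ≤ K) (hK : 1 ≤ K)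
    {u c d h : ℝ} (hcd : c ≤ d) (hh : 0 < h) (hKh : K * h ≤ 1 / 50)
    (hcd2 : (c = u ∧ d = u + h) ∨ (c = u - h ∧ d = u)) :
    |(∫ w in c..d, Real.exp (∫ z in u..w, a z)) - h - ∫ w in c..d, ∫ z in u..w, a z| ≤
      K ^ 2 * h ^ 3 / 3 := by
  have hK0 : 0 < K := by linarith
  have hpc := phi_prim_cont ha u
  have e1 : (∫ w in c..d, Real.exp (∫ z in u..w, a z)) - h - (∫ w in c..d, ∫ z in u..w, a z) =
      ∫ w in c..d, (Real.exp (∫ z in u..w, a z) - 1 - ∫ z in u..w, a z) := by
    rw [intervalIntegral.integral_sub, intervalIntegral.integral_sub]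
    · rw [intervalIntegral.integral_const]
      have : d - c = h := by
        rcases hcd2 with ⟨h1, h2⟩ | ⟨h1, h2⟩ <;> rw [h1, h2] <;> ring
      rw [this]
      simp
    · exact (Real.continuous_exp.comp hpc).intervalIntegrable _ _
    · exact continuous_const.intervalIntegrable _ _
    · exact ((Real.continuous_exp.comp hpc).sub continuous_const).intervalIntegrable _ _
    · exact hpc.intervalIntegrable _ _
  rw [e1]
  have hpt : ∀ w ∈ Icc c d, |Real.exp (∫ z in u..w, a z) - 1 - ∫ z in u..w, a z| ≤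
      K ^ 2 * (w - u) ^ 2 := by
    intro w hw
    have h1 := phi_prim hb u w
    have h2 : |w - u| ≤ h := by
      rw [abs_le]
      rcases hcd2 with ⟨h3, h4⟩ | ⟨h3, h4⟩ <;> rw [h3, h4] at hw <;>
        constructor <;> linarith [hw.1, hw.2]
    have h3 : |∫ z in u..w, a z| ≤ 1 := by
      have : K * |w - u| ≤ K * h := by gcongr
      linarith
    refine (phi_exp_bd h3).trans ?_
    rw [← sq_abs (∫ z in u..w, a z), ← sq_abs (w - u), ← mul_pow]
    exact pow_le_pow_left₀ (abs_nonneg _) h1 2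
  have h1 : |∫ w in c..d, (Real.exp (∫ z in u..w, a z) - 1 - ∫ z in u..w, a z)| ≤
      ∫ w in c..d, K ^ 2 * (w - u) ^ 2 := by
    refine (intervalIntegral.abs_integral_le_integral_abs hcd).trans ?_
    apply intervalIntegral.integral_mono_on hcd
    · exact (((Real.continuous_exp.comp hpc).sub continuous_const).sub hpc).abs.intervalIntegrable
        _ _
    · exact (by fun_prop : Continuous fun w : ℝ => K ^ 2 * (w - u) ^ 2).intervalIntegrable _ _
    · exact hpt
  refine h1.trans (le_of_eq ?_)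
  have h2 : ∀ w, HasDerivAt (fun w : ℝ => K ^ 2 * (w - u) ^ 3 / 3) (K ^ 2 * (w - u) ^ 2) w := by
    intro w
    have h3 := ((((hasDerivAt_id w).sub_const u).pow 3).const_mul (K ^ 2)).div_const 3
    refine h3.congr_deriv ?_
    simp only [id]
    push_cast
    ring
  rw [intervalIntegral.integral_eq_sub_of_hasDerivAt (fun x _ => h2 x)
    ((by fun_prop : Continuous fun w : ℝ => K ^ 2 * (w - u) ^ 2).intervalIntegrable _ _)]
  rcases hcd2 with ⟨h3, h4⟩ | ⟨h3, h4⟩ <;> rw [h3, h4] <;> ring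

theorem phi_small {K : ℝ} {a : ℝ → ℝ} (ha : Continuous a) (hb : ∀ x, |a x| ≤ K)
    (hK : 1 ≤ K) {u c d h : ℝ} (hcd : c ≤ d)
    (hcd2 : (c = u ∧ d = u + h) ∨ (c = u - h ∧ d = u)) :
    |∫ w in c..d, ∫ z in u..w, a z| ≤ K * h ^ 2 / 2 := by
  have hK0 : 0 < K := by linarith
  have hpc := phi_prim_cont ha u
  have h1 : |∫ w in c..d, ∫ z in u..w, a z| ≤ ∫ w in c..d, K * |w - u| := by
    refine (intervalIntegral.abs_integral_le_integral_abs hcd).trans ?_
    apply intervalIntegral.integral_mono_on hcd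
    · exact hpc.abs.intervalIntegrable _ _
    · exact (by fun_prop : Continuous fun w : ℝ => K * |w - u|).intervalIntegrable _ _
    · intro w _
      exact phi_prim hb u w
  refine h1.trans (le_of_eq ?_)
  rcases hcd2 with ⟨h3, h4⟩ | ⟨h3, h4⟩
  · have h5 : ∫ w in c..d, K * |w - u| = ∫ w in c..d, K * (w - u) := by
      apply intervalIntegral.integral_congr
      intro w hw
      rw [uIcc_of_le hcd, h3] at hw
      simp only
      rw [abs_of_nonneg (by linarith [hw.1])]
    have h6 : ∀ w, HasDerivAt (fun w : ℝ => K * (w - u) ^ 2 / 2) (K * (w - u)) w := by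
      intro w
      have h7 := ((((hasDerivAt_id w).sub_const u).pow 2).const_mul K).div_const 2
      refine h7.congr_deriv ?_
      simp only [id]
      push_cast
      ring
    rw [h5, intervalIntegral.integral_eq_sub_of_hasDerivAt (fun x _ => h6 x)
      ((by fun_prop : Continuous fun w : ℝ => K * (w - u)).intervalIntegrable _ _), h3, h4]
    ring
  · have h5 : ∫ w in c..d, K * |w - u| = ∫ w in c..d, -(K * (w - u)) := by
      apply intervalIntegral.integral_congr
      intro w hw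
      rw [uIcc_of_le hcd, h4] at hw
      simp only
      rw [abs_of_nonpos (by linarith [hw.2])]
      ring
    have h6 : ∀ w, HasDerivAt (fun w : ℝ => -(K * (w - u) ^ 2 / 2)) (-(K * (w - u))) w := by
      intro w
      have h7 := (((((hasDerivAt_id w).sub_const u).pow 2).const_mul K).div_const 2).neg
      refine h7.congr_deriv ?_
      simp only [id]
      push_cast
      ring
    rw [h5, intervalIntegral.integral_eq_sub_of_hasDerivAt (fun x _ => h6 x)
      ((by fun_prop : Continuous fun w : ℝ => -(K * (w - u))).intervalIntegrable _ _), h3, h4]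
    ring

theorem phi_ap {K : ℝ} {σ : ℝ ≃o ℝ} {a : ℝ → ℝ} (hs : Sm K σ a) (hK : 1 ≤ K) {u h : ℝ}
    (hh : 0 < h) (hKh : K * h ≤ 1 / 50) :
    |deriv (σ : ℝ → ℝ) u / (σ (u + h) - σ u) - 1 / h + Ap a u h / 2| ≤ K ^ 2 * h := by
  have hcd : u ≤ u + h := by linarith
  have h1 := phi_err hs.cont hs.bd hK hcd hh hKh (Or.inl ⟨rfl, rfl⟩)
  have h2 := phi_small hs.cont hs.bd hK hcd (Or.inl ⟨rfl, rfl⟩)
  have h3 := phi_parts hs.cont u (u + h) u (u + h)
  rw [sub_self, zero_mul, intervalIntegral.integral_same, mul_zero, sub_zero, zero_add] at h3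
  have h4 := phi_int hs u u (u + h)
  set A := ∫ w in u..(u + h), ∫ z in u..w, a z with hA
  set J := ∫ w in u..(u + h), Real.exp (∫ z in u..w, a z) with hJ
  obtain ⟨h5, h6⟩ := phi_alg hK hh hKh h2 (r := J - h - A) h1
  have e1 : h + A + (J - h - A) = J := by ring
  rw [e1] at h5 h6
  have e2 : deriv (σ : ℝ → ℝ) u / (σ (u + h) - σ u) = 1 / J := by
    rw [h4]
    have := (hs.rg.2 u).ne'
    field_simp
  have e3 : Ap a u h / 2 = A / h ^ 2 := by
    unfold Ap
    rw [h3]
    field_simp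
  rw [e2, e3]
  exact h6

theorem phi_am {K : ℝ} {σ : ℝ ≃o ℝ} {a : ℝ → ℝ} (hs : Sm K σ a) (hK : 1 ≤ K) {u h : ℝ}
    (hh : 0 < h) (hKh : K * h ≤ 1 / 50) :
    |deriv (σ : ℝ → ℝ) u / (σ u - σ (u - h)) - 1 / h - Am a u h / 2| ≤ K ^ 2 * h := by
  have hcd : u - h ≤ u := by linarith
  have h1 := phi_err hs.cont hs.bd hK hcd hh hKh (Or.inr ⟨rfl, rfl⟩)
  have h2 := phi_small hs.cont hs.bd hK hcd (Or.inr ⟨rfl, rfl⟩)
  have h3 := phi_parts hs.cont u (u - h) (u - h) u
  rw [sub_self, zero_mul, intervalIntegral.integral_same, mul_zero, sub_zero, zero_add] at h3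
  have h4 := phi_int hs u (u - h) u
  set A := ∫ w in (u - h)..u, ∫ z in u..w, a z with hA
  set J := ∫ w in (u - h)..u, Real.exp (∫ z in u..w, a z) with hJ
  obtain ⟨h5, h6⟩ := phi_alg hK hh hKh h2 (r := J - h - A) h1
  have e1 : h + A + (J - h - A) = J := by ring
  rw [e1] at h5 h6
  have e2 : deriv (σ : ℝ → ℝ) u / (σ u - σ (u - h)) = 1 / J := by
    rw [h4]
    have := (hs.rg.2 u).ne'
    field_simp
  have e4 : ∫ z in (u - h)..u, (z - (u - h)) * a z = -A := by
    rw [← h3, ← intervalIntegral.integral_neg]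
    apply intervalIntegral.integral_congr
    intro z _
    simp only
    ring
  have e3 : -(Am a u h / 2) = A / h ^ 2 := by
    unfold Am
    rw [e4]
    field_simp
  rw [sub_eq_add_neg _ (Am a u h / 2), e2, e3]
  exact h6

theorem hasDerivAt_log {K : ℝ} {σ : ℝ ≃o ℝ} {a : ℝ → ℝ} (hs : Sm K σ a) {u Q : ℝ} (h : u < Q) :
    HasDerivAt (fun u => Real.log ((σ Q - σ u) / (Q - u)))
      (-(deriv (σ : ℝ → ℝ) u / (σ Q - σ u) - 1 / (Q - u))) u := by
  have h1 : 0 < Q - u := by linarith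
  have h2 : 0 < σ Q - σ u := sub_pos.2 (σ.strictMono h)
  have h3 : HasDerivAt (fun u => σ Q - σ u) (-deriv (σ : ℝ → ℝ) u) u :=
    (hs.rg.1 u).hasDerivAt.const_sub _
  have h4 : HasDerivAt (fun u : ℝ => Q - u) (-1) u := (hasDerivAt_id u).const_sub Q
  have h5 : HasDerivAt (fun y => Real.log ((σ Q - σ y) / (Q - y)))
      ((-deriv (σ : ℝ → ℝ) u * (Q - u) - (σ Q - σ u) * -1) / (Q - u) ^ 2 /
        ((σ Q - σ u) / (Q - u))) u := (h3.div h4 h1.ne').log (div_pos h2 h1).ne'
  refine h5.congr_deriv ?_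
  field_simp
  ring

/-- the weighted mean does not depend much on the left end -/
theorem ap_near {a : ℝ → ℝ} (ha : Continuous a) {P R ρ m W u : ℝ} (hρ : 0 < ρ)
    (hR : 1000 * ρ ≤ R) (ho : Osc a P ρ m W) (hu : u ∈ Icc (P - ρ) (P + ρ)) :
    |Ap a u (P + R - u) - m| ≤ 2 * |Ap a P R - m| + 3 * W / R := by
  have hR0 : 0 < R := by linarith
  have hR' : 999 / 1000 * R ≤ P + R - u := by linarith [hu.2]
  have hR'2 : P + R - u ≤ 1001 / 1000 * R := by linarith [hu.1]
  have hR'0 : 0 < P + R - u := by linarith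
  have hW := ho.1
  have ham : Continuous (fun z => a z - m) := ha.sub continuous_const
  have key : ∀ (v S : ℝ), 0 < S →
      Ap a v S - m = 2 / S ^ 2 * ∫ z in v..(v + S), (v + S - z) * (a z - m) := by
    intro v S hS
    have k1 : ∫ z in v..(v + S), (v + S - z) * (a z - m) =
        (∫ z in v..(v + S), (v + S - z) * a z) - m * (S ^ 2 / 2) := by
      have k2 : ∫ z in v..(v + S), (v + S - z) * (a z - m) =
          ∫ z in v..(v + S), ((v + S - z) * a z - m * (v + S - z)) := by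
        apply intervalIntegral.integral_congr
        intro z _
        simp only
        ring
      rw [k2, intervalIntegral.integral_sub (by
        exact ((continuous_const.sub continuous_id).mul ha).intervalIntegrable _ _) (by
        exact (by fun_prop : Continuous fun z : ℝ => m * (v + S - z)).intervalIntegrable _ _)]
      congr 1
      rw [intervalIntegral.integral_const_mul]
      congr 1
      have k3 : ∀ w, HasDerivAt (fun w : ℝ => -((v + S - w) ^ 2 / 2)) (v + S - w) w := by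
        intro w
        have k4 := ((((hasDerivAt_id w).const_sub (v + S)).pow 2).div_const 2).neg
        refine k4.congr_deriv ?_
        simp only [id]
        push_cast
        ring
      rw [intervalIntegral.integral_eq_sub_of_hasDerivAt (fun x _ => k3 x)
        ((by fun_prop : Continuous fun z : ℝ => v + S - z).intervalIntegrable _ _)]
      ring
    rw [k1]
    unfold Ap
    field_simp
  rw [key u (P + R - u) hR'0]
  have e1 : u + (P + R - u) = P + R := by ring
  rw [e1]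
  have e2 := key P R hR0
  -- split the integral
  have hcont : Continuous (fun z => (P + R - z) * (a z - m)) :=
    (continuous_const.sub continuous_id).mul ham
  have e3 : ∫ z in u..(P + R), (P + R - z) * (a z - m) =
      (∫ z in u..P, (P + R - z) * (a z - m)) + ∫ z in P..(P + R), (P + R - z) * (a z - m) :=
    (intervalIntegral.integral_add_adjacent_intervals (hcont.intervalIntegrable _ _)
      (hcont.intervalIntegrable _ _)).symm
  have hPm : P ∈ Icc (P - ρ) (P + ρ) := ⟨by linarith, by linarith⟩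
  have hF : ∀ w ∈ Icc (P - ρ) (P + ρ), |∫ z in P..w, (a z - m)| ≤ W := by
    intro w hw
    have h1 := ho.2 P hPm w hw
    have h2 : hr (|w - P| / ρ) ≤ 1 := by
      apply hr_le_one
      rw [div_le_one hρ, abs_le]
      constructor <;> linarith [hw.1, hw.2]
    have h3 : W * hr (|w - P| / ρ) ≤ W * 1 := by gcongr
    linarith
  have h4 := phi_parts ham P (P + R) u P
  rw [intervalIntegral.integral_same, mul_zero, zero_sub] at h4
  have h5 : |∫ w in u..P, ∫ z in P..w, (a z - m)| ≤ W * ρ := by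
    have h6 := intervalIntegral.norm_integral_le_of_norm_le_const (a := u) (b := P) (C := W)
      (f := fun w => ∫ z in P..w, (a z - m)) (fun x hx => by
        rw [Real.norm_eq_abs]
        apply hF
        rcases le_total u P with h | h
        · rw [uIoc_of_le h] at hx
          exact ⟨by linarith [hx.1, hu.1], by linarith [hx.2]⟩
        · rw [uIoc_of_ge h] at hx
          exact ⟨by linarith [hx.1], by linarith [hx.2, hu.2]⟩)
    rw [Real.norm_eq_abs] at h6
    refine h6.trans ?_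
    have : |P - u| ≤ ρ := by
      rw [abs_le]
      constructor <;> linarith [hu.1, hu.2]
    gcongr
  have h6 := hF u hu
  have h7 : |∫ z in u..P, (P + R - z) * (a z - m)| ≤ (P + R - u) * W + W * ρ := by
    rw [h4]
    refine (abs_add_le _ _).trans ?_
    rw [abs_neg, abs_mul, abs_of_pos hR'0]
    gcongr
  have h8 : |∫ z in P..(P + R), (P + R - z) * (a z - m)| = R ^ 2 / 2 * |Ap a P R - m| := by
    rw [e2, abs_mul, abs_of_pos (show 0 < 2 / R ^ 2 by positivity)]
    field_simp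
  rw [e3, abs_mul, abs_of_pos (show 0 < 2 / (P + R - u) ^ 2 by positivity)]
  have h9 : |(∫ z in u..P, (P + R - z) * (a z - m)) +
      ∫ z in P..(P + R), (P + R - z) * (a z - m)| ≤
      ((P + R - u) * W + W * ρ) + R ^ 2 / 2 * |Ap a P R - m| := by
    refine (abs_add_le _ _).trans ?_
    rw [h8]
    linarith
  generalize |Ap a P R - m| = A at *
  have hA0 : 0 ≤ A := by
    by_contra hneg
    push Not at hneg
    have : R ^ 2 / 2 * A < 0 := mul_neg_of_pos_of_neg (by positivity) hneg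
    rw [← h8] at this
    exact absurd (abs_nonneg _) (not_le.2 this)
  generalize P + R - u = S at *
  calc 2 / S ^ 2 * |(∫ z in u..P, (P + R - z) * (a z - m)) +
        ∫ z in P..(P + R), (P + R - z) * (a z - m)|
      ≤ 2 / S ^ 2 * ((S * W + W * ρ) + R ^ 2 / 2 * A) := by gcongr
    _ = (R / S) ^ 2 * A + 2 * W * (S + ρ) / S ^ 2 := by
        field_simp
        ring
    _ ≤ 2 * A + 3 * W / R := by
        have i1 : (R / S) ^ 2 ≤ 2 := by
          rw [div_pow, div_le_iff₀ (by positivity)]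
          nlinarith
        have i2 : 2 * W * (S + ρ) / S ^ 2 ≤ 3 * W / R := by
          rw [div_le_div_iff₀ (by positivity) hR0]
          have i3 : 2 * (S + ρ) * R ≤ 3 * S ^ 2 := by nlinarith
          nlinarith
        have i4 : (R / S) ^ 2 * A ≤ 2 * A := by gcongr
        linarith

theorem step_right {K : ℝ} {σ : ℝ ≃o ℝ} {a : ℝ → ℝ} (hs : Sm K σ a) (hK : 1 ≤ K)
    {P R ρ m W x y : ℝ} (hρ : 0 < ρ) (hR : 1000 * ρ ≤ R) (hKR : K * R ≤ 1 / 100)
    (ho : Osc a P ρ m W) (hx : x ∈ Icc (P - ρ) (P + ρ)) (hy : y ∈ Icc (P - ρ) (P + ρ)) :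
    |(ld σ x - ld σ y) + 2 * (Real.log ((σ (P + R) - σ y) / (σ (P + R) - σ x)) -
      Real.log ((P + R - y) / (P + R - x)))| ≤
      W * hr (|x - y| / ρ) + |x - y| * (2 * |Ap a P R - m| + 3 * W / R + 5 * K ^ 2 * R) := by
  have hR0 : 0 < R := by linarith
  have hK0 : 0 < K := by linarith
  have ham : Continuous (fun z => a z - m) := hs.cont.sub continuous_const
  have hlt : ∀ z ∈ Icc (P - ρ) (P + ρ), z < P + R := fun z hz => by linarith [hz.2]
  have hpos : ∀ z ∈ Icc (P - ρ) (P + ρ), 0 < σ (P + R) - σ z := fun z hz =>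
    sub_pos.2 (σ.strictMono (hlt z hz))
  -- the auxiliary function
  have hd : ∀ z ∈ Icc (P - ρ) (P + ρ), HasDerivAt
      (fun z => ld σ z - 2 * Real.log ((σ (P + R) - σ z) / (P + R - z)) -
        ∫ w in P..z, (a w - m))
      (2 * (deriv (σ : ℝ → ℝ) z / (σ (P + R) - σ z) - 1 / (P + R - z)) + m) z := by
    intro z hz
    have k := ((hs.der z).sub ((hasDerivAt_log hs (hlt z hz)).const_mul 2)).sub
      (phi_prim_hd ham P z)
    refine k.congr_deriv ?_
    ring
  have hbd : ∀ z ∈ Icc (P - ρ) (P + ρ),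
      ‖2 * (deriv (σ : ℝ → ℝ) z / (σ (P + R) - σ z) - 1 / (P + R - z)) + m‖ ≤
        2 * |Ap a P R - m| + 3 * W / R + 5 * K ^ 2 * R := by
    intro z hz
    have k0 : 0 < P + R - z := by linarith [hlt z hz]
    have k1 : P + R - z ≤ 1001 / 1000 * R := by linarith [hz.1]
    have k2 : K * (P + R - z) ≤ 1 / 50 := by
      have : K * (P + R - z) ≤ K * (1001 / 1000 * R) := by gcongr
      nlinarith
    have k3 := phi_ap hs hK (u := z) k0 k2
    have e1 : z + (P + R - z) = P + R := by ring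
    rw [e1] at k3
    have k4 := ap_near hs.cont hρ hR ho hz
    have k5 : K ^ 2 * (P + R - z) ≤ K ^ 2 * (1001 / 1000 * R) := by gcongr
    have k6 : 0 < K ^ 2 * R := by positivity
    rw [Real.norm_eq_abs]
    generalize deriv (σ : ℝ → ℝ) z / (σ (P + R) - σ z) - 1 / (P + R - z) = X at *
    generalize Ap a z (P + R - z) = Y at *
    rw [abs_le] at k3 k4 ⊢
    constructor
    · linarith [k3.1, k3.2, k4.1, k4.2]
    · linarith [k3.1, k3.2, k4.1, k4.2]
  have h1 := Convex.norm_image_sub_le_of_norm_hasDerivWithin_le (s := Icc (P - ρ) (P + ρ))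
    (x := y) (y := x) (fun z hz => (hd z hz).hasDerivWithinAt) hbd (convex_Icc _ _) hy hx
  rw [Real.norm_eq_abs, Real.norm_eq_abs] at h1
  have h2 := ho.2 y hy x hx
  have h3 : (∫ w in P..x, (a w - m)) - ∫ w in P..y, (a w - m) = ∫ w in y..x, (a w - m) :=
    intervalIntegral.integral_interval_sub_left (ham.intervalIntegrable _ _)
      (ham.intervalIntegrable _ _)
  have px := hpos x hx
  have py := hpos y hy
  have qx : 0 < P + R - x := by linarith [hlt x hx]
  have qy : 0 < P + R - y := by linarith [hlt y hy]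
  have e2 : (ld σ x - ld σ y) + 2 * (Real.log ((σ (P + R) - σ y) / (σ (P + R) - σ x)) -
      Real.log ((P + R - y) / (P + R - x))) =
      ((ld σ x - 2 * Real.log ((σ (P + R) - σ x) / (P + R - x)) - ∫ w in P..x, (a w - m)) -
        (ld σ y - 2 * Real.log ((σ (P + R) - σ y) / (P + R - y)) - ∫ w in P..y, (a w - m))) +
      ∫ w in y..x, (a w - m) := by
    rw [← h3, Real.log_div py.ne' px.ne', Real.log_div qy.ne' qx.ne', Real.log_div px.ne' qx.ne',
      Real.log_div py.ne' qy.ne']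
    ring
  rw [e2]
  refine (abs_add_le _ _).trans ?_
  rw [mul_comm |x - y|]
  linarith

theorem step_lam {K : ℝ} {σ : ℝ ≃o ℝ} {a : ℝ → ℝ} (hs : Sm K σ a) (hK : 1 ≤ K)
    {P L R m : ℝ} (hL : 0 < L) (hR : 0 < R) (hKL : K * L ≤ 1 / 100) (hKR : K * R ≤ 1 / 100) :
    |(deriv (σ : ℝ → ℝ) P / (σ (P + R) - σ P) - 1 / R) +
      (deriv (σ : ℝ → ℝ) P / (σ P - σ (P - L)) - 1 / L)| ≤
      |Ap a P R - m| + |Am a P L - m| + K ^ 2 * (L + R) := by
  have h1 := phi_ap hs hK (u := P) hR (by linarith)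
  have h2 := phi_am hs hK (u := P) hL (by linarith)
  generalize deriv (σ : ℝ → ℝ) P / (σ (P + R) - σ P) - 1 / R = X at *
  generalize deriv (σ : ℝ → ℝ) P / (σ P - σ (P - L)) - 1 / L = Y at *
  have h3 := le_abs_self (Ap a P R - m)
  have h4 := neg_abs_le (Ap a P R - m)
  have h5 := le_abs_self (Am a P L - m)
  have h6 := neg_abs_le (Am a P L - m)
  have h7 := abs_nonneg (Ap a P R - m)
  have h8 := abs_nonneg (Am a P L - m)
  generalize |Ap a P R - m| = A at *
  generalize |Am a P L - m| = B at *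
  rw [abs_le] at h1 h2 ⊢
  constructor
  · linarith [h1.1, h1.2, h2.1, h2.2]
  · linarith [h1.1, h1.2, h2.1, h2.2]

end Pool.Agent.H66.GSC
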