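import Mathlib
import Pool.Agent.H66.GSC.Phi
import Pool.Agent.H24.GN.Calc

/-!
# GSC-3: the Main Lemma

PROOF.  Let `D i = deriv (v i) p`, `R i = v i x2 - v i p`, `L i = v i p - v i x1`,
`ρ i = 5 (t D i)`, `e i = Er ...`; `D (i+1) = deriv (σ i) (v i p) * D i`.
(g1) `Λ i = t D i (1 / R i + 1 / L i)`: `Λ (i+1) - Λ i = t D i * (the sum in step_lam)`, absolute
value `≤ K² t D i e i`.  `Λ 0 ≤ 2 / 100000` (as `v 0` is a translation: `R 0 = x2 - p`,
`L 0 = p - x1`).  So `Λ j ≤ 2/100000 + 1/100000 ≤ 1/10000`, and both terms are positive.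
(g2) `x, y` in the box of radius `4 t`, `x i = v i x`, `y i = v i y`, `Q i = v i x2`.  By the
hypothesis `Gd (v i)`, `i < j`: `deriv (v i) z ≤ 1.02 D i` on the box, `|x i - y i| ≤ 1.02 D i |x - y|`,
`|x i - P i| ≤ 4.1 t D i ≤ ρ i`.  `step_right` (with `P = v i p`, `R = R i`; `K R i ≤ 1/1000`,
`R i ≥ 2000 ρ i`) summed over `i < j` telescopes:
`ld (v j) x - ld (v j) y + 2 (log ((Q j - y j)/(Q j - x j)) - log ((Q 0 - y 0)/(Q 0 - x 0)))`.
With `q = hr (|x - y|/t)`: `hr (|x i - y i|/ρ i) ≤ q`, `|x i - y i| ≤ 1.02 * 5 * t D i * q`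
(`le_hr_8`), so the `i`-th term is `≤ 26 K² t D i e i q`, and the sum is `≤ 26/100000 q ≤ q/1000`.
The logarithm at time `j`: `deriv (v j) z ≤ 1.04 D j` on the box (`Gd (v (j-1))` and
`K |U_{j-1}| ≤ 1/1000` for the last generator), so `|x j - y j| ≤ 1.04 D j |x - y|` and
`Q j - x j ≥ R j - 4.2 t D j ≥ 9000 t D j` by (g1); hence `|log| ≤ q/1000`; same at time 0.
-/

set_option autoImplicit false
open Set Filter Topology MeasureTheory

namespace Pool.Agent.H66.GSC

open Pool.Agent.H24.GN (ld Rg DB)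

theorem main_log {A B M : ℝ} (hM : 0 < M) (hA : M ≤ A) (hB : M ≤ B) :
    |Real.log (A / B)| ≤ |A - B| / M := by
  have hA0 : 0 < A := by linarith
  have hB0 : 0 < B := by linarith
  have key : ∀ X Y : ℝ, 0 < X → 0 < Y → M ≤ Y → Real.log (X / Y) ≤ |X - Y| / M := by
    intro X Y hX hY hMY
    have h1 := Real.log_le_sub_one_of_pos (div_pos hX hY)
    have h2 : X / Y - 1 = (X - Y) / Y := by field_simp
    have h3 : (X - Y) / Y ≤ |X - Y| / M :=
      calc (X - Y) / Y ≤ |X - Y| / Y := by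
            gcongr
            exact le_abs_self _
        _ ≤ |X - Y| / M := by gcongr
    linarith
  rw [abs_le]
  constructor
  · have h := key B A hB0 hA0 hA
    rw [abs_sub_comm] at h
    have h4 : Real.log (A / B) = - Real.log (B / A) := by
      rw [← Real.log_inv, inv_div]
    rw [h4]
    linarith
  · exact key A B hA0 hB0 hB

theorem main_tel {F b : ℕ → ℝ} {j : ℕ} (h : ∀ i < j, |F (i + 1) - F i| ≤ b i) :
    |F j - F 0| ≤ ∑ i ∈ Finset.range j, b i := by
  induction j with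
  | zero => simp
  | succ n ih =>
    rw [Finset.sum_range_succ]
    have h1 := ih (fun i hi => h i (Nat.lt_succ_of_lt hi))
    have h2 := h n (Nat.lt_succ_self n)
    have h3 : F (n + 1) - F 0 = (F (n + 1) - F n) + (F n - F 0) := by ring
    rw [h3]
    have h4 := abs_add_le (F (n + 1) - F n) (F n - F 0)
    linarith

theorem main_exp : Real.exp (18 / 1000) ≤ 102 / 100 := by
  have h := Real.add_one_le_exp (-(18 / 1000 : ℝ))
  have h1 : Real.exp (-(18 / 1000 : ℝ)) * Real.exp (18 / 1000) = 1 := by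
    rw [← Real.exp_add]
    simp
  have h2 := Real.exp_pos (18 / 1000 : ℝ)
  nlinarith

/-- the distance of the images of two points under a controlled map -/
theorem main_dist {w : ℝ ≃o ℝ} (hw : Rg w) {α β p x y : ℝ} (h : DB w α β (18 / 1000))
    (hp : p ∈ Icc α β) (hx : x ∈ Icc α β) (hy : y ∈ Icc α β) :
    |w x - w y| ≤ 102 / 100 * deriv (w : ℝ → ℝ) p * |x - y| := by
  have hD := hw.2 p
  have key : ∀ y z : ℝ, y ∈ Icc α β → z ∈ Icc α β → y ≤ z →
      |w z - w y| ≤ 102 / 100 * deriv (w : ℝ → ℝ) p * |z - y| := by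
    intro y z hy hz hyz
    have h1 := Pool.Agent.H24.GN.DB.le hw h hp hy hz hyz
    have h2 : w y ≤ w z := w.monotone hyz
    rw [abs_of_nonneg (by linarith), abs_of_nonneg (by linarith)]
    refine h1.trans ?_
    have := main_exp
    gcongr
  rcases le_total x y with hxy | hxy
  · rw [abs_sub_comm, abs_sub_comm x]
    exact key x y hx hy hxy
  · exact key y x hy hx hxy

theorem main_sm_lip {K : ℝ} {σ : ℝ ≃o ℝ} {a : ℝ → ℝ} (hs : Sm K σ a) (x y : ℝ) :
    |ld σ x - ld σ y| ≤ K * |x - y| := by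
  have h := Convex.norm_image_sub_le_of_norm_hasDerivWithin_le (f := ld σ) (f' := a) (s := univ)
    (C := K) (x := y) (y := x) (fun z _ => (hs.der z).hasDerivWithinAt)
    (fun z _ => by rw [Real.norm_eq_abs]; exact hs.bd z) convex_univ (mem_univ _) (mem_univ _)
  simpa [Real.norm_eq_abs] using h

theorem main_hr8 {s : ℝ} (h : s ≤ 8) : hr s ≤ 17 / 10 :=
  hr_le (by norm_num) (h.trans (by norm_num))

/-- the box at time `j` under the weak a priori control -/
theorem main_db {K : ℝ} (hK : 1 ≤ K) {N : ℕ} {v σ : ℕ → ℝ ≃o ℝ} {a : ℕ → ℝ → ℝ}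
    {x1 p x2 : ℝ} (hP : Path K N v σ a x1 p x2) {t : ℝ} (ht : 0 < t)
    (h1 : 100000 * t ≤ p - x1) (h2 : 100000 * t ≤ x2 - p) {j : ℕ} (hj : j ≤ N)
    (hg : ∀ i < j, Gd (v i) x1 p x2 t) :
    DB (v j) (p - 4 * t) (p + 4 * t) (18 / 1000) := by
  cases j with
  | zero =>
    intro x _ y _
    have hx : ld (v 0) x = 0 := by
      unfold Pool.Agent.H24.GN.ld
      rw [hP.v0, Real.log_one]
    have hy : ld (v 0) y = 0 := by
      unfold Pool.Agent.H24.GN.ld
      rw [hP.v0, Real.log_one]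
    rw [hx, hy]
    norm_num
  | succ i =>
    have hi : i < N := hj
    have hgi := hg i (Nat.lt_succ_self i)
    rw [hP.st i hi]
    have hd1 : DB (v i) (p - 4 * t) (p + 4 * t) (17 / 1000) := by
      intro x hx y hy
      have h3 := hgi.h x hx y hy
      have h4 : |x - y| / t ≤ 8 := by
        rw [div_le_iff₀ ht, abs_le]
        constructor <;> linarith [hx.1, hx.2, hy.1, hy.2]
      have h5 := main_hr8 h4
      linarith
    have hd2 : DB (σ i) (v i (p - 4 * t)) (v i (p + 4 * t)) (1 / 1000) := by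
      intro x hx y hy
      have h3 := main_sm_lip (hP.sm i hi) x y
      have h4 := hP.small i hi
      have h5 : v i x1 ≤ v i (p - 4 * t) := (v i).monotone (by linarith)
      have h6 : v i (p + 4 * t) ≤ v i x2 := (v i).monotone (by linarith)
      have h7 : |x - y| ≤ 1 / (1000 * K) := by
        rw [abs_le]
        constructor <;> linarith [hx.1, hx.2, hy.1, hy.2]
      have h8 : K * |x - y| ≤ K * (1 / (1000 * K)) := by gcongr
      have h9 : K * (1 / (1000 * K)) = 1 / 1000 := by field_simp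
      linarith
    have hd3 := Pool.Agent.H24.GN.DB.mul (hP.sm i hi).rg (hP.rg i hi.le) hd1 hd2
    exact hd3.mono (by norm_num)

theorem main_KR {K : ℝ} (hK : 1 ≤ K) {u : ℝ} (h : u ≤ 1 / (1000 * K)) : K * u ≤ 1 / 1000 := by
  have h1 : K * u ≤ K * (1 / (1000 * K)) := by gcongr
  have h2 : K * (1 / (1000 * K)) = 1 / 1000 := by field_simp
  linarith

/-- the exact recursion of `Λ` -/
theorem main_lam {K : ℝ} (hK : 1 ≤ K) {N : ℕ} {v σ : ℕ → ℝ ≃o ℝ} {a : ℕ → ℝ → ℝ}
    {x1 p x2 : ℝ} (hP : Path K N v σ a x1 p x2) {t : ℝ} (ht : 0 < t) {i : ℕ} (hi : i < N)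
    {m W : ℝ} (hW : 0 ≤ W) :
    |t * deriv (v (i + 1) : ℝ → ℝ) p *
        (1 / (v (i + 1) x2 - v (i + 1) p) + 1 / (v (i + 1) p - v (i + 1) x1))
      - t * deriv (v i : ℝ → ℝ) p * (1 / (v i x2 - v i p) + 1 / (v i p - v i x1))| ≤
      K ^ 2 * (t * deriv (v i : ℝ → ℝ) p *
        Er (a i) (v i p) (v i p - v i x1) (v i x2 - v i p) (5 * (t * deriv (v i : ℝ → ℝ) p))
          m W) := by
  have hR : 0 < v i x2 - v i p := sub_pos.2 ((v i).strictMono hP.lt2)
  have hL : 0 < v i p - v i x1 := sub_pos.2 ((v i).strictMono hP.lt1)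
  have hD := (hP.rg i hi.le).2 p
  have hsm := hP.small i hi
  have hKR := main_KR hK (u := v i x2 - v i p) (by linarith)
  have hKL := main_KR hK (u := v i p - v i x1) (by linarith)
  have h := step_lam (hP.sm i hi) hK (P := v i p) (m := m) hL hR (by linarith) (by linarith)
  have e1 : v i p + (v i x2 - v i p) = v i x2 := by ring
  have e2 : v i p - (v i p - v i x1) = v i x1 := by ring
  rw [e1, e2] at h
  have hv : ∀ z, v (i + 1) z = σ i (v i z) := by
    intro z
    rw [hP.st i hi]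
    rfl
  have hder : deriv (v (i + 1) : ℝ → ℝ) p =
      deriv (σ i : ℝ → ℝ) (v i p) * deriv (v i : ℝ → ℝ) p := by
    rw [hP.st i hi]
    exact (Pool.Agent.H24.GN.calc_mul_hd (hP.sm i hi).rg (hP.rg i hi.le) p).deriv
  rw [hder, hv, hv, hv]
  generalize deriv (v i : ℝ → ℝ) p = D at *
  have e3 : t * (deriv (σ i : ℝ → ℝ) (v i p) * D) *
        (1 / (σ i (v i x2) - σ i (v i p)) + 1 / (σ i (v i p) - σ i (v i x1)))
      - t * D * (1 / (v i x2 - v i p) + 1 / (v i p - v i x1)) =
      t * D * ((deriv (σ i : ℝ → ℝ) (v i p) / (σ i (v i x2) - σ i (v i p))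
          - 1 / (v i x2 - v i p)) +
        (deriv (σ i : ℝ → ℝ) (v i p) / (σ i (v i p) - σ i (v i x1))
          - 1 / (v i p - v i x1))) := by
    ring
  rw [e3, abs_mul, abs_of_pos (mul_pos ht hD)]
  have hK2 : 1 ≤ K ^ 2 := one_le_pow₀ hK
  have hWr : 0 ≤ W / (5 * (t * D)) := by positivity
  unfold Er
  generalize W / (5 * (t * D)) = Wr at *
  have hA := abs_nonneg (Ap (a i) (v i p) (v i x2 - v i p) - m)
  have hB := abs_nonneg (Am (a i) (v i p) (v i p - v i x1) - m)
  generalize |Ap (a i) (v i p) (v i x2 - v i p) - m| = A at *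
  generalize |Am (a i) (v i p) (v i p - v i x1) - m| = B at *
  have h4 : A + B + K ^ 2 * (v i p - v i x1 + (v i x2 - v i p)) ≤
      K ^ 2 * (Wr + A + B + (v i p - v i x1 + (v i x2 - v i p))) := by
    nlinarith
  calc t * D * _ ≤ t * D * (A + B + K ^ 2 * (v i p - v i x1 + (v i x2 - v i p))) := by
        have := mul_pos ht hD
        gcongr
    _ ≤ t * D * (K ^ 2 * (Wr + A + B + (v i p - v i x1 + (v i x2 - v i p)))) := by
        have := mul_pos ht hD
        gcongr
    _ = _ := by ring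

/-- the exact recursion of the corrected logarithm of the derivative -/
theorem main_step {K : ℝ} (hK : 1 ≤ K) {N : ℕ} {v σ : ℕ → ℝ ≃o ℝ} {a : ℕ → ℝ → ℝ}
    {x1 p x2 : ℝ} (hP : Path K N v σ a x1 p x2) {t : ℝ} (ht : 0 < t) {i : ℕ} (hi : i < N)
    (hgi : Gd (v i) x1 p x2 t) {m W : ℝ}
    (ho : Osc (a i) (v i p) (5 * (t * deriv (v i : ℝ → ℝ) p)) m W)
    (hdb : DB (v i) (p - 4 * t) (p + 4 * t) (18 / 1000)) {x y : ℝ}
    (hx : x ∈ Icc (p - 4 * t) (p + 4 * t)) (hy : y ∈ Icc (p - 4 * t) (p + 4 * t)) :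
    |(ld (v (i + 1)) x - ld (v (i + 1)) y +
        2 * Real.log ((v (i + 1) x2 - v (i + 1) y) / (v (i + 1) x2 - v (i + 1) x)))
      - (ld (v i) x - ld (v i) y + 2 * Real.log ((v i x2 - v i y) / (v i x2 - v i x)))| ≤
      26 * K ^ 2 * hr (|x - y| / t) * (t * deriv (v i : ℝ → ℝ) p *
        Er (a i) (v i p) (v i p - v i x1) (v i x2 - v i p) (5 * (t * deriv (v i : ℝ → ℝ) p))
          m W) := by
  have hR : 0 < v i x2 - v i p := sub_pos.2 ((v i).strictMono hP.lt2)
  have hL : 0 < v i p - v i x1 := sub_pos.2 ((v i).strictMono hP.lt1)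
  have hD := (hP.rg i hi.le).2 p
  have hsm := hP.small i hi
  have hKR := main_KR hK (u := v i x2 - v i p) (by linarith)
  have hpb : p ∈ Icc (p - 4 * t) (p + 4 * t) := ⟨by linarith, by linarith⟩
  have hdx := main_dist (hP.rg i hi.le) hdb hpb hx hpb
  have hdy := main_dist (hP.rg i hi.le) hdb hpb hy hpb
  have hxy := main_dist (hP.rg i hi.le) hdb hpb hx hy
  have hGr := hgi.r
  have hv : ∀ z, v (i + 1) z = σ i (v i z) := by
    intro z
    rw [hP.st i hi]
    rfl
  have hld : ∀ z, ld (v (i + 1)) z = ld (σ i) (v i z) + ld (v i) z := by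
    intro z
    rw [hP.st i hi]
    exact Pool.Agent.H24.GN.ld_mul (hP.sm i hi).rg (hP.rg i hi.le) z
  rw [hld, hld, hv, hv, hv]
  generalize deriv (v i : ℝ → ℝ) p = D at *
  have htD : 0 < t * D := mul_pos ht hD
  have hx4 : |x - p| ≤ 4 * t := by
    rw [abs_le]
    constructor <;> linarith [hx.1, hx.2]
  have hy4 : |y - p| ≤ 4 * t := by
    rw [abs_le]
    constructor <;> linarith [hy.1, hy.2]
  have hbx : |v i x - v i p| ≤ 5 * (t * D) := by
    have : 102 / 100 * D * |x - p| ≤ 102 / 100 * D * (4 * t) := by gcongr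
    nlinarith
  have hby : |v i y - v i p| ≤ 5 * (t * D) := by
    have : 102 / 100 * D * |y - p| ≤ 102 / 100 * D * (4 * t) := by gcongr
    nlinarith
  rw [abs_le] at hbx hby
  have h := step_right (hP.sm i hi) hK (P := v i p) (R := v i x2 - v i p)
    (ρ := 5 * (t * D)) (m := m) (W := W) (x := v i x) (y := v i y) (by positivity)
    (by linarith) (by linarith) ho ⟨by linarith, by linarith⟩ ⟨by linarith, by linarith⟩
  have e1 : v i p + (v i x2 - v i p) = v i x2 := by ring
  rw [e1] at h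
  have e2 : (ld (σ i) (v i x) + ld (v i) x - (ld (σ i) (v i y) + ld (v i) y) +
        2 * Real.log ((σ i (v i x2) - σ i (v i y)) / (σ i (v i x2) - σ i (v i x))))
      - (ld (v i) x - ld (v i) y + 2 * Real.log ((v i x2 - v i y) / (v i x2 - v i x))) =
      (ld (σ i) (v i x) - ld (σ i) (v i y)) +
        2 * (Real.log ((σ i (v i x2) - σ i (v i y)) / (σ i (v i x2) - σ i (v i x))) -
          Real.log ((v i x2 - v i y) / (v i x2 - v i x))) := by
    ring
  rw [e2]
  refine h.trans ?_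
  have hq0 := hr_nonneg (|x - y| / t)
  have hs8 : |x - y| / t ≤ 8 := by
    rw [div_le_iff₀ ht, abs_le]
    constructor <;> linarith [hx.1, hx.2, hy.1, hy.2]
  have hs0 : 0 ≤ |x - y| / t := by positivity
  have hq5 := le_hr_8 hs0 hs8
  have hW0 := ho.1
  -- the first term
  have hq1 : hr (|v i x - v i y| / (5 * (t * D))) ≤ hr (|x - y| / t) := by
    apply hr_mono
    rw [div_le_iff₀ (by positivity)]
    have : |x - y| / t * (5 * (t * D)) = 5 * D * |x - y| := by
      field_simp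
    rw [this]
    refine hxy.trans ?_
    have := abs_nonneg (x - y)
    gcongr
    norm_num
  have hxy2 : |v i x - v i y| ≤ 51 / 10 * (t * D) * hr (|x - y| / t) := by
    refine hxy.trans ?_
    have e3 : 102 / 100 * D * |x - y| = 102 / 100 * (t * D) * (|x - y| / t) := by
      field_simp
    rw [e3]
    have : 102 / 100 * (t * D) * (|x - y| / t) ≤
        102 / 100 * (t * D) * (5 * hr (|x - y| / t)) := by gcongr
    refine this.trans (le_of_eq ?_)
    ring
  generalize hr (|x - y| / t) = q at *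
  have hK2 : 1 ≤ K ^ 2 := one_le_pow₀ hK
  unfold Er
  have hA := abs_nonneg (Ap (a i) (v i p) (v i x2 - v i p) - m)
  have hB := abs_nonneg (Am (a i) (v i p) (v i p - v i x1) - m)
  generalize |Ap (a i) (v i p) (v i x2 - v i p) - m| = A at *
  generalize |Am (a i) (v i p) (v i p - v i x1) - m| = B at *
  have hWR : W / (v i x2 - v i p) ≤ W / (5 * (t * D)) := by
    apply div_le_div_of_nonneg_left hW0 (by positivity)
    linarith
  have hW5 : W = (W / (5 * (t * D))) * (5 * (t * D)) := by field_simp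
  have hwr : 0 ≤ W / (5 * (t * D)) := by positivity
  have t1 : W * hr (|v i x - v i y| / (5 * (t * D))) ≤
      (W / (5 * (t * D))) * (5 * (t * D)) * q := by
    rw [← hW5]
    gcongr
  have t2 : |v i x - v i y| * (2 * A + 3 * W / (v i x2 - v i p) +
      5 * K ^ 2 * (v i x2 - v i p)) ≤
      51 / 10 * (t * D) * q * (2 * A + 3 * (W / (5 * (t * D))) +
      5 * K ^ 2 * (v i x2 - v i p)) := by
    have e4 : 3 * W / (v i x2 - v i p) = 3 * (W / (v i x2 - v i p)) := by ring
    rw [e4]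
    gcongr
  refine (add_le_add t1 t2).trans ?_
  generalize W / (5 * (t * D)) = Wr at *
  have htq : 0 ≤ t * D * q := by positivity
  have k1 : 5 * Wr + 51 / 10 * (2 * A + 3 * Wr + 5 * K ^ 2 * (v i x2 - v i p)) ≤
      26 * K ^ 2 * (Wr + A + B + (v i p - v i x1 + (v i x2 - v i p))) := by
    have a1 : Wr ≤ K ^ 2 * Wr := by nlinarith
    have a2 : A ≤ K ^ 2 * A := by nlinarith
    have a3 : 0 ≤ K ^ 2 * B := by positivity
    have a4 : 0 ≤ K ^ 2 * (v i p - v i x1) := by positivity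
    have a5 : 0 ≤ K ^ 2 * (v i x2 - v i p) := by positivity
    nlinarith
  calc Wr * (5 * (t * D)) * q + 51 / 10 * (t * D) * q *
        (2 * A + 3 * Wr + 5 * K ^ 2 * (v i x2 - v i p))
      = t * D * q * (5 * Wr + 51 / 10 * (2 * A + 3 * Wr + 5 * K ^ 2 * (v i x2 - v i p))) := by
        ring
    _ ≤ t * D * q * (26 * K ^ 2 * (Wr + A + B + (v i p - v i x1 + (v i x2 - v i p)))) := by
        gcongr
    _ = _ := by ring

theorem main_lemma {K : ℝ} (hK : 1 ≤ K) {N : ℕ} {v σ : ℕ → ℝ ≃o ℝ} {a : ℕ → ℝ → ℝ}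
    {x1 p x2 : ℝ} (hP : Path K N v σ a x1 p x2) {t : ℝ} (ht : 0 < t)
    (h1 : 100000 * t ≤ p - x1) (h2 : 100000 * t ≤ x2 - p) {j : ℕ} (hj : j ≤ N)
    (hg : ∀ i < j, Gd (v i) x1 p x2 t) (m W : ℕ → ℝ)
    (ho : ∀ i < j, Osc (a i) (v i p) (5 * (t * deriv (v i : ℝ → ℝ) p)) (m i) (W i))
    (hs : ∑ i ∈ Finset.range j, t * deriv (v i : ℝ → ℝ) p *
      Er (a i) (v i p) (v i p - v i x1) (v i x2 - v i p) (5 * (t * deriv (v i : ℝ → ℝ) p))
        (m i) (W i) ≤ 1 / (100000 * K ^ 2)) :
    Gd (v j) x1 p x2 t := by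
  have hK0 : 0 < K := by linarith
  have hrg := hP.rg j hj
  have hD := hrg.2 p
  have htD : 0 < t * deriv (v j : ℝ → ℝ) p := mul_pos ht hD
  have hR : 0 < v j x2 - v j p := sub_pos.2 ((v j).strictMono hP.lt2)
  have hL : 0 < v j p - v j x1 := sub_pos.2 ((v j).strictMono hP.lt1)
  have hv0 : ∀ x y : ℝ, v 0 x - v 0 y = x - y := by
    have key : ∀ x y : ℝ, x < y → v 0 y - v 0 x = y - x := by
      intro x y hxy
      obtain ⟨c, _, _, hc⟩ := Pool.Agent.H24.GN.calc_mvt (hP.rg 0 (Nat.zero_le _)) hxy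
      rw [hc, hP.v0, one_mul]
    intro x y
    rcases lt_trichotomy x y with h | h | h
    · have := key x y h
      linarith
    · rw [h]
      ring
    · exact key y x h
  -- (g1)
  have hlam : |t * deriv (v j : ℝ → ℝ) p * (1 / (v j x2 - v j p) + 1 / (v j p - v j x1))
      - t * deriv (v 0 : ℝ → ℝ) p * (1 / (v 0 x2 - v 0 p) + 1 / (v 0 p - v 0 x1))| ≤
      1 / 100000 := by
    have h3 := main_tel (F := fun i => t * deriv (v i : ℝ → ℝ) p *
      (1 / (v i x2 - v i p) + 1 / (v i p - v i x1)))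
      (b := fun i => K ^ 2 * (t * deriv (v i : ℝ → ℝ) p *
        Er (a i) (v i p) (v i p - v i x1) (v i x2 - v i p) (5 * (t * deriv (v i : ℝ → ℝ) p))
          (m i) (W i))) (j := j)
      (fun i hi => main_lam hK hP ht (lt_of_lt_of_le hi hj) (ho i hi).1)
    rw [← Finset.mul_sum] at h3
    refine h3.trans ?_
    have h4 : K ^ 2 * (1 / (100000 * K ^ 2)) = 1 / 100000 := by field_simp
    rw [← h4]
    gcongr
  have hlam0 : t * deriv (v 0 : ℝ → ℝ) p * (1 / (v 0 x2 - v 0 p) + 1 / (v 0 p - v 0 x1)) ≤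
      2 / 100000 := by
    rw [hP.v0, hv0, hv0, mul_one]
    have a1 : t * (1 / (x2 - p)) ≤ 1 / 100000 := by
      rw [mul_one_div, div_le_div_iff₀ (by linarith) (by norm_num)]
      linarith
    have a2 : t * (1 / (p - x1)) ≤ 1 / 100000 := by
      rw [mul_one_div, div_le_div_iff₀ (by linarith) (by norm_num)]
      linarith
    linarith
  have hlamj : t * deriv (v j : ℝ → ℝ) p * (1 / (v j x2 - v j p) + 1 / (v j p - v j x1)) ≤
      1 / 10000 := by
    have := (abs_le.1 hlam).2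
    linarith
  have hg1 : 10000 * (t * deriv (v j : ℝ → ℝ) p) ≤ v j x2 - v j p := by
    have a1 : t * deriv (v j : ℝ → ℝ) p / (v j x2 - v j p) ≤ 1 / 10000 := by
      have a2 : 0 ≤ t * deriv (v j : ℝ → ℝ) p * (1 / (v j p - v j x1)) := by positivity
      have a3 : t * deriv (v j : ℝ → ℝ) p / (v j x2 - v j p) =
        t * deriv (v j : ℝ → ℝ) p * (1 / (v j x2 - v j p)) := by ring
      linarith
    rw [div_le_div_iff₀ hR (by norm_num)] at a1
    linarith
  have hg2 : 10000 * (t * deriv (v j : ℝ → ℝ) p) ≤ v j p - v j x1 := by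
    have a1 : t * deriv (v j : ℝ → ℝ) p / (v j p - v j x1) ≤ 1 / 10000 := by
      have a2 : 0 ≤ t * deriv (v j : ℝ → ℝ) p * (1 / (v j x2 - v j p)) := by positivity
      have a3 : t * deriv (v j : ℝ → ℝ) p / (v j p - v j x1) =
        t * deriv (v j : ℝ → ℝ) p * (1 / (v j p - v j x1)) := by ring
      linarith
    rw [div_le_div_iff₀ hL (by norm_num)] at a1
    linarith
  refine ⟨hg1, hg2, ?_⟩
  -- (g2)
  intro x hx y hy
  have hpb : p ∈ Icc (p - 4 * t) (p + 4 * t) := ⟨by linarith, by linarith⟩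
  have hq0 := hr_nonneg (|x - y| / t)
  have hs8 : |x - y| / t ≤ 8 := by
    rw [div_le_iff₀ ht, abs_le]
    constructor <;> linarith [hx.1, hx.2, hy.1, hy.2]
  have hs0 : 0 ≤ |x - y| / t := by positivity
  have hq5 := le_hr_8 hs0 hs8
  have hF := main_tel (F := fun i => ld (v i) x - ld (v i) y +
      2 * Real.log ((v i x2 - v i y) / (v i x2 - v i x)))
    (b := fun i => 26 * K ^ 2 * hr (|x - y| / t) * (t * deriv (v i : ℝ → ℝ) p *
      Er (a i) (v i p) (v i p - v i x1) (v i x2 - v i p) (5 * (t * deriv (v i : ℝ → ℝ) p))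
        (m i) (W i))) (j := j)
    (fun i hi => main_step hK hP ht (lt_of_lt_of_le hi hj) (hg i hi) (ho i hi)
      (main_db hK hP ht h1 h2 ((lt_of_lt_of_le hi hj).le)
        (fun k hk => hg k (hk.trans hi))) hx hy)
  rw [← Finset.mul_sum] at hF
  have hF' : |(ld (v j) x - ld (v j) y +
      2 * Real.log ((v j x2 - v j y) / (v j x2 - v j x))) -
      (ld (v 0) x - ld (v 0) y + 2 * Real.log ((v 0 x2 - v 0 y) / (v 0 x2 - v 0 x)))| ≤
      26 / 100000 * hr (|x - y| / t) := by
    refine hF.trans ?_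
    have h4 : 26 * K ^ 2 * hr (|x - y| / t) * (1 / (100000 * K ^ 2)) =
        26 / 100000 * hr (|x - y| / t) := by field_simp
    rw [← h4]
    gcongr
  have hld0 : ∀ z, ld (v 0) z = 0 := by
    intro z
    unfold Pool.Agent.H24.GN.ld
    rw [hP.v0, Real.log_one]
  rw [hld0, hld0, hv0, hv0] at hF'
  -- the logarithm at time 0
  have hlog0 : |Real.log ((x2 - y) / (x2 - x))| ≤ 1 / 1000 * hr (|x - y| / t) := by
    have a1 := main_log (A := x2 - y) (B := x2 - x) (M := 90000 * t) (by positivity)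
      (by linarith [hy.2]) (by linarith [hx.2])
    have a2 : |x2 - y - (x2 - x)| = |x - y| := by
      congr 1
      ring
    rw [a2] at a1
    have a3 : |x - y| / (90000 * t) = 1 / 90000 * (|x - y| / t) := by
      field_simp
    rw [a3] at a1
    linarith
  -- the logarithm at time j
  have hdb := main_db hK hP ht h1 h2 hj hg
  have hdx := main_dist hrg hdb hpb hx hpb
  have hdy := main_dist hrg hdb hpb hy hpb
  have hxy := main_dist hrg hdb hpb hx hy
  have hlogj : |Real.log ((v j x2 - v j y) / (v j x2 - v j x))| ≤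
      1 / 1000 * hr (|x - y| / t) := by
    generalize deriv (v j : ℝ → ℝ) p = D at *
    have hx4 : |x - p| ≤ 4 * t := by
      rw [abs_le]
      constructor <;> linarith [hx.1, hx.2]
    have hy4 : |y - p| ≤ 4 * t := by
      rw [abs_le]
      constructor <;> linarith [hy.1, hy.2]
    have hbx : |v j x - v j p| ≤ 5 * (t * D) := by
      have : 102 / 100 * D * |x - p| ≤ 102 / 100 * D * (4 * t) := by gcongr
      nlinarith
    have hby : |v j y - v j p| ≤ 5 * (t * D) := by
      have : 102 / 100 * D * |y - p| ≤ 102 / 100 * D * (4 * t) := by gcongr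
      nlinarith
    rw [abs_le] at hbx hby
    have a1 := main_log (A := v j x2 - v j y) (B := v j x2 - v j x) (M := 9000 * (t * D))
      (by positivity) (by linarith) (by linarith)
    have a2 : |v j x2 - v j y - (v j x2 - v j x)| = |v j x - v j y| := by
      congr 1
      ring
    rw [a2] at a1
    refine a1.trans ?_
    rw [div_le_iff₀ (by positivity)]
    refine hxy.trans ?_
    have e3 : 102 / 100 * D * |x - y| = 102 / 100 * (t * D) * (|x - y| / t) := by
      field_simp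
    rw [e3]
    have : 102 / 100 * (t * D) * (|x - y| / t) ≤
        102 / 100 * (t * D) * (5 * hr (|x - y| / t)) := by gcongr
    refine this.trans ?_
    have h6 : 0 ≤ t * D * hr (|x - y| / t) := by positivity
    nlinarith
  generalize hr (|x - y| / t) = q at *
  rw [abs_le] at hF' hlog0 hlogj ⊢
  constructor <;> linarith [hF'.1, hF'.2, hlog0.1, hlog0.2, hlogj.1, hlogj.2]

end Pool.Agent.H66.GSC
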