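import Mathlib

/-!
# GSC-8: martingales on a forest of binary trees, Bessel inequality (pure algebra)

The forest has `K0` roots `(0, k)`, `k < K0`; the cell `(l, k)`, `k < K0 * 2 ^ l`, has the children
`(l + 1, 2 k)`, `(l + 1, 2 k + 1)`, so its ancestor of level `l - j` has the index `k / 2 ^ j`.

PROOF.  `sum_two`: induction on `n`.  `bessel`: with `E l = ∑_{k < K0 2^l} (1/2)^l (q l k - f l k ^ 2)`
one has `E l = E (l + 1) + X l`, `X l = ∑_{k < K0 2^l} (1/2)^l Δ²`, `Δ = (f (2k+1) - f (2k)) / 2`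
(parallelogram identity and `sum_two`), `E ≥ 0`, `E 0 ≤ B`.
`sum_anc`: `∑_{k < K0 2^(l+1)} (1/2)^(l+1) G (k / 2) = ∑_{k < K0 2^l} (1/2)^l G k` iterated.
`ov_bound`: `|anc j - anc (j + 1)|` at `(l, k)` is `|Δ|` of the ancestor of level `l - j - 1` (zero if
`l ≤ j`), by `sum_anc` the weighted sum over all `(l, k)`, `l ≤ L` of its square is `≤ B` for each
`j`; `(∑_{j < 6} x_j)² ≤ 6 ∑ x_j²`.
-/

set_option autoImplicit false
open Set Filter Topology

namespace Pool.Agent.H66.GSC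

/-- `f` is a martingale on the forest, `q` a martingale with `f² ≤ q`, and the total initial
variance is at most `B` -/
structure Arr (K0 : ℕ) (B : ℝ) (f q : ℕ → ℕ → ℝ) : Prop where
  mf : ∀ l k, f l k = (f (l + 1) (2 * k) + f (l + 1) (2 * k + 1)) / 2
  mq : ∀ l k, q l k = (q (l + 1) (2 * k) + q (l + 1) (2 * k + 1)) / 2
  jen : ∀ l k, f l k ^ 2 ≤ q l k
  h0 : ∑ k ∈ Finset.range K0, (q 0 k - f 0 k ^ 2) ≤ B

/-- the value at the ancestor `j` levels above (or at the root) -/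
def anc (f : ℕ → ℕ → ℝ) (j l k : ℕ) : ℝ := f (l - j) (k / 2 ^ (min j l))

/-- the sum of the last six increments above `(l, k)` -/
def OV (f : ℕ → ℕ → ℝ) (l k : ℕ) : ℝ :=
  ∑ j ∈ Finset.range 6, |anc f j l k - anc f (j + 1) l k|

theorem sum_two (n : ℕ) (g : ℕ → ℝ) :
    ∑ k ∈ Finset.range (2 * n), g k = ∑ k ∈ Finset.range n, (g (2 * k) + g (2 * k + 1)) := by
  induction n with
  | zero => simp
  | succ n ih =>
    rw [Finset.sum_range_succ, ← ih, show 2 * (n + 1) = 2 * n + 1 + 1 by ring,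
      Finset.sum_range_succ, Finset.sum_range_succ]
    ring

theorem Bes_card (K0 l : ℕ) : K0 * 2 ^ (l + 1) = 2 * (K0 * 2 ^ l) := by ring

/-- the energy below the level `l` -/
noncomputable def Bes_E (K0 : ℕ) (f q : ℕ → ℕ → ℝ) (l : ℕ) : ℝ :=
  ∑ k ∈ Finset.range (K0 * 2 ^ l), (1 / 2 : ℝ) ^ l * (q l k - f l k ^ 2)

theorem Bes_step {K0 : ℕ} {B : ℝ} {f q : ℕ → ℕ → ℝ} (h : Arr K0 B f q) (l : ℕ) :
    Bes_E K0 f q l = Bes_E K0 f q (l + 1) + ∑ k ∈ Finset.range (K0 * 2 ^ l),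
      (1 / 2 : ℝ) ^ l * ((f (l + 1) (2 * k + 1) - f (l + 1) (2 * k)) / 2) ^ 2 := by
  unfold Bes_E
  rw [Bes_card, sum_two, ← Finset.sum_add_distrib]
  refine Finset.sum_congr rfl fun k _ => ?_
  rw [h.mf l k, h.mq l k, pow_succ]
  ring

theorem bessel {K0 : ℕ} {B : ℝ} {f q : ℕ → ℕ → ℝ} (h : Arr K0 B f q) (L : ℕ) :
    ∑ l ∈ Finset.range L, ∑ k ∈ Finset.range (K0 * 2 ^ l),
      (1 / 2 : ℝ) ^ l * ((f (l + 1) (2 * k + 1) - f (l + 1) (2 * k)) / 2) ^ 2 ≤ B := by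
  have h1 : ∀ L : ℕ, ∑ l ∈ Finset.range L, ∑ k ∈ Finset.range (K0 * 2 ^ l),
      (1 / 2 : ℝ) ^ l * ((f (l + 1) (2 * k + 1) - f (l + 1) (2 * k)) / 2) ^ 2 =
        Bes_E K0 f q 0 - Bes_E K0 f q L := by
    intro L
    induction L with
    | zero => simp
    | succ L ih =>
      rw [Finset.sum_range_succ, ih, Bes_step h L]
      ring
  have h2 : 0 ≤ Bes_E K0 f q L := by
    unfold Bes_E
    refine Finset.sum_nonneg fun k _ => ?_
    have := h.jen L k
    exact mul_nonneg (by positivity) (by linarith)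
  have h3 : Bes_E K0 f q 0 ≤ B := by
    have := h.h0
    unfold Bes_E
    simpa using this
  rw [h1 L]
  linarith

theorem sum_anc (K0 l j : ℕ) (G : ℕ → ℝ) :
    ∑ k ∈ Finset.range (K0 * 2 ^ (l + j)), (1 / 2 : ℝ) ^ (l + j) * G (k / 2 ^ j) =
      ∑ k ∈ Finset.range (K0 * 2 ^ l), (1 / 2 : ℝ) ^ l * G k := by
  induction j with
  | zero => simp
  | succ j ih =>
    rw [← ih, ← add_assoc, Bes_card, sum_two]
    refine Finset.sum_congr rfl fun k _ => ?_
    have e1 : 2 * k / 2 ^ (j + 1) = k / 2 ^ j := by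
      rw [pow_succ, mul_comm (2 ^ j) 2]
      exact Nat.mul_div_mul_left _ _ (by norm_num)
    have e2 : (2 * k + 1) / 2 ^ (j + 1) = k / 2 ^ j := by
      rw [pow_succ, mul_comm (2 ^ j) 2, ← Nat.div_div_eq_div_mul]
      have : (2 * k + 1) / 2 = k := by omega
      rw [this]
    rw [e1, e2, pow_succ]
    ring

/-- the square of an increment above `(l, k)` -/
theorem Bes_inc {K0 : ℕ} {B : ℝ} {f q : ℕ → ℕ → ℝ} (h : Arr K0 B f q) (j m k : ℕ) :
    (anc f j (m + (j + 1)) k - anc f (j + 1) (m + (j + 1)) k) ^ 2 =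
      ((f (m + 1) (2 * (k / 2 ^ (j + 1)) + 1) - f (m + 1) (2 * (k / 2 ^ (j + 1)))) / 2) ^ 2 := by
  have e1 : anc f j (m + (j + 1)) k = f (m + 1) (k / 2 ^ j) := by
    unfold anc
    rw [show m + (j + 1) - j = m + 1 by omega, min_eq_left (by omega)]
  have e2 : anc f (j + 1) (m + (j + 1)) k = f m (k / 2 ^ (j + 1)) := by
    unfold anc
    rw [show m + (j + 1) - (j + 1) = m by omega, min_eq_left (by omega)]
  have e3 : k / 2 ^ (j + 1) = k / 2 ^ j / 2 := by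
    rw [pow_succ, Nat.div_div_eq_div_mul]
  rw [e1, e2, e3, h.mf m]
  obtain ⟨c, hc⟩ : ∃ c, c = k / 2 ^ j := ⟨_, rfl⟩
  rw [← hc]
  rcases Nat.even_or_odd' c with ⟨d, hd | hd⟩
  · have : c / 2 = d := by omega
    rw [this, hd]
    ring
  · have : c / 2 = d := by omega
    rw [this, hd]
    ring

theorem Bes_inc0 (f : ℕ → ℕ → ℝ) {j l : ℕ} (k : ℕ) (hl : l < j + 1) :
    anc f j l k - anc f (j + 1) l k = 0 := by
  unfold anc
  rw [show l - j = 0 by omega, show l - (j + 1) = 0 by omega, min_eq_right (by omega),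
    min_eq_right (by omega), sub_self]

theorem Bes_one {K0 : ℕ} {B : ℝ} {f q : ℕ → ℕ → ℝ} (h : Arr K0 B f q) (L j : ℕ) :
    ∑ l ∈ Finset.range (L + 1), ∑ k ∈ Finset.range (K0 * 2 ^ l),
      (1 / 2 : ℝ) ^ l * (anc f j l k - anc f (j + 1) l k) ^ 2 ≤ B := by
  have h1 : ∑ l ∈ Finset.range (L + 1), ∑ k ∈ Finset.range (K0 * 2 ^ l),
      (1 / 2 : ℝ) ^ l * (anc f j l k - anc f (j + 1) l k) ^ 2 ≤
      ∑ l ∈ Finset.range (j + 1 + (L + 1)), ∑ k ∈ Finset.range (K0 * 2 ^ l),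
      (1 / 2 : ℝ) ^ l * (anc f j l k - anc f (j + 1) l k) ^ 2 := by
    refine Finset.sum_le_sum_of_subset_of_nonneg ?_ fun l _ _ => ?_
    · exact Finset.range_mono (by omega)
    · exact Finset.sum_nonneg fun k _ => mul_nonneg (by positivity) (sq_nonneg _)
  have h2 : ∑ l ∈ Finset.range (j + 1), ∑ k ∈ Finset.range (K0 * 2 ^ l),
      (1 / 2 : ℝ) ^ l * (anc f j l k - anc f (j + 1) l k) ^ 2 = 0 := by
    refine Finset.sum_eq_zero fun l hl => Finset.sum_eq_zero fun k _ => ?_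
    rw [Bes_inc0 f k (Finset.mem_range.1 hl)]
    ring
  have h3 : ∑ m ∈ Finset.range (L + 1), ∑ k ∈ Finset.range (K0 * 2 ^ (j + 1 + m)),
      (1 / 2 : ℝ) ^ (j + 1 + m) *
        (anc f j (j + 1 + m) k - anc f (j + 1) (j + 1 + m) k) ^ 2 =
      ∑ l ∈ Finset.range (L + 1), ∑ k ∈ Finset.range (K0 * 2 ^ l),
      (1 / 2 : ℝ) ^ l * ((f (l + 1) (2 * k + 1) - f (l + 1) (2 * k)) / 2) ^ 2 := by
    refine Finset.sum_congr rfl fun m _ => ?_
    rw [add_comm (j + 1) m]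
    rw [← sum_anc K0 m (j + 1)
      (fun k => ((f (m + 1) (2 * k + 1) - f (m + 1) (2 * k)) / 2) ^ 2)]
    refine Finset.sum_congr rfl fun k _ => ?_
    rw [Bes_inc h]
  have h4 : ∑ l ∈ Finset.range (j + 1 + (L + 1)), ∑ k ∈ Finset.range (K0 * 2 ^ l),
      (1 / 2 : ℝ) ^ l * (anc f j l k - anc f (j + 1) l k) ^ 2 =
      ∑ l ∈ Finset.range (L + 1), ∑ k ∈ Finset.range (K0 * 2 ^ l),
      (1 / 2 : ℝ) ^ l * ((f (l + 1) (2 * k + 1) - f (l + 1) (2 * k)) / 2) ^ 2 := by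
    rw [Finset.sum_range_add, h2, h3, zero_add]
  rw [h4] at h1
  exact h1.trans (bessel h (L + 1))

theorem ov_bound {K0 : ℕ} {B : ℝ} {f q : ℕ → ℕ → ℝ} (h : Arr K0 B f q) (L : ℕ) :
    ∑ l ∈ Finset.range (L + 1), ∑ k ∈ Finset.range (K0 * 2 ^ l),
      (1 / 2 : ℝ) ^ l * OV f l k ^ 2 ≤ 36 * B := by
  have h1 : ∀ l k : ℕ, (1 / 2 : ℝ) ^ l * OV f l k ^ 2 ≤ ∑ j ∈ Finset.range 6,
      6 * ((1 / 2 : ℝ) ^ l * (anc f j l k - anc f (j + 1) l k) ^ 2) := by
    intro l k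
    have h2 := sq_sum_le_card_mul_sum_sq (s := Finset.range 6)
      (f := fun j => |anc f j l k - anc f (j + 1) l k|)
    simp only [sq_abs, Finset.card_range] at h2
    have h3 : OV f l k ^ 2 ≤ 6 * ∑ j ∈ Finset.range 6,
        (anc f j l k - anc f (j + 1) l k) ^ 2 := by
      unfold OV
      exact_mod_cast h2
    have h4 := mul_le_mul_of_nonneg_left h3 (by positivity : (0:ℝ) ≤ (1 / 2 : ℝ) ^ l)
    refine h4.trans (le_of_eq ?_)
    rw [Finset.mul_sum, Finset.mul_sum]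
    refine Finset.sum_congr rfl fun j _ => ?_
    ring
  calc ∑ l ∈ Finset.range (L + 1), ∑ k ∈ Finset.range (K0 * 2 ^ l),
      (1 / 2 : ℝ) ^ l * OV f l k ^ 2
      ≤ ∑ l ∈ Finset.range (L + 1), ∑ k ∈ Finset.range (K0 * 2 ^ l),
        ∑ j ∈ Finset.range 6,
          6 * ((1 / 2 : ℝ) ^ l * (anc f j l k - anc f (j + 1) l k) ^ 2) :=
        Finset.sum_le_sum fun l _ => Finset.sum_le_sum fun k _ => h1 l k
    _ = ∑ j ∈ Finset.range 6, 6 * ∑ l ∈ Finset.range (L + 1),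
        ∑ k ∈ Finset.range (K0 * 2 ^ l),
          (1 / 2 : ℝ) ^ l * (anc f j l k - anc f (j + 1) l k) ^ 2 := by
        have e1 : ∀ l, ∑ k ∈ Finset.range (K0 * 2 ^ l), ∑ j ∈ Finset.range 6,
            6 * ((1 / 2 : ℝ) ^ l * (anc f j l k - anc f (j + 1) l k) ^ 2) =
            ∑ j ∈ Finset.range 6, ∑ k ∈ Finset.range (K0 * 2 ^ l),
            6 * ((1 / 2 : ℝ) ^ l * (anc f j l k - anc f (j + 1) l k) ^ 2) :=
          fun l => Finset.sum_comm
        rw [Finset.sum_congr rfl fun l _ => e1 l, Finset.sum_comm]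
        refine Finset.sum_congr rfl fun j _ => ?_
        rw [Finset.mul_sum]
        refine Finset.sum_congr rfl fun l _ => ?_
        rw [Finset.mul_sum]
    _ ≤ ∑ _j ∈ Finset.range 6, 6 * B :=
        Finset.sum_le_sum fun j _ => by
          have := Bes_one h L j
          linarith
    _ = 36 * B := by
        rw [Finset.sum_const, Finset.card_range]
        ring

end Pool.Agent.H66.GSC
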