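import Mathlib
import Pool.Agent.H66.GSC.Bes
import Pool.Agent.H66.GSC.Hr

/-!
# GSC-10: means over dyadic cells

PROOF.  `ce_left`: `ce r h (l+1) (2k) = ce r h l k`, `ce_mid`: `ce r h (l+1) (2k+1) = ce r h l k +
h / 2^(l+1)`; additivity of the integral.  Jensen (Cauchy-Schwarz): `∫ (a - m)² ≥ 0` with `m` the mean.
Variance: `q - f² = mean of (a - m)²`, and `|a - m| ≤ η` on the cell.
`sub_cell`: the cell `(l, k)` is inside its ancestor.  `anc_of_inter`: floor of
`(x - r) / (h / 2 ^ l')`.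
-/

set_option autoImplicit false
open Set Filter Topology MeasureTheory

namespace Pool.Agent.H66.GSC

theorem ce_left (r h : ℝ) (l k : ℕ) : ce r h (l + 1) (2 * k) = ce r h l k := by
  unfold ce
  push_cast
  rw [pow_succ]
  field_simp

theorem ce_mid (r h : ℝ) (l k : ℕ) :
    ce r h (l + 1) (2 * k + 1) = ce r h l k + h / 2 ^ (l + 1) := by
  unfold ce
  push_cast
  rw [pow_succ]
  field_simp
  ring

theorem grd_w {h : ℝ} (l : ℕ) : h / 2 ^ (l + 1) + h / 2 ^ (l + 1) = h / 2 ^ l := by
  rw [pow_succ]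
  field_simp
  ring

/-- the mean is a martingale -/
theorem grd_mart {b : ℝ → ℝ} (hb : Continuous b) {r h : ℝ} (hh : 0 < h) (l k : ℕ) :
    fa b r h l k = (fa b r h (l + 1) (2 * k) + fa b r h (l + 1) (2 * k + 1)) / 2 := by
  unfold fa
  rw [ce_left, ce_mid]
  have h1 : ce r h l k + h / 2 ^ (l + 1) + h / 2 ^ (l + 1) = ce r h l k + h / 2 ^ l := by
    rw [add_assoc, grd_w]
  rw [h1]
  have h2 : (∫ z in (ce r h l k)..(ce r h l k + h / 2 ^ l), b z) =
      (∫ z in (ce r h l k)..(ce r h l k + h / 2 ^ (l + 1)), b z) +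
        ∫ z in (ce r h l k + h / 2 ^ (l + 1))..(ce r h l k + h / 2 ^ l), b z :=
    (intervalIntegral.integral_add_adjacent_intervals (hb.intervalIntegrable _ _)
      (hb.intervalIntegrable _ _)).symm
  rw [h2, ← grd_w l]
  have h3 : (0 : ℝ) < h / 2 ^ (l + 1) := by positivity
  field_simp
  ring

/-- the variance on a cell -/
theorem grd_var {a : ℝ → ℝ} (ha : Continuous a) {r h : ℝ} (hh : 0 < h) (l k : ℕ) :
    (fa (fun x => a x ^ 2) r h l k - fa a r h l k ^ 2) * (h / 2 ^ l) =
      ∫ z in (ce r h l k)..(ce r h l k + h / 2 ^ l), (a z - fa a r h l k) ^ 2 := by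
  have hw : (0 : ℝ) < h / 2 ^ l := by positivity
  set m := fa a r h l k with hm
  have h1 : (∫ z in (ce r h l k)..(ce r h l k + h / 2 ^ l), a z) = m * (h / 2 ^ l) := by
    rw [hm]
    unfold fa
    rw [div_mul_cancel₀ _ hw.ne']
  have h2 : fa (fun x => a x ^ 2) r h l k * (h / 2 ^ l) =
      ∫ z in (ce r h l k)..(ce r h l k + h / 2 ^ l), a z ^ 2 := by
    unfold fa
    rw [div_mul_cancel₀ _ hw.ne']
  have h3 : (∫ z in (ce r h l k)..(ce r h l k + h / 2 ^ l), (a z - m) ^ 2) =
      (∫ z in (ce r h l k)..(ce r h l k + h / 2 ^ l), a z ^ 2) -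
        2 * m * (∫ z in (ce r h l k)..(ce r h l k + h / 2 ^ l), a z) + m ^ 2 * (h / 2 ^ l) := by
    have e1 : (fun z => (a z - m) ^ 2) = fun z => (a z ^ 2 - 2 * m * a z) + m ^ 2 := by
      funext z
      ring
    have i1 : IntervalIntegrable (fun z => a z ^ 2) volume (ce r h l k)
        (ce r h l k + h / 2 ^ l) := (ha.pow 2).intervalIntegrable _ _
    have i2 : IntervalIntegrable (fun z => 2 * m * a z) volume (ce r h l k)
        (ce r h l k + h / 2 ^ l) := (continuous_const.mul ha).intervalIntegrable _ _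
    have i3 : IntervalIntegrable (fun _ : ℝ => m ^ 2) volume (ce r h l k)
        (ce r h l k + h / 2 ^ l) := continuous_const.intervalIntegrable _ _
    rw [e1, intervalIntegral.integral_add (i1.sub i2) i3, intervalIntegral.integral_sub i1 i2,
      intervalIntegral.integral_const_mul, intervalIntegral.integral_const, smul_eq_mul]
    ring
  rw [h3, h1, sub_mul, h2]
  ring

theorem arr_fa {a : ℝ → ℝ} (ha : Continuous a) {r h η : ℝ} (hh : 0 < h) (K0 : ℕ)
    (hosc : ∀ x ∈ Icc r (r + K0 * h), ∀ y ∈ Icc r (r + K0 * h), |x - y| ≤ h → |a x - a y| ≤ η) :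
    Arr K0 (K0 * η ^ 2) (fa a r h) (fa (fun x => a x ^ 2) r h) := by
  refine ⟨fun l k => grd_mart ha hh l k, fun l k => grd_mart (ha.pow 2) hh l k, ?_, ?_⟩
  · intro l k
    have hw : (0 : ℝ) < h / 2 ^ l := by positivity
    have h1 := grd_var ha (r := r) hh l k
    have h2 : 0 ≤ ∫ z in (ce r h l k)..(ce r h l k + h / 2 ^ l), (a z - fa a r h l k) ^ 2 :=
      intervalIntegral.integral_nonneg (by linarith) (fun z _ => sq_nonneg _)
    rw [← h1] at h2
    have h3 := nonneg_of_mul_nonneg_left h2 hw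
    linarith
  · have h1 : ∀ k ∈ Finset.range K0,
        fa (fun x => a x ^ 2) r h 0 k - fa a r h 0 k ^ 2 ≤ η ^ 2 := by
      intro k hk
      have hk' : (k : ℝ) + 1 ≤ K0 := by
        have := Finset.mem_range.mp hk
        exact_mod_cast this
      have hw : (0 : ℝ) < h / 2 ^ 0 := by positivity
      have hw0 : h / 2 ^ 0 = h := by simp
      have hc : ce r h 0 k = r + k * h := by
        unfold ce
        simp
      have hin : ∀ z ∈ Icc (ce r h 0 k) (ce r h 0 k + h / 2 ^ 0), z ∈ Icc r (r + K0 * h) := by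
        intro z hz
        rw [hc, hw0] at hz
        have h2 : 0 ≤ (k : ℝ) * h := by positivity
        have h3 : ((k : ℝ) + 1) * h ≤ K0 * h := mul_le_mul_of_nonneg_right hk' hh.le
        exact ⟨by linarith [hz.1], by linarith [hz.2]⟩
      have hη : ∀ z ∈ Icc (ce r h 0 k) (ce r h 0 k + h / 2 ^ 0),
          |a z - fa a r h 0 k| ≤ η := by
        intro z hz
        have h2 : (a z - fa a r h 0 k) * (h / 2 ^ 0) =
            ∫ y in (ce r h 0 k)..(ce r h 0 k + h / 2 ^ 0), (a z - a y) := by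
          rw [intervalIntegral.integral_sub (continuous_const.intervalIntegrable _ _)
            (ha.intervalIntegrable _ _), intervalIntegral.integral_const, smul_eq_mul]
          unfold fa
          field_simp
          ring
        have h3 : |∫ y in (ce r h 0 k)..(ce r h 0 k + h / 2 ^ 0), (a z - a y)| ≤
            η * |ce r h 0 k + h / 2 ^ 0 - ce r h 0 k| := by
          rw [← Real.norm_eq_abs]
          refine intervalIntegral.norm_integral_le_of_norm_le_const ?_
          intro y hy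
          rw [uIoc_of_le (by linarith)] at hy
          rw [Real.norm_eq_abs]
          have hy' : y ∈ Icc (ce r h 0 k) (ce r h 0 k + h / 2 ^ 0) := ⟨hy.1.le, hy.2⟩
          refine hosc z (hin z hz) y (hin y hy') ?_
          rw [abs_le]
          rw [hw0] at hz hy'
          exact ⟨by linarith [hz.1, hy'.2], by linarith [hz.2, hy'.1]⟩
        rw [← h2, add_sub_cancel_left, abs_mul] at h3
        exact le_of_mul_le_mul_right h3 (abs_pos.mpr hw.ne')
      have h4 := grd_var ha (r := r) hh 0 k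
      have h5 : (∫ z in (ce r h 0 k)..(ce r h 0 k + h / 2 ^ 0), (a z - fa a r h 0 k) ^ 2) ≤
          ∫ z in (ce r h 0 k)..(ce r h 0 k + h / 2 ^ 0), η ^ 2 := by
        refine intervalIntegral.integral_mono_on (by linarith) ?_ ?_ ?_
        · exact ((ha.sub continuous_const).pow 2).intervalIntegrable _ _
        · exact continuous_const.intervalIntegrable _ _
        · intro z hz
          exact sq_le_sq' (by linarith [neg_abs_le (a z - fa a r h 0 k), hη z hz])
            ((le_abs_self _).trans (hη z hz))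
      rw [← h4, intervalIntegral.integral_const, smul_eq_mul, add_sub_cancel_left,
        mul_comm (h / 2 ^ 0)] at h5
      exact le_of_mul_le_mul_right h5 hw
    refine (Finset.sum_le_sum h1).trans ?_
    rw [Finset.sum_const, Finset.card_range, nsmul_eq_mul]

theorem grd_pow {l l' : ℕ} (hl : l' ≤ l) : (2 : ℝ) ^ l = 2 ^ l' * 2 ^ (l - l') := by
  rw [← pow_add, Nat.add_sub_cancel' hl]

theorem sub_cell {r h : ℝ} (hh : 0 < h) {l l' k : ℕ} (hl : l' ≤ l) :
    ce r h l' (k / 2 ^ (l - l')) ≤ ce r h l k ∧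
      ce r h l k + h / 2 ^ l ≤ ce r h l' (k / 2 ^ (l - l')) + h / 2 ^ l' := by
  set d := l - l' with hd
  have hp : (2 : ℝ) ^ l = 2 ^ l' * 2 ^ d := grd_pow hl
  have h1 : (k / 2 ^ d) * 2 ^ d ≤ k := Nat.div_mul_le_self k (2 ^ d)
  have h2 : k < (k / 2 ^ d + 1) * 2 ^ d := by
    have := Nat.lt_div_mul_add (a := k) (b := 2 ^ d) (by positivity)
    rw [add_mul, one_mul]
    exact this
  have h1' : ((k / 2 ^ d : ℕ) : ℝ) * 2 ^ d ≤ k := by exact_mod_cast h1
  have h2' : (k : ℝ) + 1 ≤ (((k / 2 ^ d : ℕ) : ℝ) + 1) * 2 ^ d := by exact_mod_cast h2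
  have hc : 0 < h / 2 ^ l := by positivity
  have hw : h / 2 ^ l' = 2 ^ d * (h / 2 ^ l) := by
    rw [hp]
    field_simp
  unfold ce
  rw [hw]
  constructor
  · have := mul_le_mul_of_nonneg_right h1' hc.le
    linarith
  · have := mul_le_mul_of_nonneg_right h2' hc.le
    linarith

theorem anc_of_inter {r h x : ℝ} (hh : 0 < h) {l l' k k' : ℕ} (hl : l' ≤ l)
    (h1 : ce r h l k ≤ x) (h2 : x < ce r h l k + h / 2 ^ l) (h3 : ce r h l' k' ≤ x)
    (h4 : x < ce r h l' k' + h / 2 ^ l') : k / 2 ^ (l - l') = k' := by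
  obtain ⟨h5, h6⟩ := sub_cell (r := r) hh (k := k) hl
  set j := k / 2 ^ (l - l') with hj
  have hw : 0 < h / 2 ^ l' := by positivity
  have h7 : ce r h l' j ≤ x := h5.trans h1
  have h8 : x < ce r h l' j + h / 2 ^ l' := h2.trans_le h6
  unfold ce at h3 h4 h7 h8
  have h9 : (j : ℝ) * (h / 2 ^ l') < (k' + 1) * (h / 2 ^ l') := by linarith
  have h10 : (k' : ℝ) * (h / 2 ^ l') < (j + 1) * (h / 2 ^ l') := by linarith
  have h11 : (j : ℝ) < k' + 1 := lt_of_mul_lt_mul_right h9 hw.le
  have h12 : (k' : ℝ) < j + 1 := lt_of_mul_lt_mul_right h10 hw.le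
  have h13 : j < k' + 1 := by exact_mod_cast h11
  have h14 : k' < j + 1 := by exact_mod_cast h12
  omega

end Pool.Agent.H66.GSC
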