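import Mathlib
import Pool.Agent.H66.GSC.Grd

/-!
# GSC-12: choice of cells

PROOF.  `cell_choice`: let `l` be the largest with `3 (β - α) ≤ h / 2 ^ l`.  At the level `l` the end
points of the cells of the two grids `gr h 0`, `gr h 1` have distance at least `h / (3 * 2 ^ l) ≥ β - α`
from each other (`h / 3 = (h / 2^l) (2^l / 3)` and `2 ^ l` is not divisible by 3), so in one of the grids no
end point lies in the open interval `(α, β)`: `[α, β]` is inside a cell; its index is `≥ 0` and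
`< K0 2^l` since `-9 - h/3 ≤ α`, and `β ≤ 8 ≤ -9 - h/3 + K0 h`.
`inner_cell`: let `l` be the smallest with `h / 2 ^ l ≤ (β - α) / 2`; `l ≥ lR` as `β - α ≤ h / 2 ^ lR`;
`k = ⌈(α - r) / (h / 2 ^ l)⌉`; `h / 2 ^ l > (β - α)/4` (if `l ≥ 1`; `l = lR` is impossible).
-/

set_option autoImplicit false
open Set Filter Topology MeasureTheory

namespace Pool.Agent.H66.GSC

/-- the base point of the grid `g ∈ {0, 1}` -/
noncomputable def gr (h : ℝ) (g : ℕ) : ℝ := -9 - g * (h / 3)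

/-- `(l, k)` is a cell of the grid `g` chosen for the interval `[α, β]` -/
structure Cl (h : ℝ) (K0 g l k : ℕ) (α β : ℝ) : Prop where
  hg : g < 2
  hk : k < K0 * 2 ^ l
  ha : ce (gr h g) h l k ≤ α
  hb : β ≤ ce (gr h g) h l k + h / 2 ^ l
  lo : 3 * (β - α) ≤ h / 2 ^ l
  hi : h / 2 ^ l ≤ 6 * (β - α)

/-- there is a last level with `x ≤ h / 2 ^ l` -/
theorem cell_last {h x : ℝ} (h0 : 0 < h) (x0 : 0 < x) (hx : x ≤ h) :
    ∃ l : ℕ, x ≤ h / 2 ^ l ∧ h / 2 ^ (l + 1) < x := by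
  have hex : ∃ l : ℕ, h / 2 ^ l < x := by
    obtain ⟨l, hl⟩ := pow_unbounded_of_one_lt (h / x) (one_lt_two : (1 : ℝ) < 2)
    refine ⟨l, ?_⟩
    rw [div_lt_iff₀ (by positivity)]
    rw [div_lt_iff₀ x0] at hl
    linarith
  classical
  have hne : Nat.find hex ≠ 0 := by
    intro h1
    have h2 := Nat.find_spec hex
    rw [h1] at h2
    simp only [pow_zero, div_one] at h2
    linarith
  obtain ⟨l, hl⟩ := Nat.exists_eq_succ_of_ne_zero hne
  refine ⟨l, ?_, ?_⟩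
  · have h3 : l < Nat.find hex := by omega
    exact not_lt.1 (Nat.find_min hex h3)
  · have h2 := Nat.find_spec hex
    rw [hl] at h2
    exact h2

/-- the cell of the point `α` -/
theorem cell_floor {r H α : ℝ} (H0 : 0 < H) (hr : r ≤ α) :
    ∃ k : ℕ, r + k * H ≤ α ∧ α < r + k * H + H := by
  refine ⟨⌊(α - r) / H⌋₊, ?_, ?_⟩
  · have h1 : (⌊(α - r) / H⌋₊ : ℝ) ≤ (α - r) / H :=
      Nat.floor_le (div_nonneg (by linarith) H0.le)
    rw [le_div_iff₀ H0] at h1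
    linarith
  · have h1 : (α - r) / H < (⌊(α - r) / H⌋₊ : ℝ) + 1 := Nat.lt_floor_add_one _
    rw [div_lt_iff₀ H0] at h1
    linarith

theorem cell_choice {h : ℝ} (h0 : 0 < h) (h1 : h ≤ 1) {K0 : ℕ} (hK : K0 * h = 18) {α β : ℝ}
    (hα : -8 ≤ α) (hβ : β ≤ 8) (hab : α < β) (hs : 3 * (β - α) ≤ h) :
    ∃ g l k, Cl h K0 g l k α β := by
  obtain ⟨l, hl1, hl2⟩ := cell_last (x := 3 * (β - α)) h0 (by linarith) hs
  have H0 : 0 < h / 2 ^ l := by positivity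
  have hH : (2 : ℝ) ^ l * (h / 2 ^ l) = h := by
    field_simp
  have hi : h / 2 ^ l ≤ 6 * (β - α) := by
    have h3 : h / 2 ^ (l + 1) = (h / 2 ^ l) / 2 := by
      rw [pow_succ]
      field_simp
    rw [h3] at hl2
    linarith
  -- the bound of the index
  have bd : ∀ r : ℝ, -9 - h / 3 ≤ r → ∀ k : ℕ, r + k * (h / 2 ^ l) ≤ α → k < K0 * 2 ^ l := by
    intro r hr k hk
    have h4 : (k : ℝ) * (h / 2 ^ l) < (K0 * 2 ^ l : ℕ) * (h / 2 ^ l) := by
      push_cast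
      have h5 : (K0 : ℝ) * 2 ^ l * (h / 2 ^ l) = 18 := by
        rw [mul_assoc, hH, hK]
      rw [h5]
      linarith
    exact_mod_cast lt_of_mul_lt_mul_right h4 H0.le
  obtain ⟨k0, hk0, hk0'⟩ := cell_floor (r := gr h 0) (α := α) H0 (by simp [gr]; linarith)
  obtain ⟨k1, hk1, hk1'⟩ := cell_floor (r := gr h 1) (α := α) H0 (by simp [gr]; linarith)
  by_cases c0 : β ≤ gr h 0 + k0 * (h / 2 ^ l) + h / 2 ^ l
  · exact ⟨0, l, k0, ⟨by norm_num, bd _ (by simp [gr]; linarith) k0 hk0, hk0, c0, hl1, hi⟩⟩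
  by_cases c1 : β ≤ gr h 1 + k1 * (h / 2 ^ l) + h / 2 ^ l
  · exact ⟨1, l, k1, ⟨by norm_num, bd _ (by simp [gr]) k1 hk1, hk1, c1, hl1, hi⟩⟩
  exfalso
  rw [not_le] at c0 c1
  simp only [gr, Nat.cast_zero, zero_mul, sub_zero, Nat.cast_one, one_mul] at hk0 hk0' hk1 hk1' c0 c1
  -- the end points are closer than a third of a cell
  set H := h / 2 ^ l with hHdef
  have e1 : (2 ^ l + 3 * ((k0 : ℝ) - k1)) * H < 1 * H := by
    have : (2 ^ l + 3 * ((k0 : ℝ) - k1)) * H = h + 3 * ((k0 : ℝ) * H - k1 * H) := by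
      rw [add_mul, hH]
      ring
    rw [this]
    linarith
  have e2 : (-1) * H < (2 ^ l + 3 * ((k0 : ℝ) - k1)) * H := by
    have : (2 ^ l + 3 * ((k0 : ℝ) - k1)) * H = h + 3 * ((k0 : ℝ) * H - k1 * H) := by
      rw [add_mul, hH]
      ring
    rw [this]
    linarith
  have e3 := lt_of_mul_lt_mul_right e1 H0.le
  have e4 := lt_of_mul_lt_mul_right e2 H0.le
  have e5 : (2 ^ l + 3 * ((k0 : ℤ) - k1)) < 1 := by exact_mod_cast e3
  have e6 : -1 < (2 ^ l + 3 * ((k0 : ℤ) - k1)) := by exact_mod_cast e4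
  have e7 : (2 : ℤ) ^ l = 3 * (k1 - k0) := by omega
  have e8 : (3 : ℤ) ∣ 2 ^ l := ⟨_, e7⟩
  have e9 : (3 : ℤ) ∣ 2 := Int.prime_three.dvd_of_dvd_pow e8
  norm_num at e9

theorem inner_cell {r h : ℝ} (hh : 0 < h) {lR kR : ℕ} {α β : ℝ} (hab : α < β)
    (h1 : ce r h lR kR ≤ α) (h2 : β ≤ ce r h lR kR + h / 2 ^ lR) :
    ∃ l k, lR ≤ l ∧ k / 2 ^ (l - lR) = kR ∧ α ≤ ce r h l k ∧ ce r h l k + h / 2 ^ l ≤ β ∧
      β - α ≤ 4 * (h / 2 ^ l) := by
  simp only [ce] at *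
  have HR0 : 0 < h / 2 ^ lR := by positivity
  obtain ⟨d, hd1, hd2⟩ := cell_last (h := h / 2 ^ lR) (x := (β - α) / 2) HR0 (by linarith)
    (by linarith)
  have hp : ∀ e : ℕ, h / 2 ^ lR / 2 ^ e = h / 2 ^ (lR + e) := by
    intro e
    rw [pow_add, div_div]
  rw [hp] at hd1 hd2
  rw [← add_assoc] at hd2
  -- now h / 2 ^ (lR + d) ≥ (β - α)/2 > h / 2 ^ (lR + d + 1)
  set l := lR + d + 1 with hl
  have H0 : 0 < h / 2 ^ l := by positivity
  have hhalf : h / 2 ^ (lR + d) = 2 * (h / 2 ^ l) := by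
    rw [hl, pow_succ]
    field_simp
  have hHR : h / 2 ^ lR = 2 ^ (l - lR) * (h / 2 ^ l) := by
    have : 2 ^ l = (2 : ℝ) ^ (l - lR) * 2 ^ lR := by
      rw [← pow_add]
      congr 1
      omega
    rw [this]
    field_simp
  have hrα : r ≤ α := by
    have : 0 ≤ (kR : ℝ) * (h / 2 ^ lR) := by positivity
    linarith
  refine ⟨l, ⌈(α - r) / (h / 2 ^ l)⌉₊, by omega, ?_, ?_, ?_, by linarith⟩
  rotate_left
  · have h3 : (α - r) / (h / 2 ^ l) ≤ (⌈(α - r) / (h / 2 ^ l)⌉₊ : ℝ) := Nat.le_ceil _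
    rw [div_le_iff₀ H0] at h3
    linarith
  · have h3 : (⌈(α - r) / (h / 2 ^ l)⌉₊ : ℝ) < (α - r) / (h / 2 ^ l) + 1 :=
      Nat.ceil_lt_add_one (div_nonneg (by linarith) H0.le)
    have h4 : (⌈(α - r) / (h / 2 ^ l)⌉₊ : ℝ) * (h / 2 ^ l) < (α - r) + h / 2 ^ l := by
      have h5 := mul_lt_mul_of_pos_right h3 H0
      rw [add_mul, div_mul_cancel₀ _ H0.ne', one_mul] at h5
      exact h5
    linarith
  · set k := ⌈(α - r) / (h / 2 ^ l)⌉₊ with hk
    have h3 : (α - r) / (h / 2 ^ l) ≤ (k : ℝ) := Nat.le_ceil _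
    rw [div_le_iff₀ H0] at h3
    have h3' : (k : ℝ) < (α - r) / (h / 2 ^ l) + 1 :=
      Nat.ceil_lt_add_one (div_nonneg (by linarith) H0.le)
    have h4 : (k : ℝ) * (h / 2 ^ l) < (α - r) + h / 2 ^ l := by
      have h5 := mul_lt_mul_of_pos_right h3' H0
      rw [add_mul, div_mul_cancel₀ _ H0.ne', one_mul] at h5
      exact h5
    refine Nat.div_eq_of_lt_le ?_ ?_
    · have h6 : ((kR * 2 ^ (l - lR) : ℕ) : ℝ) * (h / 2 ^ l) ≤ (k : ℝ) * (h / 2 ^ l) := by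
        push_cast
        rw [mul_assoc, ← hHR]
        linarith
      exact_mod_cast le_of_mul_le_mul_right h6 H0
    · have h6 : (k : ℝ) * (h / 2 ^ l) < (((kR + 1) * 2 ^ (l - lR) : ℕ) : ℝ) * (h / 2 ^ l) := by
        push_cast
        rw [mul_assoc, ← hHR, add_mul, one_mul]
        linarith
      exact_mod_cast lt_of_mul_lt_mul_right h6 H0.le

end Pool.Agent.H66.GSC
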