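import Mathlib

/-!
# GSC-13: embedding lemma, Hardy inequality, disjoint intervals

PROOF.  `embed`: `Finset.sum_fiberwise_of_maps_to` for the map `x ↦ (c1 x, c2 x)` into the cells.
`hardy`: `S n = ∑_{i ≤ n} D i`; `S (n+1)² ≤ (21/20) S n² + 21 D (n+1)²`; with `Z = ∑ (9/10)^n S n²`,
`Y = ∑ (9/10)^n D n²`: `Z ≤ (189/200) Z + 21 Y`.
`sum_disj`: measure of a finite disjoint union.
-/

set_option autoImplicit false
open Set Filter Topology MeasureTheory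

namespace Pool.Agent.H66.GSC

theorem embed {X : Type} (s : Finset X) (c1 c2 : X → ℕ) (w : X → ℝ) (hw : ∀ x ∈ s, 0 ≤ w x)
    {L K0 : ℕ} (hc : ∀ x ∈ s, c1 x ≤ L ∧ c2 x < K0 * 2 ^ (c1 x)) {C : ℝ} (hC : 0 ≤ C)
    (hload : ∀ l k, ∑ x ∈ s.filter (fun x => c1 x = l ∧ c2 x = k), w x ≤ C * (1 / 2 : ℝ) ^ l)
    (D : ℕ → ℕ → ℝ) {B : ℝ}
    (hD : ∑ l ∈ Finset.range (L + 1), ∑ k ∈ Finset.range (K0 * 2 ^ l),
      (1 / 2 : ℝ) ^ l * D l k ^ 2 ≤ B) :
    ∑ x ∈ s, w x * D (c1 x) (c2 x) ^ 2 ≤ C * B := by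
  have h1 : ∑ x ∈ s, w x * D (c1 x) (c2 x) ^ 2 =
      ∑ l ∈ Finset.range (L + 1), ∑ x ∈ s.filter (fun x => c1 x = l),
        w x * D (c1 x) (c2 x) ^ 2 :=
    (Finset.sum_fiberwise_of_maps_to (fun x hx => by
      rw [Finset.mem_range]
      exact Nat.lt_succ_of_le (hc x hx).1) _).symm
  have h2 : ∀ l ∈ Finset.range (L + 1), ∑ x ∈ s.filter (fun x => c1 x = l),
      w x * D (c1 x) (c2 x) ^ 2 ≤
      ∑ k ∈ Finset.range (K0 * 2 ^ l), C * ((1 / 2 : ℝ) ^ l * D l k ^ 2) := by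
    intro l _
    have h3 : ∑ x ∈ s.filter (fun x => c1 x = l), w x * D (c1 x) (c2 x) ^ 2 =
        ∑ k ∈ Finset.range (K0 * 2 ^ l), ∑ x ∈ (s.filter (fun x => c1 x = l)).filter
          (fun x => c2 x = k), w x * D (c1 x) (c2 x) ^ 2 :=
      (Finset.sum_fiberwise_of_maps_to (fun x hx => by
        rw [Finset.mem_filter] at hx
        rw [Finset.mem_range, ← hx.2]
        exact (hc x hx.1).2) _).symm
    rw [h3]
    refine Finset.sum_le_sum fun k _ => ?_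
    have h4 : ∑ x ∈ (s.filter (fun x => c1 x = l)).filter (fun x => c2 x = k),
        w x * D (c1 x) (c2 x) ^ 2 =
        (∑ x ∈ s.filter (fun x => c1 x = l ∧ c2 x = k), w x) * D l k ^ 2 := by
      rw [Finset.filter_filter, Finset.sum_mul]
      refine Finset.sum_congr rfl fun x hx => ?_
      rw [Finset.mem_filter] at hx
      rw [hx.2.1, hx.2.2]
    rw [h4]
    have h5 := mul_le_mul_of_nonneg_right (hload l k) (sq_nonneg (D l k))
    linarith
  rw [h1]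
  refine (Finset.sum_le_sum h2).trans ?_
  have h6 : ∑ l ∈ Finset.range (L + 1), ∑ k ∈ Finset.range (K0 * 2 ^ l),
      C * ((1 / 2 : ℝ) ^ l * D l k ^ 2) =
      C * ∑ l ∈ Finset.range (L + 1), ∑ k ∈ Finset.range (K0 * 2 ^ l),
        (1 / 2 : ℝ) ^ l * D l k ^ 2 := by
    rw [Finset.mul_sum]
    refine Finset.sum_congr rfl fun l _ => ?_
    rw [Finset.mul_sum]
  rw [h6]
  exact mul_le_mul_of_nonneg_left hD hC

theorem hardy (D : ℕ → ℝ) (hD : ∀ n, 0 ≤ D n) (M : ℕ) :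
    ∑ n ∈ Finset.range M, (9 / 10 : ℝ) ^ n * (∑ i ∈ Finset.range (n + 1), D i) ^ 2 ≤
      400 * ∑ n ∈ Finset.range M, (9 / 10 : ℝ) ^ n * D n ^ 2 := by
  cases M with
  | zero => simp
  | succ M =>
    set S : ℕ → ℝ := fun n => ∑ i ∈ Finset.range (n + 1), D i with hS
    have hrec : ∀ n, S (n + 1) ^ 2 ≤ 21 / 20 * S n ^ 2 + 21 * D (n + 1) ^ 2 := by
      intro n
      have h1 : S (n + 1) = S n + D (n + 1) := by
        simp only [hS]
        rw [Finset.sum_range_succ]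
      rw [h1]
      nlinarith [sq_nonneg (S n - 20 * D (n + 1))]
    have hZ : ∑ n ∈ Finset.range (M + 1), (9 / 10 : ℝ) ^ n * S n ^ 2 ≤
        189 / 200 * ∑ n ∈ Finset.range M, (9 / 10 : ℝ) ^ n * S n ^ 2 +
          21 * ∑ n ∈ Finset.range (M + 1), (9 / 10 : ℝ) ^ n * D n ^ 2 := by
      rw [Finset.sum_range_succ' (fun n => (9 / 10 : ℝ) ^ n * S n ^ 2),
        Finset.sum_range_succ' (fun n => (9 / 10 : ℝ) ^ n * D n ^ 2)]
      have h2 : ∑ n ∈ Finset.range M, (9 / 10 : ℝ) ^ (n + 1) * S (n + 1) ^ 2 ≤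
          ∑ n ∈ Finset.range M, (189 / 200 * ((9 / 10 : ℝ) ^ n * S n ^ 2) +
            21 * ((9 / 10 : ℝ) ^ (n + 1) * D (n + 1) ^ 2)) := by
        refine Finset.sum_le_sum fun n _ => ?_
        have h3 := mul_le_mul_of_nonneg_left (hrec n)
          (by positivity : (0:ℝ) ≤ (9 / 10 : ℝ) ^ (n + 1))
        refine h3.trans (le_of_eq ?_)
        rw [pow_succ]
        ring
      rw [Finset.sum_add_distrib, ← Finset.mul_sum, ← Finset.mul_sum] at h2
      have h4 : S 0 = D 0 := by simp [hS]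
      rw [h4]
      have h5 : 0 ≤ D 0 ^ 2 := sq_nonneg _
      simp only [pow_zero, one_mul]
      linarith
    have hmono : ∑ n ∈ Finset.range M, (9 / 10 : ℝ) ^ n * S n ^ 2 ≤
        ∑ n ∈ Finset.range (M + 1), (9 / 10 : ℝ) ^ n * S n ^ 2 := by
      rw [Finset.sum_range_succ]
      have : 0 ≤ (9 / 10 : ℝ) ^ M * S M ^ 2 := by positivity
      linarith
    have hY : 0 ≤ ∑ n ∈ Finset.range (M + 1), (9 / 10 : ℝ) ^ n * D n ^ 2 :=
      Finset.sum_nonneg fun n _ => by positivity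
    linarith

theorem sum_disj {X : Type} (s : Finset X) (a b : X → ℝ) {α β : ℝ} (hab : α ≤ β)
    (h1 : ∀ x ∈ s, a x ≤ b x) (h2 : ∀ x ∈ s, α ≤ a x) (h3 : ∀ x ∈ s, b x ≤ β)
    (hd : ∀ x ∈ s, ∀ y ∈ s, x ≠ y → b x ≤ a y ∨ b y ≤ a x) :
    ∑ x ∈ s, (b x - a x) ≤ β - α := by
  have hdis : (s : Set X).PairwiseDisjoint (fun x => Ioo (a x) (b x)) := by
    intro x hx y hy hxy
    show Disjoint (Ioo (a x) (b x)) (Ioo (a y) (b y))
    rw [Set.disjoint_left]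
    intro z hz hz'
    rcases hd x hx y hy hxy with h | h
    · exact absurd (hz.2.trans_le h) (not_lt.2 hz'.1.le)
    · exact absurd (hz'.2.trans_le h) (not_lt.2 hz.1.le)
  have hsub : (⋃ x ∈ s, Ioo (a x) (b x)) ⊆ Icc α β := by
    intro z hz
    simp only [mem_iUnion, exists_prop] at hz
    obtain ⟨x, hx, hz⟩ := hz
    exact ⟨(h2 x hx).trans hz.1.le, hz.2.le.trans (h3 x hx)⟩
  have hm := measure_biUnion_finset (μ := (volume : Measure ℝ)) hdis
    (fun x _ => measurableSet_Ioo)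
  have hle := measure_mono (μ := (volume : Measure ℝ)) hsub
  rw [hm, Real.volume_Icc] at hle
  have h4 : ∑ x ∈ s, volume (Ioo (a x) (b x)) = ENNReal.ofReal (∑ x ∈ s, (b x - a x)) := by
    rw [ENNReal.ofReal_sum_of_nonneg (fun x hx => sub_nonneg.2 (h1 x hx))]
    exact Finset.sum_congr rfl fun x _ => Real.volume_Ioo
  rw [h4] at hle
  exact (ENNReal.ofReal_le_ofReal_iff (sub_nonneg.2 hab)).1 hle

end Pool.Agent.H66.GSC
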