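import Mathlib
import Pool.Agent.H66.GSC.Cell
import Pool.Agent.H66.GSC.Emb

/-!
# GSC-15: property (alpha) and the loads of the cells

PROOF.  `alpha`: by `sep`, either `P j ≤ P i - L i ≤ P i - 10000 T i < P i - T i` (impossible, as
`x ≤ P j`, `P i - T i ≤ x`) or `P i + R i ≤ P j`, and `P j - T j ≤ x ≤ P i` gives `R i ≤ T j`.
`far`: `|P j - P i| ≥ min (L i) (R i)`.
`load1`: two different indices `i < j` in the sum are impossible, since both `P i`, `P j` lie in the cell of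
length `≤ 12 ρ = 60 (9/10)^n T i < 10000 T i` (`far`).  So all terms have the same `i`, and
`(9/10)^n T i ≤ (h/2^l)/30` for all of them: the geometric sum is `≤ 10 (h/2^l)/30`.
`load2`: the intervals `[P i - T i, P i]` are inside the cell and pairwise disjoint: for `i < j` in the
sum with a common point, `alpha` gives `R i ≤ T j ≤ R j / 10000`, but
`R i ≥ h/2^l/6 - T i ≥ h/2^l/7` and `R j ≤ h/2^l`.  Use `sum_disj`.
-/

set_option autoImplicit false
open Set Filter Topology MeasureTheory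

namespace Pool.Agent.H66.GSC

theorem alpha {I : Finset ℕ} {P L R T : ℕ → ℝ} {ε : ℝ} (h : Dat I P L R T ε) {i j : ℕ}
    (hi : i ∈ I) (hj : j ∈ I) (hij : i < j) {x : ℝ} (h1 : P i - T i ≤ x) (h2 : x ≤ P i)
    (h3 : P j - T j ≤ x) (h4 : x ≤ P j) : R i ≤ T j := by
  have hs := h.sep i hi j hj hij
  have hT := h.T0 i hi
  have hL := h.TL i hi
  by_cases hc : P i - L i < P j
  · have hc2 : ¬ (P j < P i + R i) := fun hc2 => hs ⟨hc, hc2⟩
    push Not at hc2
    linarith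
  · push Not at hc
    exfalso
    linarith

theorem far {I : Finset ℕ} {P L R T : ℕ → ℝ} {ε : ℝ} (h : Dat I P L R T ε) {i j : ℕ}
    (hi : i ∈ I) (hj : j ∈ I) (hij : i < j) : 10000 * T i ≤ |P j - P i| := by
  have hs := h.sep i hi j hj hij
  have hL := h.TL i hi
  have hR := h.TR i hi
  by_cases hc : P i - L i < P j
  · have hc2 : ¬ (P j < P i + R i) := fun hc2 => hs ⟨hc, hc2⟩
    push Not at hc2
    exact le_trans (by linarith) (le_abs_self _)
  · push Not at hc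
    exact le_trans (by linarith) (neg_le_abs _)

/-- a geometric sum over a finite set of indices -/
theorem alp_geom (S : Finset ℕ) {t c : ℝ} (ht : 0 ≤ t) (hc : 0 ≤ c)
    (h : ∀ n ∈ S, (9 / 10 : ℝ) ^ n * t ≤ c) : ∑ n ∈ S, (9 / 10 : ℝ) ^ n * t ≤ 10 * c := by
  rcases S.eq_empty_or_nonempty with hS | hS
  · subst hS
    simp only [Finset.sum_empty]
    positivity
  · set n1 := S.min' hS with hn1
    have hmem : n1 ∈ S := S.min'_mem hS
    obtain ⟨N, hN⟩ : ∃ N, ∀ n ∈ S, n < N := by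
      refine ⟨S.sup id + 1, fun n hn => ?_⟩
      exact Nat.lt_succ_of_le (Finset.le_sup (f := id) hn)
    have hsub : S ⊆ Finset.Ico n1 N := fun n hn =>
      Finset.mem_Ico.2 ⟨S.min'_le n hn, hN n hn⟩
    have h1 : ∑ n ∈ S, (9 / 10 : ℝ) ^ n * t ≤ ∑ n ∈ Finset.Ico n1 N, (9 / 10 : ℝ) ^ n * t :=
      Finset.sum_le_sum_of_subset_of_nonneg hsub (fun _ _ _ => by positivity)
    have h2 : ∑ n ∈ Finset.Ico n1 N, (9 / 10 : ℝ) ^ n * t =
        ((9 / 10 : ℝ) ^ n1 * t) * ∑ m ∈ Finset.range (N - n1), (9 / 10 : ℝ) ^ m := by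
      rw [Finset.sum_Ico_eq_sum_range, Finset.mul_sum]
      refine Finset.sum_congr rfl (fun m _ => ?_)
      rw [pow_add]
      ring
    have h3 : ∑ m ∈ Finset.range (N - n1), (9 / 10 : ℝ) ^ m ≤ 10 := by
      have h4 : ∀ K : ℕ, ∑ m ∈ Finset.range K, (9 / 10 : ℝ) ^ m = 10 - 10 * (9 / 10 : ℝ) ^ K := by
        intro K
        induction K with
        | zero => simp
        | succ K ih => rw [Finset.sum_range_succ, ih, pow_succ]; ring
      rw [h4]
      have : (0 : ℝ) ≤ (9 / 10 : ℝ) ^ (N - n1) := by positivity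
      linarith
    calc ∑ n ∈ S, (9 / 10 : ℝ) ^ n * t ≤ _ := h1
      _ = _ := h2
      _ ≤ c * 10 := by
        apply mul_le_mul (h n1 hmem) h3 _ hc
        exact Finset.sum_nonneg (fun _ _ => by positivity)
      _ = 10 * c := by ring

theorem load1 {I : Finset ℕ} {P L R T : ℕ → ℝ} {ε : ℝ} (hd : Dat I P L R T ε) {h : ℝ}
    (h0 : 0 < h) {K0 : ℕ} (M : ℕ) (g l k : ℕ → ℕ → ℕ)
    (hc : ∀ i ∈ I, ∀ n < M, Cl h K0 (g i n) (l i n) (k i n) (P i - 5 * ((9 / 10) ^ n * T i))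
      (P i + 5 * ((9 / 10) ^ n * T i))) (g0 l0 k0 : ℕ) :
    ∑ x ∈ (I ×ˢ Finset.range M).filter (fun x => g x.1 x.2 = g0 ∧ l x.1 x.2 = l0 ∧ k x.1 x.2 = k0),
      (9 / 10 : ℝ) ^ x.2 * T x.1 ≤ h * (1 / 2 : ℝ) ^ l0 := by
  set s := (I ×ˢ Finset.range M).filter
    (fun x => g x.1 x.2 = g0 ∧ l x.1 x.2 = l0 ∧ k x.1 x.2 = k0) with hs
  have hpow : h * (1 / 2 : ℝ) ^ l0 = h / 2 ^ l0 := by
    rw [one_div, inv_pow]; rfl
  have hpos : 0 < h / 2 ^ l0 := by positivity
  have hcell : ∀ x ∈ s, x.1 ∈ I ∧ x.2 < M ∧ Cl h K0 g0 l0 k0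
      (P x.1 - 5 * ((9 / 10) ^ x.2 * T x.1)) (P x.1 + 5 * ((9 / 10) ^ x.2 * T x.1)) := by
    intro x hx
    rw [hs, Finset.mem_filter, Finset.mem_product, Finset.mem_range] at hx
    obtain ⟨⟨hx1, hx2⟩, hg, hl, hk⟩ := hx
    refine ⟨hx1, hx2, ?_⟩
    have := hc x.1 hx1 x.2 hx2
    rw [hg, hl, hk] at this
    exact this
  have hsame : ∀ x ∈ s, ∀ y ∈ s, ¬ (x.1 < y.1) := by
    intro x hx y hy hlt
    obtain ⟨hx1, hx2, hx3⟩ := hcell x hx
    obtain ⟨hy1, hy2, hy3⟩ := hcell y hy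
    have hf := far hd hx1 hy1 hlt
    have hTx := hd.T0 x.1 hx1
    have hTy := hd.T0 y.1 hy1
    have e1 : 0 < (9 / 10 : ℝ) ^ x.2 * T x.1 := by positivity
    have e2 : 0 < (9 / 10 : ℝ) ^ y.2 * T y.1 := by positivity
    have e3 : (9 / 10 : ℝ) ^ x.2 * T x.1 ≤ T x.1 := by
      have : (9 / 10 : ℝ) ^ x.2 ≤ 1 := pow_le_one₀ (by norm_num) (by norm_num)
      nlinarith
    have a1 := hx3.ha
    have a2 := hx3.hb
    have a3 := hx3.hi
    have b1 := hy3.ha
    have b2 := hy3.hb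
    have habs : |P y.1 - P x.1| ≤ h / 2 ^ l0 := by
      rw [abs_le]
      constructor <;> linarith
    linarith
  rw [hpow]
  rcases s.eq_empty_or_nonempty with hse | ⟨x0, hx0⟩
  · rw [hse, Finset.sum_empty]
    exact hpos.le
  · have heq : ∀ x ∈ s, x.1 = x0.1 := by
      intro x hx
      have e1 := hsame x hx x0 hx0
      have e2 := hsame x0 hx0 x hx
      omega
    obtain ⟨hi0, _, _⟩ := hcell x0 hx0
    have hT0 := hd.T0 x0.1 hi0
    have hsum : ∑ x ∈ s, (9 / 10 : ℝ) ^ x.2 * T x.1 =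
        ∑ n ∈ s.image Prod.snd, (9 / 10 : ℝ) ^ n * T x0.1 := by
      rw [Finset.sum_image]
      · refine Finset.sum_congr rfl (fun x hx => ?_)
        rw [heq x hx]
      · intro x hx y hy hxy
        exact Prod.ext ((heq x hx).trans (heq y hy).symm) hxy
    rw [hsum]
    have hg := alp_geom (s.image Prod.snd) (t := T x0.1) (c := h / 2 ^ l0 / 30) hT0.le
      (by positivity) (by
        intro n hn
        obtain ⟨x, hx, hxn⟩ := Finset.mem_image.1 hn
        obtain ⟨hx1, hx2, hx3⟩ := hcell x hx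
        have a := hx3.lo
        rw [heq x hx, hxn] at a
        linarith)
    linarith

theorem load2 {I : Finset ℕ} {P L R T : ℕ → ℝ} {ε : ℝ} (hd : Dat I P L R T ε) {h : ℝ}
    (h0 : 0 < h) {K0 : ℕ} (g l k : ℕ → ℕ)
    (hc : ∀ i ∈ I, Cl h K0 (g i) (l i) (k i) (P i - T i) (P i + R i)) (g0 l0 k0 : ℕ) :
    ∑ i ∈ I.filter (fun i => g i = g0 ∧ l i = l0 ∧ k i = k0), T i ≤ h * (1 / 2 : ℝ) ^ l0 := by
  set s := I.filter (fun i => g i = g0 ∧ l i = l0 ∧ k i = k0) with hs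
  have hpow : h * (1 / 2 : ℝ) ^ l0 = h / 2 ^ l0 := by
    rw [one_div, inv_pow]; rfl
  have hpos : 0 < h / 2 ^ l0 := by positivity
  have hcell : ∀ i ∈ s, i ∈ I ∧ Cl h K0 g0 l0 k0 (P i - T i) (P i + R i) := by
    intro i hi
    rw [hs, Finset.mem_filter] at hi
    obtain ⟨hi1, hg, hl, hk⟩ := hi
    refine ⟨hi1, ?_⟩
    have := hc i hi1
    rw [hg, hl, hk] at this
    exact this
  have hdis : ∀ i ∈ s, ∀ j ∈ s, i < j → P i ≤ P j - T j ∨ P j ≤ P i - T i := by
    intro i hi j hj hij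
    by_contra hcon
    push Not at hcon
    obtain ⟨c1, c2⟩ := hcon
    obtain ⟨hi1, hi2⟩ := hcell i hi
    obtain ⟨hj1, hj2⟩ := hcell j hj
    have hTi := hd.T0 i hi1
    have hTj := hd.T0 j hj1
    have hal := alpha hd hi1 hj1 hij (x := max (P i - T i) (P j - T j)) (le_max_left _ _)
      (max_le (by linarith) c1.le) (le_max_right _ _) (max_le c2.le (by linarith))
    have a1 := hi2.hi
    have a2 := hd.TR i hi1
    have a3 := hd.TR j hj1
    have b1 := hj2.ha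
    have b2 := hj2.hb
    linarith
  rw [hpow]
  have hmain := sum_disj s (fun i => P i - T i) P (α := ce (gr h g0) h l0 k0)
    (β := ce (gr h g0) h l0 k0 + h / 2 ^ l0) (by linarith)
    (fun i hi => by have := hd.T0 i (hcell i hi).1; linarith)
    (fun i hi => (hcell i hi).2.ha)
    (fun i hi => by
      have h1 := (hcell i hi).2.hb
      have h2 := hd.TR i (hcell i hi).1
      have h3 := hd.T0 i (hcell i hi).1
      linarith)
    (fun i hi j hj hij => by
      rcases lt_or_gt_of_ne hij with hlt | hgt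
      · exact hdis i hi j hj hlt
      · exact (hdis j hj i hi hgt).symm)
  have hsum : ∑ i ∈ s, T i = ∑ i ∈ s, (P i - (P i - T i)) :=
    Finset.sum_congr rfl (fun i _ => by ring)
  rw [hsum]
  linarith

end Pool.Agent.H66.GSC
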