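import Mathlib
import Pool.Agent.H66.GSC.Grd
import Pool.Agent.H14.GSC.HolF

/-!
# GSC-11: Hölder control on all cells with square summable constants (L1)

PROOF.  `κ = hr 2 / 2` (`= 2^(-3/4)`), `f = fa a r h`, `Δ l k = (f (l+1) (2k+1) - f (l+1) (2k)) / 2`.
`B l k` by downward recursion: `B l k = η` for `l ≥ L`, and for `l < L`
`B l k = |Δ l k| + κ max (B (l+1) (2k)) (B (l+1) (2k+1))` (in Lean: recursion on the depth `L - l`).
Claim (a) (downward induction on `l`; cell `[x0, x0 + h']`, `h' = h / 2 ^ l`, `m = f l k`): for `y` in the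
cell `|∫_{x0}^y (a - m)| ≤ h' B hr ((y - x0)/h')` and `|∫_y^{x0+h'} (a - m)| ≤ h' B hr ((x0+h'-y)/h')`.
(Level `L`: `|a - m| ≤ η` and `s ≤ hr s` for `s ≤ 1`.  Step, `y` in the left child, `m' = m - Δ`:
`|∫_{x0}^y| ≤ (h'/2) B' hr (2 s) + s h' |Δ|` with `s = (y - x0)/h' ≤ 1/2`, `hr (2 s) = hr 2 hr s`.  `y` in
the right child: `∫_{x0}^y = - ∫_y^{x0+h'}` and `x0 + h' - y ≤ y - x0`, so the same bound works.)
Claim (b): for `y ≤ z` in the cell `|∫_y^z (a - m)| ≤ 2 h' B hr ((z - y)/h')` (both in one child: the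
child's (b) and `|Δ|`; separated by the middle: (a) for the two children, each `≤ κ h' B' hr s + ...`).
`D = 2 B`.  Sum: `B² ≤ 6 Δ² + (6/5) κ² (B'² + B''²)`, `(6/5) 2 κ² ≤ 17/20`; with
`S l = ∑_k (1/2)^l B²`: `S l ≤ 6 X l + (17/20) S (l+1)`, `S L ≤ K0 η²`, `∑ X l ≤ K0 η²` (`bessel`,
`arr_fa`), so `∑_{l ≤ L} S l ≤ 7 K0 η² * 20/3`, and `4 * 140/3 ≤ 3000`.
-/

set_option autoImplicit false
open Set Filter Topology MeasureTheory

namespace Pool.Agent.H66.GSC

/-- Hölder control on the cell `(l, k)` with the constant `D` -/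
def HolC (a : ℝ → ℝ) (r h : ℝ) (l k : ℕ) (D : ℝ) : Prop :=
  0 ≤ D ∧ ∀ y z : ℝ, ce r h l k ≤ y → y ≤ z → z ≤ ce r h l k + h / 2 ^ l →
    |∫ x in y..z, (a x - fa a r h l k)| ≤ h / 2 ^ l * D * hr ((z - y) / (h / 2 ^ l))

theorem hol_prim {a : ℝ → ℝ} (ha : Continuous a) (r x y : ℝ) :
    (∫ z in r..y, a z) - ∫ z in r..x, a z = ∫ z in x..y, a z := by
  rw [intervalIntegral.integral_interval_sub_left] <;> exact ha.intervalIntegrable _ _

theorem hol_fa {a : ℝ → ℝ} (ha : Continuous a) (r h : ℝ) (l k : ℕ) :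
    H14.GSC.M.mF (fun y => ∫ z in r..y, a z) r h l k = fa a r h l k := by
  unfold H14.GSC.M.mF fa
  simp only
  rw [hol_prim ha]

theorem hol_diff {a : ℝ → ℝ} (ha : Continuous a) (r x y m : ℝ) :
    ∫ z in x..y, (a z - m) =
      (∫ z in r..y, a z) - (∫ z in r..x, a z) - m * (y - x) := by
  rw [hol_prim ha, intervalIntegral.integral_sub (ha.intervalIntegrable _ _)
    (continuous_const.intervalIntegrable _ _), intervalIntegral.integral_const, smul_eq_mul]
  ring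

theorem hol_base {a : ℝ → ℝ} (ha : Continuous a) {r h η : ℝ} (hh : 0 < h) (K0 : ℕ)
    (hosc : ∀ x ∈ Icc r (r + K0 * h), ∀ y ∈ Icc r (r + K0 * h), |x - y| ≤ h → |a x - a y| ≤ η) :
    H14.GSC.M.Base (fun y => ∫ z in r..y, a z) r h K0 η := by
  intro l k x y hk hx hxy hy
  rw [hol_fa ha, ← hol_diff ha]
  have hsz : (0 : ℝ) < h / 2 ^ l := by positivity
  have h2 : (1 : ℝ) ≤ 2 ^ l := one_le_pow₀ (by norm_num)
  have hsh : h / 2 ^ l ≤ h := div_le_self hh.le h2
  -- the cell is inside `[r, r + K0 h]`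
  have hc0 : r ≤ ce r h l k := by
    unfold ce
    have : 0 ≤ (k : ℝ) * (h / 2 ^ l) := by positivity
    linarith
  have hc1 : ce r h l k + h / 2 ^ l ≤ r + K0 * h := by
    unfold ce
    have h3 : ((k : ℝ) + 1) ≤ K0 * 2 ^ l := by exact_mod_cast hk
    have h4 : ((k : ℝ) + 1) * (h / 2 ^ l) ≤ K0 * 2 ^ l * (h / 2 ^ l) :=
      mul_le_mul_of_nonneg_right h3 hsz.le
    have h5 : (K0 : ℝ) * 2 ^ l * (h / 2 ^ l) = K0 * h := by field_simp
    linarith
  -- `|a z - fa| ≤ η` on the cell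
  have hm : ∀ z, ce r h l k ≤ z → z ≤ ce r h l k + h / 2 ^ l → |a z - fa a r h l k| ≤ η := by
    intro z hz1 hz2
    have e : a z - fa a r h l k =
        (∫ w in (ce r h l k)..(ce r h l k + h / 2 ^ l), (a z - a w)) / (h / 2 ^ l) := by
      rw [intervalIntegral.integral_sub (continuous_const.intervalIntegrable _ _)
        (ha.intervalIntegrable _ _), intervalIntegral.integral_const, smul_eq_mul]
      unfold fa
      field_simp
      ring
    rw [e, abs_div, abs_of_pos hsz, div_le_iff₀ hsz]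
    have h6 : ‖∫ w in (ce r h l k)..(ce r h l k + h / 2 ^ l), (a z - a w)‖ ≤
        η * |ce r h l k + h / 2 ^ l - ce r h l k| := by
      apply intervalIntegral.norm_integral_le_of_norm_le_const
      intro w hw
      rw [uIoc_of_le (by linarith)] at hw
      rw [Real.norm_eq_abs]
      apply hosc z ⟨by linarith, by linarith⟩ w ⟨by linarith [hw.1], by linarith [hw.2]⟩
      rw [abs_le]
      constructor <;> linarith [hw.1, hw.2]
    rw [Real.norm_eq_abs, add_sub_cancel_left, abs_of_pos hsz] at h6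
    exact h6
  have h7 : ‖∫ z in x..y, (a z - fa a r h l k)‖ ≤ η * |y - x| := by
    apply intervalIntegral.norm_integral_le_of_norm_le_const
    intro w hw
    rw [uIoc_of_le hxy] at hw
    rw [Real.norm_eq_abs]
    exact hm w (by linarith [hw.1]) (by linarith [hw.2])
  rw [Real.norm_eq_abs, abs_of_nonneg (by linarith : (0 : ℝ) ≤ y - x)] at h7
  exact h7

theorem hol {a : ℝ → ℝ} (ha : Continuous a) {r h η : ℝ} (hh : 0 < h) (hη : 0 ≤ η) (K0 : ℕ)
    (hosc : ∀ x ∈ Icc r (r + K0 * h), ∀ y ∈ Icc r (r + K0 * h), |x - y| ≤ h → |a x - a y| ≤ η)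
    (L : ℕ) :
    ∃ D : ℕ → ℕ → ℝ, (∀ l ≤ L, ∀ k < K0 * 2 ^ l, HolC a r h l k (D l k)) ∧
      ∑ l ∈ Finset.range (L + 1), ∑ k ∈ Finset.range (K0 * 2 ^ l), (1 / 2 : ℝ) ^ l * D l k ^ 2 ≤
        3000 * (K0 * η ^ 2) := by
  set F : ℝ → ℝ := fun y => ∫ z in r..y, a z with hF
  have hbase : H14.GSC.M.Base F r h K0 η := hol_base ha hh K0 hosc
  have harr := arr_fa ha hh K0 hosc
  have hDF : ∀ l k, H14.GSC.M.DF F r h l k =
      (fa a r h (l + 1) (2 * k + 1) - fa a r h (l + 1) (2 * k)) / 2 := by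
    intro l k
    unfold H14.GSC.M.DF
    rw [hF, hol_fa ha, hol_fa ha]
  have hbes : ∀ M, ∑ n ∈ Finset.range M, H14.GSC.M.En K0 (H14.GSC.M.DF F r h) n ≤ K0 * η ^ 2 := by
    intro M
    have h1 := bessel harr M
    unfold H14.GSC.M.En
    simp only [hDF]
    exact h1
  obtain ⟨d, hd⟩ := H14.GSC.M.exists_depthA (H14.GSC.M.DF F r h) η K0 (K0 * η ^ 2) 1 one_pos
    hbes (L + 1)
  refine ⟨fun l k => 2 * H14.GSC.M.mA (H14.GSC.M.DF F r h) η d l k, ?_, ?_⟩
  · intro l _ k hk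
    have hA := H14.GSC.M.mA_nonneg (H14.GSC.M.DF F r h) η hη d l k
    refine ⟨by positivity, fun y z hy hyz hz => ?_⟩
    have h1 := H14.GSC.M.m2_bound F r h hh K0 η hη hbase d l k hk y z hy hyz hz
    rw [hF, hol_fa ha] at h1
    simp only at h1
    rw [← hol_diff ha] at h1
    unfold H14.GSC.M.wg at h1
    rw [hF]
    calc |∫ x in y..z, (a x - fa a r h l k)| ≤ _ := h1
      _ = _ := by ring
  · have h2 : ∑ l ∈ Finset.range (L + 1), ∑ k ∈ Finset.range (K0 * 2 ^ l),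
        (1 / 2 : ℝ) ^ l * (2 * H14.GSC.M.mA (H14.GSC.M.DF F r h) η d l k) ^ 2 =
        4 * ∑ n ∈ Finset.range (L + 1), H14.GSC.M.En K0
          (H14.GSC.M.mA (H14.GSC.M.DF F r h) η d) n := by
      unfold H14.GSC.M.En
      rw [Finset.mul_sum]
      refine Finset.sum_congr rfl fun l _ => ?_
      rw [Finset.mul_sum]
      refine Finset.sum_congr rfl fun k _ => ?_
      ring
    rw [h2]
    have h3 : 0 ≤ (K0 : ℝ) * η ^ 2 := by positivity
    linarith

end Pool.Agent.H66.GSC
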