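import Mathlib
import Pool.Agent.H66.GSC.Hol

/-!
# GSC-14: comparison of means with the mean over a cell

PROOF.  `cmp_mean`: `∫_y^z (a - m)`, `hr ≤ 1`.  `cmp_ap`: integration by parts:
`∫_P^{P+R} (P + R - z) (a z - m) dz = ∫_P^{P+R} (∫_P^z (a - m)) dz`, `|∫_P^z (a - m)| ≤ (h/2^l) D`;
`(2/R²) ∫_P^{P+R} (P + R - z) dz = 1`.  `cmp_osc`: `|∫_x^y (a - m_J)| ≤ |∫_x^y (a - m)| + |y - x| |m - m_J|`,
`m_J = mn a P ρ`, `|m - m_J| ≤ 6 D` (`cmp_mean`, `h/2^l ≤ 12 ρ`); `|y - x|/ρ ≤ 2` so
`|y - x|/ρ ≤ (17/10) hr (|y - x|/ρ)` (`le_hr_mul` with `c⁴ ≥ 2`, `c³ ≤ 17/10`: `c = 119/100`).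
-/

set_option autoImplicit false
open Set Filter Topology MeasureTheory

namespace Pool.Agent.H66.GSC

/-- the integral of `a - m` is at most `(h/2^l) D` on any sub-interval of the cell -/
theorem cmp_aux_le {a : ℝ → ℝ} {r h D y z : ℝ} (hh : 0 < h) {l k : ℕ}
    (hD : HolC a r h l k D) (h1 : ce r h l k ≤ y) (hyz : y ≤ z)
    (h2 : z ≤ ce r h l k + h / 2 ^ l) :
    |∫ x in y..z, (a x - fa a r h l k)| ≤ h / 2 ^ l * D := by
  obtain ⟨hD0, hD1⟩ := hD
  have hl : 0 < h / 2 ^ l := by positivity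
  have h3 := hD1 y z h1 hyz h2
  have h4 : hr ((z - y) / (h / 2 ^ l)) ≤ 1 := by
    apply hr_le_one
    rw [div_le_one hl]
    linarith
  have h5 : h / 2 ^ l * D * hr ((z - y) / (h / 2 ^ l)) ≤ h / 2 ^ l * D * 1 :=
    mul_le_mul_of_nonneg_left h4 (by positivity)
  linarith

theorem cmp_mean {a : ℝ → ℝ} (ha : Continuous a) {r h D y z : ℝ} (hh : 0 < h) {l k : ℕ}
    (hD : HolC a r h l k D) (h1 : ce r h l k ≤ y) (hyz : y < z) (h2 : z ≤ ce r h l k + h / 2 ^ l) :
    |(∫ x in y..z, a x) / (z - y) - fa a r h l k| ≤ h / 2 ^ l / (z - y) * D := by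
  have h3 := cmp_aux_le hh hD h1 hyz.le h2
  have hpos : 0 < z - y := sub_pos.2 hyz
  have h4 : ∫ x in y..z, (a x - fa a r h l k) = (∫ x in y..z, a x) - fa a r h l k * (z - y) := by
    rw [intervalIntegral.integral_sub (ha.intervalIntegrable _ _)
      (continuous_const.intervalIntegrable _ _), intervalIntegral.integral_const, smul_eq_mul]
    ring
  have h5 : (∫ x in y..z, a x) / (z - y) - fa a r h l k =
      (∫ x in y..z, (a x - fa a r h l k)) / (z - y) := by
    rw [h4]
    field_simp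
  rw [h5, abs_div, abs_of_pos hpos]
  calc |∫ x in y..z, (a x - fa a r h l k)| / (z - y) ≤ (h / 2 ^ l * D) / (z - y) := by
        gcongr
    _ = h / 2 ^ l / (z - y) * D := by ring

theorem cmp_ap {a : ℝ → ℝ} (ha : Continuous a) {r h D P R : ℝ} (hh : 0 < h) {l k : ℕ}
    (hD : HolC a r h l k D) (hR : 0 < R) (h1 : ce r h l k ≤ P)
    (h2 : P + R ≤ ce r h l k + h / 2 ^ l) :
    |Ap a P R - fa a r h l k| ≤ 2 * (h / 2 ^ l) * D / R := by
  set m := fa a r h l k with hm
  have hc : Continuous (fun z => a z - m) := ha.sub continuous_const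
  have hF : ∀ z, HasDerivAt (fun z => ∫ x in P..z, (a x - m)) (a z - m) z := fun z =>
    intervalIntegral.integral_hasDerivAt_right (hc.intervalIntegrable _ _)
      (hc.stronglyMeasurableAtFilter _ _) hc.continuousAt
  have hG : ∀ z, HasDerivAt (fun z => P + R - z) (-1) z := fun z => by
    simpa using (hasDerivAt_id z).const_sub (P + R)
  have hFc : Continuous (fun z => ∫ x in P..z, (a x - m)) :=
    continuous_iff_continuousAt.2 fun z => (hF z).continuousAt
  have hparts := intervalIntegral.integral_mul_deriv_eq_deriv_mul (a := P) (b := P + R)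
    (u := fun z => P + R - z) (v := fun z => ∫ x in P..z, (a x - m))
    (u' := fun _ => (-1 : ℝ)) (v' := fun z => a z - m)
    (fun z _ => hG z) (fun z _ => hF z) (continuous_const.intervalIntegrable _ _)
    (hc.intervalIntegrable _ _)
  have h3 : ∫ z in P..(P + R), (P + R - z) * (a z - m) =
      ∫ z in P..(P + R), (∫ x in P..z, (a x - m)) := by
    rw [hparts]
    simp
  have h4 : ∫ z in P..(P + R), (P + R - z) = R ^ 2 / 2 := by
    have e := intervalIntegral.integral_sub (μ := volume) (a := P) (b := P + R)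
      (f := fun _ => P + R) (g := fun z => z) (continuous_const.intervalIntegrable _ _)
      (continuous_id.intervalIntegrable _ _)
    rw [e, intervalIntegral.integral_const, integral_id, smul_eq_mul]
    ring
  have h5 : ∫ z in P..(P + R), (P + R - z) * (a z - m) =
      (∫ z in P..(P + R), (P + R - z) * a z) - m * (R ^ 2 / 2) := by
    rw [← h4, ← intervalIntegral.integral_const_mul, ← intervalIntegral.integral_sub]
    · apply intervalIntegral.integral_congr
      intro z _
      simp only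
      ring
    · exact (Continuous.mul (by fun_prop) ha).intervalIntegrable _ _
    · exact (Continuous.intervalIntegrable (by fun_prop) _ _)
  have h6 : Ap a P R - m = 2 / R ^ 2 * ∫ z in P..(P + R), (∫ x in P..z, (a x - m)) := by
    rw [← h3, h5]
    unfold Ap
    field_simp
  have h7 : |∫ z in P..(P + R), (∫ x in P..z, (a x - m))| ≤ (h / 2 ^ l * D) * |P + R - P| := by
    rw [← Real.norm_eq_abs]
    apply intervalIntegral.norm_integral_le_of_norm_le_const
    intro z hz
    rw [uIoc_of_le (by linarith)] at hz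
    rw [Real.norm_eq_abs]
    exact cmp_aux_le hh hD h1 hz.1.le (hz.2.trans h2)
  rw [h6, abs_mul, abs_of_pos (by positivity : (0 : ℝ) < 2 / R ^ 2)]
  have h8 : |P + R - P| = R := by rw [add_sub_cancel_left, abs_of_pos hR]
  rw [h8] at h7
  calc 2 / R ^ 2 * |∫ z in P..(P + R), (∫ x in P..z, (a x - m))|
      ≤ 2 / R ^ 2 * ((h / 2 ^ l * D) * R) := by gcongr
    _ = 2 * (h / 2 ^ l) * D / R := by field_simp

theorem cmp_osc {a : ℝ → ℝ} (ha : Continuous a) {r h D P ρ : ℝ} (hh : 0 < h) {l k : ℕ}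
    (hD : HolC a r h l k D) (hρ : 0 < ρ) (h1 : ce r h l k ≤ P - ρ)
    (h2 : P + ρ ≤ ce r h l k + h / 2 ^ l) (h3 : h / 2 ^ l ≤ 12 * ρ) :
    Osc a P ρ (mn a P ρ) (ρ * (23 * D)) := by
  have hD0 : 0 ≤ D := hD.1
  have hl : 0 < h / 2 ^ l := by positivity
  have hm1 := cmp_mean ha hh hD h1 (by linarith : P - ρ < P + ρ) h2
  have e1 : P + ρ - (P - ρ) = 2 * ρ := by ring
  rw [e1] at hm1
  have hm2 : |mn a P ρ - fa a r h l k| ≤ 6 * D := by
    refine hm1.trans ?_
    have : h / 2 ^ l / (2 * ρ) ≤ 6 := by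
      rw [div_le_iff₀ (by positivity)]
      linarith
    exact mul_le_mul_of_nonneg_right this hD0
  refine ⟨by positivity, ?_⟩
  -- the case `x ≤ y`
  have key : ∀ x ∈ Icc (P - ρ) (P + ρ), ∀ y ∈ Icc (P - ρ) (P + ρ), x ≤ y →
      |∫ z in x..y, (a z - mn a P ρ)| ≤ ρ * (23 * D) * hr (|y - x| / ρ) := by
    intro x hx y hy hxy
    have hd : |y - x| = y - x := abs_of_nonneg (by linarith)
    rw [hd]
    have g1 := hD.2 x y (h1.trans hx.1) hxy (hy.2.trans h2)
    have g2 : ∫ z in x..y, (a z - mn a P ρ) =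
        (∫ z in x..y, (a z - fa a r h l k)) - (mn a P ρ - fa a r h l k) * (y - x) := by
      rw [intervalIntegral.integral_sub (ha.intervalIntegrable _ _)
        (continuous_const.intervalIntegrable _ _),
        intervalIntegral.integral_sub (ha.intervalIntegrable _ _)
        (continuous_const.intervalIntegrable _ _), intervalIntegral.integral_const,
        intervalIntegral.integral_const, smul_eq_mul, smul_eq_mul]
      ring
    have g3 : |∫ z in x..y, (a z - mn a P ρ)| ≤
        |∫ z in x..y, (a z - fa a r h l k)| + |mn a P ρ - fa a r h l k| * (y - x) := by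
      rw [g2]
      refine (abs_sub _ _).trans ?_
      rw [abs_mul, abs_of_nonneg (by linarith : (0 : ℝ) ≤ y - x)]
    have g4 : hr ((y - x) / (h / 2 ^ l)) ≤ hr ((y - x) / ρ) := by
      apply hr_mono
      apply div_le_div_of_nonneg_left (by linarith) hρ
      linarith
    have g5 : (y - x) / ρ ≤ 17 / 10 * hr ((y - x) / ρ) := by
      have q0 : 0 ≤ (y - x) / ρ := div_nonneg (by linarith) hρ.le
      have q1 : (y - x) / ρ ≤ 2 := by
        rw [div_le_iff₀ hρ]
        linarith [hx.1, hy.2]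
      have q2 := le_hr_mul q0 (by norm_num : (0 : ℝ) ≤ 119 / 100) (q1.trans (by norm_num))
      have q3 := hr_nonneg ((y - x) / ρ)
      nlinarith
    have g6 : y - x ≤ ρ * (17 / 10 * hr ((y - x) / ρ)) := by
      have : y - x = ρ * ((y - x) / ρ) := by field_simp
      rw [this]
      have : (ρ * ((y - x) / ρ)) / ρ = (y - x) / ρ := by field_simp
      rw [this]
      exact mul_le_mul_of_nonneg_left g5 hρ.le
    have q3 := hr_nonneg ((y - x) / ρ)
    have g7 : h / 2 ^ l * D * hr ((y - x) / (h / 2 ^ l)) ≤ 12 * ρ * D * hr ((y - x) / ρ) := by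
      have := hr_nonneg ((y - x) / (h / 2 ^ l))
      gcongr
    have g8 : |mn a P ρ - fa a r h l k| * (y - x) ≤
        6 * D * (ρ * (17 / 10 * hr ((y - x) / ρ))) := by
      have : 0 ≤ y - x := by linarith
      gcongr
    have g9 : 0 ≤ ρ * D * hr ((y - x) / ρ) := by positivity
    calc |∫ z in x..y, (a z - mn a P ρ)|
        ≤ 12 * ρ * D * hr ((y - x) / ρ) + 6 * D * (ρ * (17 / 10 * hr ((y - x) / ρ))) := by
          linarith
      _ ≤ ρ * (23 * D) * hr ((y - x) / ρ) := by nlinarith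
  intro x hx y hy
  rcases le_total x y with hxy | hxy
  · exact key x hx y hy hxy
  · have := key y hy x hx hxy
    rw [intervalIntegral.integral_symm, abs_neg, abs_sub_comm y x]
    exact this

end Pool.Agent.H66.GSC
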