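import Mathlib
import Pool.Agent.H66.GSC.Alp
import Pool.Agent.H66.GSC.Cmp

/-!
# GSC-16: the common setting of the energy theorem; the choice of the cells; the oscillation part

`Uc a h η K0`: `a` oscillates by at most `η` on intervals of length `h` in `[-10, 10]`, `K0 h = 18`.
`CD`: chosen cells `(gg i n, ll i n, kk i n)` for the intervals `[P i - ρ, P i + ρ]`,
`ρ = 5 ((9/10)^n T i)`, and constants `D g l k` for all cells of both grids of level at most `Lm`.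

PROOF.  `en_cells`: `cell_choice` for each `(i, n)` (the interval has length `10 (9/10)^n T i ≤ ε/1000`
and lies in `[-8, 8]`) and `cell_choice` for `[P i - T i, P i + R i]`; `Lm` = the maximum of `Lmin` and the
finitely many levels of all these cells; then `hol` on the two grids (`gr h g ≥ -10`, `gr h g + 18 ≤ 9`).
`en_w1`: `∑_i ∑_n (9/10)^n T i D(Q_{i,n})² ≤ 2 * (h * 3000 K0 η²)`: for each grid `g0` `embed` on
`(I ×ˢ range M).filter (gg = g0)` with `load1`, `C = h`.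
`en_osc`: `cmp_osc`.
-/

set_option autoImplicit false
open Set Filter Topology MeasureTheory

namespace Pool.Agent.H66.GSC

/-- `a` has small oscillation at the scale `h` -/
structure Uc (a : ℝ → ℝ) (h η : ℝ) (K0 : ℕ) : Prop where
  ct : Continuous a
  h0 : 0 < h
  h1 : h ≤ 1
  η0 : 0 ≤ η
  hK : K0 * h = 18
  osc : ∀ x y : ℝ, |x| ≤ 10 → |y| ≤ 10 → |x - y| ≤ h → |a x - a y| ≤ η

/-- cells and constants -/
structure CD (a : ℝ → ℝ) (h η : ℝ) (K0 : ℕ) (I : Finset ℕ) (P R T : ℕ → ℝ) (M Lm : ℕ)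
    (gg ll kk : ℕ → ℕ → ℕ) (gR lR kR : ℕ → ℕ) (D : ℕ → ℕ → ℕ → ℝ) : Prop where
  c : ∀ i ∈ I, ∀ n < M, Cl h K0 (gg i n) (ll i n) (kk i n) (P i - 5 * ((9 / 10) ^ n * T i))
    (P i + 5 * ((9 / 10) ^ n * T i))
  cL : ∀ i ∈ I, ∀ n < M, ll i n ≤ Lm
  r : ∀ i ∈ I, Cl h K0 (gR i) (lR i) (kR i) (P i - T i) (P i + R i)
  rL : ∀ i ∈ I, lR i ≤ Lm
  hol : ∀ g < 2, ∀ l ≤ Lm, ∀ k < K0 * 2 ^ l, HolC a (gr h g) h l k (D g l k)
  sum : ∀ g < 2, ∑ l ∈ Finset.range (Lm + 1), ∑ k ∈ Finset.range (K0 * 2 ^ l),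
    (1 / 2 : ℝ) ^ l * D g l k ^ 2 ≤ 3000 * (K0 * η ^ 2)

/-- elementary facts on the data -/
theorem enw_bd {I : Finset ℕ} {P L R T : ℕ → ℝ} {ε h : ℝ} (_h1 : h ≤ 1) (hε : 100 * ε ≤ h)
    (hd : Dat I P L R T ε) {i : ℕ} (hi : i ∈ I) :
    0 < T i ∧ 1000000 * T i ≤ h ∧ 100 * R i ≤ h ∧ 0 < R i ∧ -7 ≤ P i ∧ P i ≤ 7 := by
  have h2 := hd.T0 i hi
  have h3 := hd.TL i hi
  have h4 := hd.TR i hi
  have h5 := hd.sm i hi
  have h6 := abs_le.1 (hd.win i hi)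
  refine ⟨h2, by linarith, by linarith, by linarith, h6.1, h6.2⟩

theorem enw_pow (n : ℕ) : 0 < (9 / 10 : ℝ) ^ n ∧ (9 / 10 : ℝ) ^ n ≤ 1 :=
  ⟨by positivity, pow_le_one₀ (by norm_num) (by norm_num)⟩

theorem enw_rho {T : ℝ} (hT : 0 < T) (n : ℕ) :
    0 < (9 / 10 : ℝ) ^ n * T ∧ (9 / 10 : ℝ) ^ n * T ≤ T := by
  obtain ⟨h1, h2⟩ := enw_pow n
  refine ⟨by positivity, ?_⟩
  nlinarith

theorem enw_hol {a : ℝ → ℝ} {h η : ℝ} {K0 : ℕ} (hu : Uc a h η K0) (Lm g : ℕ) :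
    ∃ D : ℕ → ℕ → ℝ, g < 2 → (∀ l ≤ Lm, ∀ k < K0 * 2 ^ l, HolC a (gr h g) h l k (D l k)) ∧
      ∑ l ∈ Finset.range (Lm + 1), ∑ k ∈ Finset.range (K0 * 2 ^ l), (1 / 2 : ℝ) ^ l * D l k ^ 2 ≤
        3000 * (K0 * η ^ 2) := by
  by_cases hg : g < 2
  · have hg1 : (g : ℝ) ≤ 1 := by
      have : g ≤ 1 := by omega
      exact_mod_cast this
    have hg0 : (0 : ℝ) ≤ g := Nat.cast_nonneg g
    have h0 := hu.h0
    have h1 := hu.h1
    have e1 : -10 ≤ gr h g := by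
      unfold gr
      nlinarith
    have e2 : gr h g ≤ -9 := by
      unfold gr
      nlinarith
    obtain ⟨D, hD1, hD2⟩ := hol hu.ct (r := gr h g) hu.h0 hu.η0 K0 (by
      intro x hx y hy hxy
      rw [hu.hK] at hx hy
      apply hu.osc x y _ _ hxy
      · exact abs_le.2 ⟨by linarith [hx.1], by linarith [hx.2]⟩
      · exact abs_le.2 ⟨by linarith [hy.1], by linarith [hy.2]⟩) Lm
    exact ⟨D, fun _ => ⟨hD1, hD2⟩⟩
  · exact ⟨fun _ _ => 0, fun h => absurd h hg⟩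

theorem en_cells {a : ℝ → ℝ} {h η : ℝ} {K0 : ℕ} (hu : Uc a h η K0) {I : Finset ℕ}
    {P L R T : ℕ → ℝ} {ε : ℝ} (hε : 100 * ε ≤ h) (hd : Dat I P L R T ε) (M Lmin : ℕ) :
    ∃ (Lm : ℕ) (gg ll kk : ℕ → ℕ → ℕ) (gR lR kR : ℕ → ℕ) (D : ℕ → ℕ → ℕ → ℝ),
      Lmin ≤ Lm ∧ CD a h η K0 I P R T M Lm gg ll kk gR lR kR D := by
  have hA : ∀ i n : ℕ, ∃ g l k, i ∈ I → Cl h K0 g l k (P i - 5 * ((9 / 10) ^ n * T i))
      (P i + 5 * ((9 / 10) ^ n * T i)) := by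
    intro i n
    by_cases hi : i ∈ I
    · obtain ⟨a1, a2, a3, a4, a5, a6⟩ := enw_bd hu.h1 hε hd hi
      obtain ⟨b1, b2⟩ := enw_rho a1 n
      have hh := hu.h1
      obtain ⟨g, l, k, hc⟩ := cell_choice hu.h0 hu.h1 hu.hK
        (α := P i - 5 * ((9 / 10) ^ n * T i)) (β := P i + 5 * ((9 / 10) ^ n * T i))
        (by linarith) (by linarith) (by linarith) (by linarith)
      exact ⟨g, l, k, fun _ => hc⟩
    · exact ⟨0, 0, 0, fun h => absurd h hi⟩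
  have hB : ∀ i : ℕ, ∃ g l k, i ∈ I → Cl h K0 g l k (P i - T i) (P i + R i) := by
    intro i
    by_cases hi : i ∈ I
    · obtain ⟨a1, a2, a3, a4, a5, a6⟩ := enw_bd hu.h1 hε hd hi
      have hh := hu.h1
      obtain ⟨g, l, k, hc⟩ := cell_choice hu.h0 hu.h1 hu.hK
        (α := P i - T i) (β := P i + R i)
        (by linarith) (by linarith) (by linarith) (by linarith)
      exact ⟨g, l, k, fun _ => hc⟩
    · exact ⟨0, 0, 0, fun h => absurd h hi⟩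
  choose gg ll kk hgg using hA
  choose gR lR kR hgR using hB
  set Lm : ℕ := max Lmin (max (I.sup fun i => (Finset.range M).sup (ll i)) (I.sup lR)) with hLm
  choose D hD using fun g => enw_hol hu Lm g
  refine ⟨Lm, gg, ll, kk, gR, lR, kR, D, le_max_left _ _, ?_⟩
  refine ⟨fun i hi n _ => hgg i n hi, ?_, fun i hi => hgR i hi, ?_, fun g hg => (hD g hg).1,
    fun g hg => (hD g hg).2⟩
  · intro i hi n hn
    have e1 : ll i n ≤ (Finset.range M).sup (ll i) :=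
      Finset.le_sup (f := ll i) (Finset.mem_range.2 hn)
    have e2 : (Finset.range M).sup (ll i) ≤ I.sup fun i => (Finset.range M).sup (ll i) :=
      Finset.le_sup (f := fun i => (Finset.range M).sup (ll i)) hi
    exact (e1.trans e2).trans ((le_max_left _ _).trans (le_max_right _ _))
  · intro i hi
    have e1 : lR i ≤ I.sup lR := Finset.le_sup (f := lR) hi
    exact e1.trans ((le_max_right _ _).trans (le_max_right _ _))

theorem enw_grid {a : ℝ → ℝ} {h η : ℝ} {K0 : ℕ} (hu : Uc a h η K0) {I : Finset ℕ}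
    {P L R T : ℕ → ℝ} {ε : ℝ} (hd : Dat I P L R T ε) {M Lm : ℕ} {gg ll kk : ℕ → ℕ → ℕ}
    {gR lR kR : ℕ → ℕ} {D : ℕ → ℕ → ℕ → ℝ} (hc : CD a h η K0 I P R T M Lm gg ll kk gR lR kR D)
    (g0 : ℕ) (hg0 : g0 < 2) :
    ∑ x ∈ (I ×ˢ Finset.range M).filter (fun x => gg x.1 x.2 = g0),
      (9 / 10 : ℝ) ^ x.2 * T x.1 * D (gg x.1 x.2) (ll x.1 x.2) (kk x.1 x.2) ^ 2 ≤
        54000 * η ^ 2 := by
  have hmem : ∀ x ∈ (I ×ˢ Finset.range M).filter (fun x => gg x.1 x.2 = g0),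
      x.1 ∈ I ∧ x.2 < M ∧ gg x.1 x.2 = g0 := by
    intro x hx
    rw [Finset.mem_filter, Finset.mem_product, Finset.mem_range] at hx
    exact ⟨hx.1.1, hx.1.2, hx.2⟩
  have h1 := embed ((I ×ˢ Finset.range M).filter (fun x => gg x.1 x.2 = g0))
    (fun x => ll x.1 x.2) (fun x => kk x.1 x.2) (fun x => (9 / 10 : ℝ) ^ x.2 * T x.1)
    (by
      intro x hx
      obtain ⟨m1, m2, m3⟩ := hmem x hx
      exact (enw_rho (hd.T0 _ m1) _).1.le)
    (L := Lm) (K0 := K0)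
    (by
      intro x hx
      obtain ⟨m1, m2, m3⟩ := hmem x hx
      exact ⟨hc.cL _ m1 _ m2, (hc.c _ m1 _ m2).hk⟩)
    (C := h) hu.h0.le
    (by
      intro l k
      have h2 := load1 hd hu.h0 (K0 := K0) M gg ll kk hc.c g0 l k
      rw [Finset.filter_filter]
      exact h2)
    (D g0) (hc.sum g0 hg0)
  have h3 : h * (3000 * (K0 * η ^ 2)) = 54000 * η ^ 2 := by
    have := hu.hK
    linear_combination (3000 * η ^ 2) * this
  rw [h3] at h1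
  refine le_trans (le_of_eq ?_) h1
  apply Finset.sum_congr rfl
  intro x hx
  obtain ⟨m1, m2, m3⟩ := hmem x hx
  rw [m3]

theorem en_w1 {a : ℝ → ℝ} {h η : ℝ} {K0 : ℕ} (hu : Uc a h η K0) {I : Finset ℕ}
    {P L R T : ℕ → ℝ} {ε : ℝ} (hd : Dat I P L R T ε) {M Lm : ℕ} {gg ll kk : ℕ → ℕ → ℕ}
    {gR lR kR : ℕ → ℕ} {D : ℕ → ℕ → ℕ → ℝ} (hc : CD a h η K0 I P R T M Lm gg ll kk gR lR kR D) :
    ∑ i ∈ I, ∑ n ∈ Finset.range M,
      (9 / 10 : ℝ) ^ n * T i * D (gg i n) (ll i n) (kk i n) ^ 2 ≤ 108000 * η ^ 2 := by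
  have h0 := enw_grid hu hd hc 0 (by norm_num)
  have h1 := enw_grid hu hd hc 1 (by norm_num)
  rw [← Finset.sum_product' I (Finset.range M)
    (fun i n => (9 / 10 : ℝ) ^ n * T i * D (gg i n) (ll i n) (kk i n) ^ 2)]
  rw [← Finset.sum_filter_add_sum_filter_not (I ×ˢ Finset.range M) (fun x => gg x.1 x.2 = 0)]
  have h2 : (I ×ˢ Finset.range M).filter (fun x => ¬ gg x.1 x.2 = 0) =
      (I ×ˢ Finset.range M).filter (fun x => gg x.1 x.2 = 1) := by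
    apply Finset.filter_congr
    intro x hx
    rw [Finset.mem_product, Finset.mem_range] at hx
    have := (hc.c _ hx.1 _ hx.2).hg
    omega
  rw [h2]
  linarith

theorem en_osc {a : ℝ → ℝ} {h η : ℝ} {K0 : ℕ} (hu : Uc a h η K0) {I : Finset ℕ}
    {P L R T : ℕ → ℝ} {ε : ℝ} (hd : Dat I P L R T ε) {M Lm : ℕ} {gg ll kk : ℕ → ℕ → ℕ}
    {gR lR kR : ℕ → ℕ} {D : ℕ → ℕ → ℕ → ℝ} (hc : CD a h η K0 I P R T M Lm gg ll kk gR lR kR D)
    {i n : ℕ} (hi : i ∈ I) (hn : n < M) :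
    Osc a (P i) (5 * ((9 / 10) ^ n * T i)) (mn a (P i) (5 * ((9 / 10) ^ n * T i)))
      (5 * ((9 / 10) ^ n * T i) * (23 * D (gg i n) (ll i n) (kk i n))) := by
  obtain ⟨b1, b2⟩ := enw_rho (hd.T0 i hi) n
  have hC := hc.c i hi n hn
  have hH := hc.hol _ hC.hg _ (hc.cL i hi n hn) _ hC.hk
  have h3 := hC.hi
  exact cmp_osc hu.ct hu.h0 hH (by linarith) hC.ha hC.hb (by linarith)

end Pool.Agent.H66.GSC
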