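import Mathlib
import Pool.Agent.H66.GSC.Bes
import Pool.Agent.H5.GSC.Tree

/-!
# GSC-9: the tree lemma (L2) (pure algebra)

PROOF.  State `(r, M) = st l k`, defined by recursion on the level: `st 0 k = (f 0 k, 0)`; at
`(l + 1, k)` with the parent `(l, k / 2)` and its state `(r, M)`: if the parent is marked,
`st = (anc f 6 (l + 1) k, OV f (l + 1) k)`, otherwise `st = (r, max M |f (l + 1) k - r|)`.
Invariants: `|f l k - r| ≤ M`; and
(I) for all `u ≤ l` such that `l' ≤ l - u + 5` for every marked strict ancestor `(l', k / 2^(l - l'))`: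
`|f (l - u) (k / 2 ^ u) - r| ≤ M` (induction on `l`; parent marked: `l' = l` (for the level `l + 1`)
gives `u ≤ 6`, and the increments between `anc 0, ..., anc 6` sum up to at most `OV`; not marked:
`u = 0` is the first invariant, `u + 1` follows from `u` at the parent).
Potential `Pot l k = 4 (q l k - 2 r f l k + r²) + 2 M² - 4 M |f l k - r|`.  By `jen`:
`Pot ≥ 4 (q - f²) + 4 x² - 4 M x + 2 M² ≥ 4 (q - f²) + M²`, `x = |f l k - r| ≤ M`.
One step down from `K = (l, k)` to the children `K'`, not marked: `(Pot K' + Pot K'')/2 ≤ Pot K`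
(`2 (max M z)² - 4 (max M z) z ≤ 2 M² - 4 M z` for `z ≥ 0`, and `x ≤ (z' + z'')/2`).
Marked: `M² + (Pot K' + Pot K'') / 2 ≤ Pot K + 6 (OV K' ² + OV K'' ²) / 2` (`r' = anc 6`,
`(Pot K' + Pot K'')/2 ≤ 4 (q K - f K ²) + 4 (f K - r')² + (2 OV K' ² + 2 OV K'' ²)/2`, and
`|f K - r'| ≤ OV K', OV K''`).  Sum over the levels (induction on `L`, `sum_two`):
`∑_{l ≤ L} ∑_k [marked] (1/2)^l M² ≤ 4 B + 6 * 36 B = 220 B` (`ov_bound`).
By (I) with `u = up l k` and with `u = 0`, `|f l k - f (l - up) (k / 2 ^ up)| ≤ 2 M`.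
-/

set_option autoImplicit false
open Set Filter Topology

namespace Pool.Agent.H66.GSC

theorem tree {K0 : ℕ} {B : ℝ} {f q : ℕ → ℕ → ℝ} (h : Arr K0 B f q) (L : ℕ)
    (marks : ℕ → ℕ → Prop) [∀ l k, Decidable (marks l k)] (up : ℕ → ℕ → ℕ)
    (hup : ∀ l k, marks l k → up l k ≤ l)
    (hc : ∀ l k, marks l k → ∀ l' < l, marks l' (k / 2 ^ (l - l')) → l' + up l k ≤ l + 5) :
    ∑ l ∈ Finset.range (L + 1), ∑ k ∈ Finset.range (K0 * 2 ^ l),
      (if marks l k then (1 / 2 : ℝ) ^ l * (f l k - f (l - up l k) (k / 2 ^ (up l k))) ^ 2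
        else 0) ≤ 1000 * B := by
  have h1 := Pool.Agent.H5.GSC.tree f q h.mf h.mq h.jen K0 B h.h0 marks up hup
    (fun l k l' h2 h3 h4 => hc l k h2 l' h3 h4) L
  have h2 : 0 ≤ B := le_trans (Finset.sum_nonneg fun k _ => by linarith [h.jen 0 k]) h.h0
  linarith

end Pool.Agent.H66.GSC
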