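import Mathlib
import Pool.Agent.H66.GSC.EnW
import Pool.Agent.H66.GSC.Tree

/-!
# GSC-17: the tree part of the energy theorem

`(lR i, kR i)` is the cell of the grid `gR i` chosen for `[P i - T i, P i + R i]`, `(lT i, kT i)` a cell
of the same grid inside `[P i - T i, P i]`.

PROOF.  Fix the grid `g0`, `I0 = I.filter (gR = g0)`.  The cells `(lT i, kT i)`, `i ∈ I0`, are distinct, and if
`(lT j, kT j)` is a strict ancestor of `(lT i, kT i)` then `lT j ≤ lR i + 5`: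
the two intervals `[P i - T i, P i]`, `[P j - T j, P j]` have a common point (the left end of the smaller cell,
`sub_cell`); if `j < i`, `alpha` gives `R j ≤ T i ≤ 4 h/2^(lT i)`, but
`h / 2 ^ lT j ≤ T j ≤ R j / 10000`, so `h / 2 ^ lT j < h / 2 ^ lT i`: impossible (also for equal cells).
If `i < j`: `R i ≤ T j ≤ 4 h / 2 ^ lT j`, so
`h / 2 ^ lR i ≤ 6 (R i + T i) ≤ 7 R i ≤ 28 h / 2 ^ lT j < 2^5 h / 2 ^ lT j` (and equal cells are impossible by
symmetry).  `tree` with `marks l k ↔ ∃ i ∈ I0, lT i = l ∧ kT i = k`, `up l k = l - lR i` (choice),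
`arr_fa`: `∑_{i ∈ I0} (1/2)^(lT i) (f T - f R)² ≤ 1000 K0 η²`, and `T i ≤ 4 h (1/2)^(lT i)`, `K0 h = 18`:
each grid contributes `≤ 72000 η²`.
-/

set_option autoImplicit false
open Set Filter Topology MeasureTheory

namespace Pool.Agent.H66.GSC

theorem ent_pow_le {h : ℝ} (hh : 0 < h) {l l' : ℕ} (hl : l' ≤ l) : h / 2 ^ l ≤ h / 2 ^ l' := by
  have h1 : (2 : ℝ) ^ l' ≤ 2 ^ l := pow_le_pow_right₀ (by norm_num) hl
  exact div_le_div_of_nonneg_left hh.le (by positivity) h1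

/-- the cell of `i` is inside the cell of `j`: then `i` comes first and `lT j ≤ lR i + 5` -/
theorem ent_pair {h : ℝ} (hh : 0 < h) {K0 : ℕ} {I : Finset ℕ} {P L R T : ℕ → ℝ} {ε : ℝ}
    (hd : Dat I P L R T ε) {gR lR kR lT kT : ℕ → ℕ}
    (hR : ∀ i ∈ I, Cl h K0 (gR i) (lR i) (kR i) (P i - T i) (P i + R i))
    (hT : ∀ i ∈ I, lR i ≤ lT i ∧ kT i / 2 ^ (lT i - lR i) = kR i ∧
      P i - T i ≤ ce (gr h (gR i)) h (lT i) (kT i) ∧
      ce (gr h (gR i)) h (lT i) (kT i) + h / 2 ^ lT i ≤ P i ∧ T i ≤ 4 * (h / 2 ^ lT i))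
    {i j : ℕ} (hi : i ∈ I) (hj : j ∈ I) (hij : i ≠ j) (hg : gR i = gR j) (hl : lT j ≤ lT i)
    (hk : kT i / 2 ^ (lT i - lT j) = kT j) : i < j ∧ lT j ≤ lR i + 5 := by
  obtain ⟨a1, a2, a3, a4, a5⟩ := hT i hi
  obtain ⟨b1, b2, b3, b4, b5⟩ := hT j hj
  obtain ⟨c1, c2⟩ := sub_cell (r := gr h (gR i)) hh (k := kT i) hl
  rw [hk] at c1 c2
  rw [← hg] at b3 b4
  have hTi := hd.T0 i hi
  have hTj := hd.T0 j hj
  have hRi := hd.TR i hi
  have hRj := hd.TR j hj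
  have pi0 : 0 < h / 2 ^ lT i := by positivity
  have pj0 : 0 < h / 2 ^ lT j := by positivity
  have x1 : ce (gr h (gR i)) h (lT i) (kT i) ≤ P i := by linarith
  have x2 : P j - T j ≤ ce (gr h (gR i)) h (lT i) (kT i) := by linarith
  have x3 : ce (gr h (gR i)) h (lT i) (kT i) ≤ P j := by linarith
  rcases lt_or_gt_of_ne hij with hlt | hlt
  · refine ⟨hlt, ?_⟩
    have y1 := alpha hd hi hj hlt a3 x1 x2 x3
    have y2 := (hR i hi).hi
    have y3 : h / 2 ^ lR i < 32 * (h / 2 ^ lT j) := by linarith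
    by_contra hcon
    have y4 : lR i + 5 ≤ lT j := by omega
    have y5 := ent_pow_le hh y4
    have y6 : 32 * (h / 2 ^ (lR i + 5)) = h / 2 ^ lR i := by
      rw [pow_add]
      field_simp
      norm_num
    linarith
  · exfalso
    have y1 := alpha hd hj hi hlt x2 x3 a3 x1
    have y2 := ent_pow_le hh hl
    have y3 : h / 2 ^ lT j ≤ T j := by linarith
    linarith

/-- distinct indices have distinct cells -/
theorem ent_inj {h : ℝ} (hh : 0 < h) {K0 : ℕ} {I : Finset ℕ} {P L R T : ℕ → ℝ} {ε : ℝ}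
    (hd : Dat I P L R T ε) {gR lR kR lT kT : ℕ → ℕ}
    (hR : ∀ i ∈ I, Cl h K0 (gR i) (lR i) (kR i) (P i - T i) (P i + R i))
    (hT : ∀ i ∈ I, lR i ≤ lT i ∧ kT i / 2 ^ (lT i - lR i) = kR i ∧
      P i - T i ≤ ce (gr h (gR i)) h (lT i) (kT i) ∧
      ce (gr h (gR i)) h (lT i) (kT i) + h / 2 ^ lT i ≤ P i ∧ T i ≤ 4 * (h / 2 ^ lT i))
    {i j : ℕ} (hi : i ∈ I) (hj : j ∈ I) (hg : gR i = gR j) (hl : lT i = lT j)
    (hk : kT i = kT j) : i = j := by
  by_contra hij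
  have h1 := ent_pair hh hd hR hT hi hj hij hg hl.ge (by rw [hl, Nat.sub_self, pow_zero, Nat.div_one, hk])
  have h2 := ent_pair hh hd hR hT hj hi (Ne.symm hij) hg.symm hl.le
    (by rw [hl, Nat.sub_self, pow_zero, Nat.div_one, hk])
  omega

/-- one grid -/
theorem ent_one {a : ℝ → ℝ} {h η : ℝ} {K0 : ℕ} (hu : Uc a h η K0) {I : Finset ℕ}
    {P L R T : ℕ → ℝ} {ε : ℝ} (hd : Dat I P L R T ε) (gR lR kR lT kT : ℕ → ℕ)
    (hR : ∀ i ∈ I, Cl h K0 (gR i) (lR i) (kR i) (P i - T i) (P i + R i))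
    (hT : ∀ i ∈ I, lR i ≤ lT i ∧ kT i / 2 ^ (lT i - lR i) = kR i ∧
      P i - T i ≤ ce (gr h (gR i)) h (lT i) (kT i) ∧
      ce (gr h (gR i)) h (lT i) (kT i) + h / 2 ^ lT i ≤ P i ∧ T i ≤ 4 * (h / 2 ^ lT i))
    {g0 : ℕ} (hg0 : g0 < 2) :
    ∑ i ∈ I.filter (fun i => gR i = g0),
      T i * (fa a (gr h (gR i)) h (lT i) (kT i) - fa a (gr h (gR i)) h (lR i) (kR i)) ^ 2 ≤
      72000 * η ^ 2 := by
  classical
  set r := gr h g0 with hr
  set f := fa a r h with hf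
  have hh := hu.h0
  have hK0 : (0 : ℝ) ≤ K0 := Nat.cast_nonneg _
  -- the arrays
  have hrl : -10 ≤ r ∧ r + 18 ≤ 10 := by
    have h1 : (g0 : ℝ) ≤ 1 := by exact_mod_cast Nat.lt_succ_iff.mp hg0
    have h2 : (0 : ℝ) ≤ g0 := Nat.cast_nonneg _
    have h3 : (g0 : ℝ) * (h / 3) ≤ 1 * (h / 3) := mul_le_mul_of_nonneg_right h1 (by linarith)
    have h4 : 0 ≤ (g0 : ℝ) * (h / 3) := by positivity
    have h5 := hu.h1
    rw [hr]
    unfold gr
    constructor <;> linarith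
  have harr : Arr K0 (K0 * η ^ 2) f (fa (fun x => a x ^ 2) r h) := by
    refine arr_fa hu.ct hh K0 ?_
    intro x hx y hy hxy
    rw [hu.hK] at hx hy
    refine hu.osc x y ?_ ?_ hxy
    · rw [abs_le]
      exact ⟨by linarith [hx.1, hrl.1], by linarith [hx.2, hrl.2]⟩
    · rw [abs_le]
      exact ⟨by linarith [hy.1, hrl.1], by linarith [hy.2, hrl.2]⟩
  -- marks
  set I0 := I.filter (fun i => gR i = g0) with hI0
  let ex : ℕ → ℕ → Prop := fun l k => ∃ i, i ∈ I0 ∧ lT i = l ∧ kT i = k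
  let ch : ℕ → ℕ → ℕ := fun l k => if hx : ex l k then hx.choose else 0
  have hch : ∀ l k, ex l k → ch l k ∈ I0 ∧ lT (ch l k) = l ∧ kT (ch l k) = k := by
    intro l k hx
    have : ch l k = hx.choose := by
      simp only [ch]
      rw [dif_pos hx]
    rw [this]
    exact hx.choose_spec
  let up : ℕ → ℕ → ℕ := fun l k => l - lR (ch l k)
  have htree := tree harr (I0.sup lT) ex up (fun l k _ => Nat.sub_le _ _) (by
    intro l k hm l' hl' hm'
    obtain ⟨c1, c2, c3⟩ := hch l k hm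
    obtain ⟨j, d1, d2, d3⟩ := hm'
    set i := ch l k with hi
    have e1 := Finset.mem_filter.mp c1
    have e2 := Finset.mem_filter.mp d1
    have hne : i ≠ j := by
      intro hij
      rw [← hij, c2] at d2
      omega
    have e3 := (ent_pair hh hd hR hT e1.1 e2.1 hne (e1.2.trans e2.2.symm) (by omega)
      (by rw [c2, c3, d2, d3])).2
    have e4 := (hT i e1.1).1
    show l' + (l - lR (ch l k)) ≤ l + 5
    rw [← hi]
    omega)
  -- the sum over the marked cells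
  set G : ℕ × ℕ → ℝ := fun x => if ex x.1 x.2 then
    (1 / 2 : ℝ) ^ x.1 * (f x.1 x.2 - f (x.1 - up x.1 x.2) (x.2 / 2 ^ (up x.1 x.2))) ^ 2 else 0 with hG
  have hG0 : ∀ x, 0 ≤ G x := by
    intro x
    simp only [hG]
    split_ifs
    · positivity
    · exact le_rfl
  have hGi : ∀ i ∈ I0, G (lT i, kT i) =
      (1 / 2 : ℝ) ^ lT i * (f (lT i) (kT i) - f (lR i) (kR i)) ^ 2 := by
    intro i hi
    have hx : ex (lT i) (kT i) := ⟨i, hi, rfl, rfl⟩
    obtain ⟨c1, c2, c3⟩ := hch _ _ hx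
    have e1 := Finset.mem_filter.mp c1
    have e2 := Finset.mem_filter.mp hi
    have hci : ch (lT i) (kT i) = i :=
      ent_inj hh hd hR hT e1.1 e2.1 (e1.2.trans e2.2.symm) c2 c3
    have e3 := hT i e2.1
    have e4 : up (lT i) (kT i) = lT i - lR i := by
      simp only [up]
      rw [hci]
    simp only [hG]
    rw [if_pos hx, e4, e3.2.1, Nat.sub_sub_self e3.1]
  have hinj : Set.InjOn (fun i => (lT i, kT i)) (I0 : Set ℕ) := by
    intro i hi j hj hij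
    have e1 := Finset.mem_filter.mp (Finset.mem_coe.mp hi)
    have e2 := Finset.mem_filter.mp (Finset.mem_coe.mp hj)
    have h1 := congrArg Prod.fst hij
    have h2 := congrArg Prod.snd hij
    exact ent_inj hh hd hR hT e1.1 e2.1 (e1.2.trans e2.2.symm) h1 h2
  have hsum : ∑ i ∈ I0, G (lT i, kT i) ≤
      ∑ l ∈ Finset.range (I0.sup lT + 1), ∑ k ∈ Finset.range (K0 * 2 ^ l), G (l, k) := by
    rw [Finset.sum_sigma']
    rw [← Finset.sum_image (f := fun x : (_ : ℕ) × ℕ => G (x.1, x.2))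
      (g := fun i => (⟨lT i, kT i⟩ : (_ : ℕ) × ℕ)) (s := I0)]
    · refine Finset.sum_le_sum_of_subset_of_nonneg ?_ (fun x _ _ => hG0 _)
      intro x hx
      obtain ⟨i, hi, rfl⟩ := Finset.mem_image.mp hx
      have e2 := Finset.mem_filter.mp hi
      obtain ⟨c1, c2, -, -, -⟩ := hT i e2.1
      rw [Finset.mem_sigma]
      refine ⟨Finset.mem_range.mpr (Nat.lt_succ_of_le (Finset.le_sup hi)), Finset.mem_range.mpr ?_⟩
      show kT i < K0 * 2 ^ lT i
      have h1 := (hR i e2.1).hk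
      rw [← c2] at h1
      have h2 := Nat.lt_mul_of_div_lt h1 (by positivity)
      calc kT i < K0 * 2 ^ lR i * 2 ^ (lT i - lR i) := h2
        _ = K0 * (2 ^ (lT i - lR i) * 2 ^ lR i) := by ring
        _ = K0 * 2 ^ lT i := by rw [← pow_add, Nat.sub_add_cancel c1]
    · intro i hi j hj hij
      have h1 := congrArg (fun x : (_ : ℕ) × ℕ => (x.1, x.2)) hij
      exact hinj hi hj h1
  have hfin : ∑ i ∈ I0, (1 / 2 : ℝ) ^ lT i * (f (lT i) (kT i) - f (lR i) (kR i)) ^ 2 ≤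
      1000 * (K0 * η ^ 2) := by
    rw [← Finset.sum_congr rfl hGi]
    exact hsum.trans htree
  have hterm : ∀ i ∈ I0,
      T i * (fa a (gr h (gR i)) h (lT i) (kT i) - fa a (gr h (gR i)) h (lR i) (kR i)) ^ 2 ≤
        4 * h * ((1 / 2 : ℝ) ^ lT i * (f (lT i) (kT i) - f (lR i) (kR i)) ^ 2) := by
    intro i hi
    have e2 := Finset.mem_filter.mp hi
    rw [e2.2]
    have e3 := (hT i e2.1).2.2.2.2
    have e4 : h / 2 ^ lT i = h * (1 / 2 : ℝ) ^ lT i := by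
      rw [one_div, inv_pow, div_eq_mul_inv]
    rw [e4] at e3
    have e5 : 0 ≤ (f (lT i) (kT i) - f (lR i) (kR i)) ^ 2 := sq_nonneg _
    calc T i * (f (lT i) (kT i) - f (lR i) (kR i)) ^ 2
        ≤ 4 * (h * (1 / 2 : ℝ) ^ lT i) * (f (lT i) (kT i) - f (lR i) (kR i)) ^ 2 :=
          mul_le_mul_of_nonneg_right e3 e5
      _ = _ := by ring
  calc ∑ i ∈ I0,
      T i * (fa a (gr h (gR i)) h (lT i) (kT i) - fa a (gr h (gR i)) h (lR i) (kR i)) ^ 2
      ≤ ∑ i ∈ I0, 4 * h * ((1 / 2 : ℝ) ^ lT i * (f (lT i) (kT i) - f (lR i) (kR i)) ^ 2) :=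
        Finset.sum_le_sum hterm
    _ = 4 * h * ∑ i ∈ I0, (1 / 2 : ℝ) ^ lT i * (f (lT i) (kT i) - f (lR i) (kR i)) ^ 2 := by
        rw [Finset.mul_sum]
    _ ≤ 4 * h * (1000 * (K0 * η ^ 2)) := mul_le_mul_of_nonneg_left hfin (by positivity)
    _ = 4000 * (K0 * h) * η ^ 2 := by ring
    _ = 72000 * η ^ 2 := by rw [hu.hK]; ring

theorem en_t {a : ℝ → ℝ} {h η : ℝ} {K0 : ℕ} (hu : Uc a h η K0) {I : Finset ℕ}
    {P L R T : ℕ → ℝ} {ε : ℝ} (hd : Dat I P L R T ε) (gR lR kR lT kT : ℕ → ℕ)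
    (hR : ∀ i ∈ I, Cl h K0 (gR i) (lR i) (kR i) (P i - T i) (P i + R i))
    (hT : ∀ i ∈ I, lR i ≤ lT i ∧ kT i / 2 ^ (lT i - lR i) = kR i ∧
      P i - T i ≤ ce (gr h (gR i)) h (lT i) (kT i) ∧
      ce (gr h (gR i)) h (lT i) (kT i) + h / 2 ^ lT i ≤ P i ∧ T i ≤ 4 * (h / 2 ^ lT i)) :
    ∑ i ∈ I, T i * (fa a (gr h (gR i)) h (lT i) (kT i) - fa a (gr h (gR i)) h (lR i) (kR i)) ^ 2 ≤
      144000 * η ^ 2 := by
  classical
  have h0 := ent_one hu hd gR lR kR lT kT hR hT (g0 := 0) (by norm_num)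
  have h1 := ent_one hu hd gR lR kR lT kT hR hT (g0 := 1) (by norm_num)
  have h2 : I.filter (fun i => ¬ gR i = 0) = I.filter (fun i => gR i = 1) := by
    apply Finset.filter_congr
    intro i hi
    have := (hR i hi).hg
    omega
  rw [← Finset.sum_filter_add_sum_filter_not I (fun i => gR i = 0), h2]
  linarith

end Pool.Agent.H66.GSC
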