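import Mathlib
import Pool.Agent.H66.GSC.EnT

/-!
# GSC-18: the weighted means on the right

PROOF.  With the cells of `CD` and the inner cells `(lT i, kT i)` of `inner_cell` (grid `gR i`, interval
`[P i - T i, P i]`, inside the cell `(lR i, kR i)`), `D i n = D (gg i n) (ll i n) (kk i n)`:
`Ap - mn n = (Ap - f R) + (f R - f T) + (f T - mn 0) + (mn 0 - mn n)`;
`|Ap - f R| ≤ 2 (h/2^lR) D / R i ≤ 13 D (gR i) (lR i) (kR i)` (`cmp_ap`, `h/2^lR ≤ 6 (R i + T i)`);
`|f T - mn 0| ≤ |f T - f Q0| + |f Q0 - mn 0| ≤ 240 D i 0 + 6 D i 0` (`cmp_mean` in the cell `Q0` of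
`[P i - 5 T i, P i + 5 T i]`, of length `≤ 60 T i ≤ 240 h / 2 ^ lT i`);
`|mn (n+1) - mn n| ≤ 13 D i n` (`cmp_mean` twice in the cell of `(i, n)`), so
`|mn 0 - mn n| ≤ 13 ∑_{j ≤ n} D i j`.  Hence
`(Ap - mn n)² ≤ 4 (169 D(R)² + (f R - f T)² + 246² D i 0 ² + 169 (∑_{j ≤ n} D i j)²)`.
Sum with the weights `(9/10)^n T i` (`∑_n (9/10)^n ≤ 10`):
`en_rD`: `∑ T i D (gR i) (lR i) (kR i)² ≤ 108000 η²` (`embed` with `load2`), `en_t`, `en_w1` (the `n = 0` terms
and, with `hardy`, the last one).  Total `≤ 10^12 η²`.  If `M = 0` the sum is empty.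
-/

set_option autoImplicit false
open Set Filter Topology MeasureTheory

namespace Pool.Agent.H66.GSC

theorem en_rD {a : ℝ → ℝ} {h η : ℝ} {K0 : ℕ} (hu : Uc a h η K0) {I : Finset ℕ}
    {P L R T : ℕ → ℝ} {ε : ℝ} (hd : Dat I P L R T ε) {M Lm : ℕ} {gg ll kk : ℕ → ℕ → ℕ}
    {gR lR kR : ℕ → ℕ} {D : ℕ → ℕ → ℕ → ℝ} (hc : CD a h η K0 I P R T M Lm gg ll kk gR lR kR D) :
    ∑ i ∈ I, T i * D (gR i) (lR i) (kR i) ^ 2 ≤ 108000 * η ^ 2 := by
  have hone : ∀ g0 < 2, ∑ i ∈ I.filter (fun i => gR i = g0), T i * D (gR i) (lR i) (kR i) ^ 2 ≤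
      54000 * η ^ 2 := by
    intro g0 hg0
    have h1 := embed (I.filter (fun i => gR i = g0)) lR kR T
      (fun i hi => (hd.T0 i (Finset.mem_filter.1 hi).1).le) (L := Lm) (K0 := K0)
      (fun i hi => ⟨hc.rL i (Finset.mem_filter.1 hi).1, (hc.r i (Finset.mem_filter.1 hi).1).hk⟩)
      (C := h) hu.h0.le
      (fun l k => by
        have := load2 hd hu.h0 gR lR kR hc.r g0 l k
        rw [Finset.filter_filter]
        exact this)
      (D g0) (hc.sum g0 hg0)
    have h2 : h * (3000 * (K0 * η ^ 2)) = 54000 * η ^ 2 := by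
      have := hu.hK
      calc h * (3000 * (K0 * η ^ 2)) = 3000 * (K0 * h) * η ^ 2 := by ring
        _ = _ := by rw [this]; ring
    rw [h2] at h1
    refine le_trans (le_of_eq ?_) h1
    refine Finset.sum_congr rfl fun i hi => ?_
    rw [(Finset.mem_filter.1 hi).2]
  have hsplit : ∑ i ∈ I, T i * D (gR i) (lR i) (kR i) ^ 2 =
      ∑ i ∈ I.filter (fun i => gR i = 0), T i * D (gR i) (lR i) (kR i) ^ 2 +
      ∑ i ∈ I.filter (fun i => gR i = 1), T i * D (gR i) (lR i) (kR i) ^ 2 := by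
    rw [← Finset.sum_filter_add_sum_filter_not I (fun i => gR i = 0)]
    congr 1
    refine Finset.sum_congr ?_ fun _ _ => rfl
    ext i
    simp only [Finset.mem_filter]
    constructor
    · rintro ⟨hi, h0⟩
      have := (hc.r i hi).hg
      exact ⟨hi, by omega⟩
    · rintro ⟨hi, h0⟩
      exact ⟨hi, by omega⟩
  rw [hsplit]
  have := hone 0 (by norm_num)
  have := hone 1 (by norm_num)
  linarith

/-- the weighted mean on the right is close to the mean on the box -/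
theorem en_r_pt {a : ℝ → ℝ} {h η : ℝ} {K0 : ℕ} (hu : Uc a h η K0) {I : Finset ℕ}
    {P L R T : ℕ → ℝ} {ε : ℝ} (hd : Dat I P L R T ε) {M Lm : ℕ} {gg ll kk : ℕ → ℕ → ℕ}
    {gR lR kR : ℕ → ℕ} {D : ℕ → ℕ → ℕ → ℝ} (hc : CD a h η K0 I P R T M Lm gg ll kk gR lR kR D)
    {i : ℕ} (hi : i ∈ I) {lT kT : ℕ}
    (hT : lR i ≤ lT ∧ kT / 2 ^ (lT - lR i) = kR i ∧
      P i - T i ≤ ce (gr h (gR i)) h lT kT ∧
      ce (gr h (gR i)) h lT kT + h / 2 ^ lT ≤ P i ∧ T i ≤ 4 * (h / 2 ^ lT)) {n : ℕ} (hn : n < M) :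
    |Ap a (P i) (R i) - mn a (P i) (5 * ((9 / 10) ^ n * T i))| ≤
      13 * D (gR i) (lR i) (kR i) +
      |fa a (gr h (gR i)) h lT kT - fa a (gr h (gR i)) h (lR i) (kR i)| +
      246 * D (gg i 0) (ll i 0) (kk i 0) +
      13 * ∑ j ∈ Finset.range (n + 1), D (gg i j) (ll i j) (kk i j) := by
  have hT0 := hd.T0 i hi
  have hTR := hd.TR i hi
  have hR0 : 0 < R i := by linarith
  have h0 := hu.h0
  have cR := hc.r i hi
  have hM0 : 0 < M := by omega
  -- the part near the right interval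
  have p1 : |Ap a (P i) (R i) - fa a (gr h (gR i)) h (lR i) (kR i)| ≤
      13 * D (gR i) (lR i) (kR i) := by
    have hD := hc.hol (gR i) cR.hg (lR i) (hc.rL i hi) (kR i) cR.hk
    have := cmp_ap hu.ct h0 hD hR0 (by linarith [cR.ha]) cR.hb
    refine this.trans ?_
    rw [div_le_iff₀ hR0]
    have e1 : h / 2 ^ lR i ≤ 13 / 2 * R i := by
      have := cR.hi
      linarith
    have := mul_le_mul_of_nonneg_right e1 hD.1
    nlinarith
  -- means over boxes compared with the cell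
  have pm : ∀ j < M, ∀ s : ℝ, 9 / 10 * ((9 / 10) ^ j * T i) ≤ s → s ≤ (9 / 10) ^ j * T i →
      |mn a (P i) (5 * s) - fa a (gr h (gg i j)) h (ll i j) (kk i j)| * (2 * (5 * s)) ≤
        60 * ((9 / 10) ^ j * T i) * D (gg i j) (ll i j) (kk i j) := by
    intro j hj s hs1 hs2
    have hpos : 0 < (9 / 10 : ℝ) ^ j * T i := by positivity
    have hs0 : 0 < s := by linarith
    have cj := hc.c i hi j hj
    have hD := hc.hol (gg i j) cj.hg (ll i j) (hc.cL i hi j hj) (kk i j) cj.hk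
    have := cmp_mean hu.ct h0 hD (y := P i - 5 * s) (z := P i + 5 * s) (by linarith [cj.ha])
      (by linarith) (by linarith [cj.hb])
    rw [show P i + 5 * s - (P i - 5 * s) = 2 * (5 * s) by ring] at this
    have e : (∫ x in (P i - 5 * s)..(P i + 5 * s), a x) / (2 * (5 * s)) = mn a (P i) (5 * s) := rfl
    rw [e] at this
    have hpos2 : 0 < 2 * (5 * s) := by linarith
    calc _ ≤ h / 2 ^ ll i j / (2 * (5 * s)) * D (gg i j) (ll i j) (kk i j) * (2 * (5 * s)) := by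
          gcongr
      _ = h / 2 ^ ll i j * D (gg i j) (ll i j) (kk i j) := by field_simp
      _ ≤ 60 * ((9 / 10) ^ j * T i) * D (gg i j) (ll i j) (kk i j) := by
          have e1 : h / 2 ^ ll i j ≤ 60 * ((9 / 10) ^ j * T i) := by
            have := cj.hi
            linarith
          exact mul_le_mul_of_nonneg_right e1 hD.1
  have hDn : ∀ j < M, 0 ≤ D (gg i j) (ll i j) (kk i j) := fun j hj =>
    (hc.hol (gg i j) (hc.c i hi j hj).hg (ll i j) (hc.cL i hi j hj) (kk i j) (hc.c i hi j hj).hk).1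
  have pm1 : ∀ j < M, |mn a (P i) (5 * ((9 / 10) ^ j * T i)) -
      fa a (gr h (gg i j)) h (ll i j) (kk i j)| ≤ 6 * D (gg i j) (ll i j) (kk i j) := by
    intro j hj
    have hpos : 0 < (9 / 10 : ℝ) ^ j * T i := by positivity
    have := pm j hj ((9 / 10) ^ j * T i) (by linarith) le_rfl
    have h2 : 0 < 2 * (5 * ((9 / 10) ^ j * T i)) := by linarith
    rw [← mul_le_mul_iff_left₀ h2]
    linarith
  have pm2 : ∀ j < M, |mn a (P i) (5 * ((9 / 10) ^ (j + 1) * T i)) -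
      fa a (gr h (gg i j)) h (ll i j) (kk i j)| ≤ 7 * D (gg i j) (ll i j) (kk i j) := by
    intro j hj
    have hpos : 0 < (9 / 10 : ℝ) ^ j * T i := by positivity
    have e : (9 / 10 : ℝ) ^ (j + 1) * T i = 9 / 10 * ((9 / 10) ^ j * T i) := by ring
    have := pm j hj ((9 / 10) ^ (j + 1) * T i) (by linarith) (by linarith)
    have h2 : 0 < 2 * (5 * ((9 / 10) ^ (j + 1) * T i)) := by linarith
    rw [← mul_le_mul_iff_left₀ h2]
    refine this.trans ?_
    rw [e]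
    have := mul_nonneg hpos.le (hDn j hj)
    nlinarith
  -- telescoping
  have p4 : ∀ m ≤ n, |mn a (P i) (5 * ((9 / 10) ^ 0 * T i)) -
      mn a (P i) (5 * ((9 / 10) ^ m * T i))| ≤
      13 * ∑ j ∈ Finset.range m, D (gg i j) (ll i j) (kk i j) := by
    intro m
    induction m with
    | zero => intro _; simp
    | succ m ih =>
      intro hm
      have q1 := ih (by omega)
      have q2 := pm1 m (by omega)
      have q3 := pm2 m (by omega)
      rw [Finset.sum_range_succ, mul_add]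
      have q4 := abs_sub_le (mn a (P i) (5 * ((9 / 10) ^ 0 * T i)))
        (mn a (P i) (5 * ((9 / 10) ^ m * T i))) (mn a (P i) (5 * ((9 / 10) ^ (m + 1) * T i)))
      have q5 := abs_sub_le (mn a (P i) (5 * ((9 / 10) ^ m * T i)))
        (fa a (gr h (gg i m)) h (ll i m) (kk i m)) (mn a (P i) (5 * ((9 / 10) ^ (m + 1) * T i)))
      rw [abs_sub_comm (fa a (gr h (gg i m)) h (ll i m) (kk i m))
        (mn a (P i) (5 * ((9 / 10) ^ (m + 1) * T i)))] at q5
      linarith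
  -- the inner cell
  have p3 : |fa a (gr h (gR i)) h lT kT - fa a (gr h (gg i 0)) h (ll i 0) (kk i 0)| ≤
      240 * D (gg i 0) (ll i 0) (kk i 0) := by
    have c0 := hc.c i hi 0 hM0
    have hD := hc.hol (gg i 0) c0.hg (ll i 0) (hc.cL i hi 0 hM0) (kk i 0) c0.hk
    have hl0 : 0 < h / 2 ^ lT := by positivity
    have ha := c0.ha
    have hb := c0.hb
    have hhi := c0.hi
    rw [pow_zero, one_mul] at ha hb hhi
    have := cmp_mean hu.ct h0 hD (y := ce (gr h (gR i)) h lT kT)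
      (z := ce (gr h (gR i)) h lT kT + h / 2 ^ lT) (by linarith [hT.2.2.1]) (by linarith)
      (by linarith [hT.2.2.2.1])
    rw [show ce (gr h (gR i)) h lT kT + h / 2 ^ lT - ce (gr h (gR i)) h lT kT = h / 2 ^ lT by
      ring] at this
    have e : (∫ x in (ce (gr h (gR i)) h lT kT)..(ce (gr h (gR i)) h lT kT + h / 2 ^ lT), a x) /
      (h / 2 ^ lT) = fa a (gr h (gR i)) h lT kT := rfl
    rw [e] at this
    refine this.trans ?_
    have e1 : h / 2 ^ ll i 0 / (h / 2 ^ lT) ≤ 240 := by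
      rw [div_le_iff₀ hl0]
      linarith [hT.2.2.2.2]
    exact mul_le_mul_of_nonneg_right e1 hD.1
  have q1 := pm1 0 hM0
  have q2 := p4 n le_rfl
  have q3 := abs_sub_le (Ap a (P i) (R i)) (fa a (gr h (gR i)) h (lR i) (kR i))
    (mn a (P i) (5 * ((9 / 10) ^ n * T i)))
  have q4 := abs_sub_le (fa a (gr h (gR i)) h (lR i) (kR i)) (fa a (gr h (gR i)) h lT kT)
    (mn a (P i) (5 * ((9 / 10) ^ n * T i)))
  have q5 := abs_sub_le (fa a (gr h (gR i)) h lT kT) (fa a (gr h (gg i 0)) h (ll i 0) (kk i 0))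
    (mn a (P i) (5 * ((9 / 10) ^ n * T i)))
  have q6 := abs_sub_le (fa a (gr h (gg i 0)) h (ll i 0) (kk i 0))
    (mn a (P i) (5 * ((9 / 10) ^ 0 * T i))) (mn a (P i) (5 * ((9 / 10) ^ n * T i)))
  rw [abs_sub_comm (fa a (gr h (gg i 0)) h (ll i 0) (kk i 0))
    (mn a (P i) (5 * ((9 / 10) ^ 0 * T i)))] at q6
  rw [abs_sub_comm (fa a (gr h (gR i)) h (lR i) (kR i)) (fa a (gr h (gR i)) h lT kT)] at q4
  rw [Finset.sum_range_succ, mul_add]
  have := hDn n hn
  linarith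

/-- finite geometric sum -/
theorem geo_le (M : ℕ) : ∑ n ∈ Finset.range M, (9 / 10 : ℝ) ^ n ≤ 10 := by
  rw [geom_sum_eq (by norm_num)]
  have : (0 : ℝ) ≤ (9 / 10) ^ M := by positivity
  rw [div_le_iff_of_neg (by norm_num)]
  linarith

theorem en_r {a : ℝ → ℝ} {h η : ℝ} {K0 : ℕ} (hu : Uc a h η K0) {I : Finset ℕ}
    {P L R T : ℕ → ℝ} {ε : ℝ} (hε : 100 * ε ≤ h) (hd : Dat I P L R T ε) (M : ℕ) :
    ∑ i ∈ I, ∑ n ∈ Finset.range M, (9 / 10 : ℝ) ^ n * T i *
      (Ap a (P i) (R i) - mn a (P i) (5 * ((9 / 10) ^ n * T i))) ^ 2 ≤ 10 ^ 12 * η ^ 2 := by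
  rcases Nat.eq_zero_or_pos M with hM | hM
  · subst hM
    simp only [Finset.range_zero, Finset.sum_empty, Finset.sum_const_zero]
    positivity
  obtain ⟨Lm, gg, ll, kk, gR, lR, kR, D, -, hc⟩ := en_cells hu hε hd M 0
  have hex : ∀ i : ℕ, ∃ l k, i ∈ I → (lR i ≤ l ∧ k / 2 ^ (l - lR i) = kR i ∧
      P i - T i ≤ ce (gr h (gR i)) h l k ∧
      ce (gr h (gR i)) h l k + h / 2 ^ l ≤ P i ∧ T i ≤ 4 * (h / 2 ^ l)) := by
    intro i
    by_cases hi : i ∈ I
    · have cR := hc.r i hi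
      have hT0 := hd.T0 i hi
      have hTR := hd.TR i hi
      obtain ⟨l, k, h1, h2, h3, h4, h5⟩ := inner_cell (r := gr h (gR i)) hu.h0
        (α := P i - T i) (β := P i) (by linarith) cR.ha (by linarith [cR.hb])
      exact ⟨l, k, fun _ => ⟨h1, h2, h3, h4, by linarith⟩⟩
    · exact ⟨0, 0, fun h => absurd h hi⟩
  choose lT kT hT using hex
  have w1 := en_w1 hu hd hc
  have w2 := en_rD hu hd hc
  have w3 := en_t hu hd gR lR kR lT kT hc.r hT
  set E : ℕ → ℕ → ℝ := fun i j => D (gg i j) (ll i j) (kk i j) with hE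
  set F : ℕ → ℝ := fun i =>
    fa a (gr h (gR i)) h (lT i) (kT i) - fa a (gr h (gR i)) h (lR i) (kR i) with hF
  have hEn : ∀ i ∈ I, ∀ j < M, 0 ≤ E i j := fun i hi j hj =>
    (hc.hol (gg i j) (hc.c i hi j hj).hg (ll i j) (hc.cL i hi j hj) (kk i j) (hc.c i hi j hj).hk).1
  have key : ∀ i ∈ I, ∑ n ∈ Finset.range M, (9 / 10 : ℝ) ^ n * T i *
      (Ap a (P i) (R i) - mn a (P i) (5 * ((9 / 10) ^ n * T i))) ^ 2 ≤
      6760 * (T i * D (gR i) (lR i) (kR i) ^ 2) + 40 * (T i * F i ^ 2) +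
      (2420640 + 270400) * ∑ n ∈ Finset.range M, (9 / 10 : ℝ) ^ n * T i * E i n ^ 2 := by
    intro i hi
    have hT0 := hd.T0 i hi
    -- Hardy for the sequence cut at `M`
    have hH := hardy (fun j => if j < M then E i j else 0)
      (fun j => by
        split_ifs with hj
        · exact hEn i hi j hj
        · exact le_rfl) M
    have hH1 : ∑ n ∈ Finset.range M, (9 / 10 : ℝ) ^ n * (∑ j ∈ Finset.range (n + 1), E i j) ^ 2 ≤
        400 * ∑ n ∈ Finset.range M, (9 / 10 : ℝ) ^ n * E i n ^ 2 := by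
      have e1 : ∀ n ∈ Finset.range M, (9 / 10 : ℝ) ^ n *
          (∑ j ∈ Finset.range (n + 1), if j < M then E i j else 0) ^ 2 =
          (9 / 10 : ℝ) ^ n * (∑ j ∈ Finset.range (n + 1), E i j) ^ 2 := by
        intro n hn
        rw [Finset.mem_range] at hn
        rw [Finset.sum_congr rfl fun j hj => if_pos (by
          rw [Finset.mem_range] at hj
          omega)]
      have e2 : ∀ n ∈ Finset.range M, (9 / 10 : ℝ) ^ n * (if n < M then E i n else 0) ^ 2 =
          (9 / 10 : ℝ) ^ n * E i n ^ 2 := by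
        intro n hn
        rw [if_pos (Finset.mem_range.1 hn)]
      rw [Finset.sum_congr rfl e1, Finset.sum_congr rfl e2] at hH
      exact hH
    have hE0 : E i 0 ^ 2 ≤ ∑ n ∈ Finset.range M, (9 / 10 : ℝ) ^ n * E i n ^ 2 := by
      have := Finset.single_le_sum (f := fun n => (9 / 10 : ℝ) ^ n * E i n ^ 2)
        (fun n _ => by positivity) (Finset.mem_range.2 hM)
      simpa using this
    set S := ∑ n ∈ Finset.range M, (9 / 10 : ℝ) ^ n * E i n ^ 2 with hS
    have hgeo := geo_le M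
    have hpt : ∀ n ∈ Finset.range M, (9 / 10 : ℝ) ^ n * T i *
        (Ap a (P i) (R i) - mn a (P i) (5 * ((9 / 10) ^ n * T i))) ^ 2 ≤
        (9 / 10 : ℝ) ^ n * (T i * (4 * (169 * D (gR i) (lR i) (kR i) ^ 2 + F i ^ 2 +
          60516 * E i 0 ^ 2))) +
        T i * 676 * ((9 / 10 : ℝ) ^ n * (∑ j ∈ Finset.range (n + 1), E i j) ^ 2) := by
      intro n hn
      have hp := en_r_pt hu hd hc hi (hT i hi) (Finset.mem_range.1 hn)
      have hsq : (Ap a (P i) (R i) - mn a (P i) (5 * ((9 / 10) ^ n * T i))) ^ 2 ≤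
          (13 * D (gR i) (lR i) (kR i) + |F i| + 246 * E i 0 +
            13 * ∑ j ∈ Finset.range (n + 1), E i j) ^ 2 := by
        rw [← sq_abs]
        exact pow_le_pow_left₀ (abs_nonneg _) hp 2
      have h4 : ∀ x y z w : ℝ, (x + y + z + w) ^ 2 ≤ 4 * (x ^ 2 + y ^ 2 + z ^ 2 + w ^ 2) := by
        intro x y z w
        nlinarith [sq_nonneg (x - y), sq_nonneg (x - z), sq_nonneg (x - w), sq_nonneg (y - z),
          sq_nonneg (y - w), sq_nonneg (z - w)]
      have h5 := hsq.trans (h4 _ _ _ _)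
      rw [sq_abs] at h5
      have h6 : (0 : ℝ) ≤ (9 / 10) ^ n * T i := by positivity
      have h7 := mul_le_mul_of_nonneg_left h5 h6
      refine h7.trans (le_of_eq ?_)
      ring
    calc _ ≤ ∑ n ∈ Finset.range M, ((9 / 10 : ℝ) ^ n * (T i * (4 * (169 * D (gR i) (lR i) (kR i) ^ 2
          + F i ^ 2 + 60516 * E i 0 ^ 2))) +
        T i * 676 * ((9 / 10 : ℝ) ^ n * (∑ j ∈ Finset.range (n + 1), E i j) ^ 2)) :=
          Finset.sum_le_sum hpt
      _ = (∑ n ∈ Finset.range M, (9 / 10 : ℝ) ^ n) * (T i * (4 * (169 * D (gR i) (lR i) (kR i) ^ 2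
          + F i ^ 2 + 60516 * E i 0 ^ 2))) + T i * 676 *
          ∑ n ∈ Finset.range M, (9 / 10 : ℝ) ^ n * (∑ j ∈ Finset.range (n + 1), E i j) ^ 2 := by
          rw [Finset.sum_add_distrib, ← Finset.sum_mul, ← Finset.mul_sum]
      _ ≤ 10 * (T i * (4 * (169 * D (gR i) (lR i) (kR i) ^ 2
          + F i ^ 2 + 60516 * S))) + T i * 676 * (400 * S) := by gcongr
      _ = 6760 * (T i * D (gR i) (lR i) (kR i) ^ 2) + 40 * (T i * F i ^ 2) +
          (2420640 + 270400) * (T i * S) := by ring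
      _ = _ := by
          congr 2
          rw [hS, Finset.mul_sum]
          exact Finset.sum_congr rfl fun n _ => by ring
  calc _ ≤ ∑ i ∈ I, (6760 * (T i * D (gR i) (lR i) (kR i) ^ 2) + 40 * (T i * F i ^ 2) +
      (2420640 + 270400) * ∑ n ∈ Finset.range M, (9 / 10 : ℝ) ^ n * T i * E i n ^ 2) :=
        Finset.sum_le_sum key
    _ = 6760 * ∑ i ∈ I, T i * D (gR i) (lR i) (kR i) ^ 2 + 40 * ∑ i ∈ I, T i * F i ^ 2 +
      (2420640 + 270400) * ∑ i ∈ I, ∑ n ∈ Finset.range M, (9 / 10 : ℝ) ^ n * T i * E i n ^ 2 := by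
        rw [Finset.sum_add_distrib, Finset.sum_add_distrib, Finset.mul_sum, Finset.mul_sum,
          Finset.mul_sum]
    _ ≤ 6760 * (108000 * η ^ 2) + 40 * (144000 * η ^ 2) + (2420640 + 270400) *
        (108000 * η ^ 2) := by gcongr
    _ ≤ 10 ^ 12 * η ^ 2 := by
        have := sq_nonneg η
        nlinarith

end Pool.Agent.H66.GSC
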