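import Mathlib
import Pool.Agent.H66.GSC.Alp

/-!
# GSC-19: the sum of `T i * R i ^ 2`

PROOF.  `h = 1`, `K0 = 18`: `cell_choice` for `[P i - T i, P i + R i]` gives `(g i, l i, k i)` with
`R i ≤ (1/2)^(l i) ≤ 6 (R i + T i) ≤ 7 ε`.  `load2` and `embed` (for each of the two grids) with
`D l k = (1/2)^l` if `(1/2)^l ≤ 7 ε`, `0` otherwise:
`∑_l ∑_{k < 18 * 2^l} (1/2)^l D² ≤ 18 ∑_{l : (1/2)^l ≤ 7 ε} (1/4)^l ≤ 18 * (7 ε)² * 4/3`.
-/

set_option autoImplicit false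
open Set Filter Topology MeasureTheory

namespace Pool.Agent.H66.GSC

theorem enu_geo (n : ℕ) : ∀ e : ℝ, 0 ≤ e →
    ∑ l ∈ Finset.range n, (if (1 / 2 : ℝ) ^ l ≤ e then ((1 / 2 : ℝ) ^ l) ^ 2 else 0) ≤ 4 / 3 ∧
    ∑ l ∈ Finset.range n, (if (1 / 2 : ℝ) ^ l ≤ e then ((1 / 2 : ℝ) ^ l) ^ 2 else 0) ≤
      4 / 3 * e ^ 2 := by
  induction n with
  | zero =>
    intro e he
    rw [Finset.range_zero, Finset.sum_empty]
    exact ⟨by norm_num, by positivity⟩
  | succ n ih =>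
    intro e he
    obtain ⟨h1, h2⟩ := ih (2 * e) (by linarith)
    have h3 : ∑ l ∈ Finset.range n, (if (1 / 2 : ℝ) ^ (l + 1) ≤ e then
        ((1 / 2 : ℝ) ^ (l + 1)) ^ 2 else 0) =
        1 / 4 * ∑ l ∈ Finset.range n, (if (1 / 2 : ℝ) ^ l ≤ 2 * e then
          ((1 / 2 : ℝ) ^ l) ^ 2 else 0) := by
      rw [Finset.mul_sum]
      refine Finset.sum_congr rfl fun l _ => ?_
      have h4 : (1 / 2 : ℝ) ^ (l + 1) ≤ e ↔ (1 / 2 : ℝ) ^ l ≤ 2 * e := by
        rw [pow_succ]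
        constructor <;> intro h <;> linarith
      by_cases h5 : (1 / 2 : ℝ) ^ l ≤ 2 * e
      · rw [if_pos h5, if_pos (h4.2 h5), pow_succ]
        ring
      · rw [if_neg h5, if_neg (fun h => h5 (h4.1 h)), mul_zero]
    rw [Finset.sum_range_succ', h3]
    by_cases h6 : (1 / 2 : ℝ) ^ 0 ≤ e
    · rw [if_pos h6]
      rw [pow_zero] at h6 ⊢
      constructor
      · linarith
      · nlinarith
    · rw [if_neg h6]
      constructor
      · linarith
      · nlinarith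

theorem enu_sum (e : ℝ) (he : 0 ≤ e) (n : ℕ) :
    ∑ l ∈ Finset.range n, ∑ _k ∈ Finset.range (18 * 2 ^ l),
      (1 / 2 : ℝ) ^ l * (if (1 / 2 : ℝ) ^ l ≤ e then (1 / 2 : ℝ) ^ l else 0) ^ 2 ≤
      24 * e ^ 2 := by
  have h1 : ∀ l ∈ Finset.range n, ∑ _k ∈ Finset.range (18 * 2 ^ l),
      (1 / 2 : ℝ) ^ l * (if (1 / 2 : ℝ) ^ l ≤ e then (1 / 2 : ℝ) ^ l else 0) ^ 2 =
      18 * (if (1 / 2 : ℝ) ^ l ≤ e then ((1 / 2 : ℝ) ^ l) ^ 2 else 0) := by
    intro l _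
    rw [Finset.sum_const, Finset.card_range, nsmul_eq_mul]
    have h2 : (2 : ℝ) ^ l * (1 / 2 : ℝ) ^ l = 1 := by
      rw [← mul_pow]
      norm_num
    push_cast
    have h3 : (18 * (2 : ℝ) ^ l) * ((1 / 2 : ℝ) ^ l *
        (if (1 / 2 : ℝ) ^ l ≤ e then (1 / 2 : ℝ) ^ l else 0) ^ 2) =
        18 * ((2 : ℝ) ^ l * (1 / 2 : ℝ) ^ l) *
        (if (1 / 2 : ℝ) ^ l ≤ e then (1 / 2 : ℝ) ^ l else 0) ^ 2 := by ring
    rw [h3, h2, mul_one]
    by_cases h5 : (1 / 2 : ℝ) ^ l ≤ e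
    · rw [if_pos h5, if_pos h5]
    · rw [if_neg h5, if_neg h5]
      norm_num
  rw [Finset.sum_congr rfl h1, ← Finset.mul_sum]
  have h2 := (enu_geo n e he).2
  linarith

theorem en_u {I : Finset ℕ} {P L R T : ℕ → ℝ} {ε : ℝ} (hε : 100 * ε ≤ 1)
    (hd : Dat I P L R T ε) : ∑ i ∈ I, T i * R i ^ 2 ≤ 3000 * ε ^ 2 := by
  classical
  have hcc : ∀ i : ℕ, ∃ glk : ℕ × ℕ × ℕ, i ∈ I →
      Cl 1 18 glk.1 glk.2.1 glk.2.2 (P i - T i) (P i + R i) := by
    intro i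
    by_cases hi : i ∈ I
    · have h1 := abs_le.1 (hd.win i hi)
      have h2 := hd.T0 i hi
      have h3 := hd.TL i hi
      have h4 := hd.TR i hi
      have h5 := hd.sm i hi
      obtain ⟨g, l, k, hc⟩ := cell_choice (h := 1) one_pos le_rfl (K0 := 18) (by norm_num)
        (α := P i - T i) (β := P i + R i) (by linarith [h1.1]) (by linarith [h1.2])
        (by linarith) (by linarith)
      exact ⟨(g, l, k), fun _ => hc⟩
    · exact ⟨(0, 0, 0), fun h => absurd h hi⟩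
  choose glk hglk using hcc
  set g : ℕ → ℕ := fun i => (glk i).1 with hg
  set l : ℕ → ℕ := fun i => (glk i).2.1 with hl
  set k : ℕ → ℕ := fun i => (glk i).2.2 with hk
  have hc : ∀ i ∈ I, Cl 1 18 (g i) (l i) (k i) (P i - T i) (P i + R i) := fun i hi => hglk i hi
  set e : ℝ := 7 * ε with he
  set D : ℕ → ℕ → ℝ := fun l' _ => if (1 / 2 : ℝ) ^ l' ≤ e then (1 / 2 : ℝ) ^ l' else 0 with hD
  have hcase : ∀ i ∈ I, T i * R i ^ 2 ≤ T i * D (l i) (k i) ^ 2 := by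
    intro i hi
    have h1 := hc i hi
    have h2 := hd.T0 i hi
    have h3 := hd.TL i hi
    have h4 := hd.TR i hi
    have h5 := hd.sm i hi
    have h6 : (1 : ℝ) / 2 ^ (l i) = (1 / 2 : ℝ) ^ (l i) := by
      rw [one_div, one_div, inv_pow]
    have h7 := h1.lo
    have h8 := h1.hi
    rw [h6] at h7 h8
    have h9 : (1 / 2 : ℝ) ^ (l i) ≤ e := by rw [he]; linarith
    have h10 : D (l i) (k i) = (1 / 2 : ℝ) ^ (l i) := by
      rw [hD]
      exact if_pos h9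
    rw [h10]
    refine mul_le_mul_of_nonneg_left ?_ h2.le
    have h11 : R i ≤ (1 / 2 : ℝ) ^ (l i) := by linarith
    exact pow_le_pow_left₀ (by linarith) h11 2
  by_cases hI : I.Nonempty
  · have hε0 : 0 ≤ ε := by
      obtain ⟨i, hi⟩ := hI
      have h2 := hd.T0 i hi
      have h3 := hd.TL i hi
      have h4 := hd.TR i hi
      have h5 := hd.sm i hi
      linarith
    have hgrid : ∀ g0 : ℕ, ∑ i ∈ I.filter (fun i => g i = g0), T i * D (l i) (k i) ^ 2 ≤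
        1 * (24 * e ^ 2) := by
      intro g0
      refine embed (I.filter (fun i => g i = g0)) l k T (fun x hx => ?_) (L := I.sup l) (K0 := 18)
        (fun x hx => ?_) zero_le_one (fun l0 k0 => ?_) D ?_
      · exact (hd.T0 x (Finset.mem_filter.1 hx).1).le
      · exact ⟨Finset.le_sup (Finset.mem_filter.1 hx).1, (hc x (Finset.mem_filter.1 hx).1).hk⟩
      · rw [Finset.filter_filter]
        exact load2 hd one_pos g l k hc g0 l0 k0
      · exact enu_sum e (by rw [he]; linarith) _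
    have hsplit : ∑ i ∈ I, T i * D (l i) (k i) ^ 2 =
        ∑ i ∈ I.filter (fun i => g i = 0), T i * D (l i) (k i) ^ 2 +
        ∑ i ∈ I.filter (fun i => g i = 1), T i * D (l i) (k i) ^ 2 := by
      rw [← Finset.sum_filter_add_sum_filter_not I (fun i => g i = 0)]
      congr 1
      refine Finset.sum_congr (Finset.filter_congr fun i hi => ?_) fun _ _ => rfl
      have := (hc i hi).hg
      omega
    have h0 := hgrid 0
    have h1 := hgrid 1
    calc ∑ i ∈ I, T i * R i ^ 2 ≤ ∑ i ∈ I, T i * D (l i) (k i) ^ 2 := Finset.sum_le_sum hcase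
      _ ≤ 48 * e ^ 2 := by rw [hsplit]; linarith
      _ ≤ 3000 * ε ^ 2 := by rw [he]; nlinarith [sq_nonneg ε]
  · rw [Finset.not_nonempty_iff_eq_empty] at hI
    rw [hI, Finset.sum_empty]
    positivity

end Pool.Agent.H66.GSC
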