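import Mathlib
import Pool.Agent.H66.GSC.EnR
import Pool.Agent.H66.GSC.EnU

/-!
# GSC-20: the energy theorem for one function

PROOF.  `refl_*`: the reflection `x ↦ -x` (`a' x = a (-x)`, `P' = -P`, `L' = R`, `R' = L`).
`energy1`: choose `η > 0` with `10^14 η² ≤ ζ / 2`, `h ≤ 1` from the uniform continuity of `a` on `[-10, 10]`,
of the form `18 / K0`; `ε ≤ h / 100` with `10^14 ε² ≤ ζ / 2`.  `m i n = mn a (P i) ρ`,
`W i n = ρ * (23 * D (gg i n) (ll i n) (kk i n))`, `ρ = 5 ((9/10)^n T i)`.  `Er² ≤ 5 (23² D² +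
(Ap - m)² + (Am - m)² + L² + R²)`; `en_w1`, `en_r`, `en_r` for the reflected data, `en_u` for both
(with `∑_n (9/10)^n ≤ 10`).
-/

set_option autoImplicit false
open Set Filter Topology MeasureTheory

namespace Pool.Agent.H66.GSC

theorem refl_dat {I : Finset ℕ} {P L R T : ℕ → ℝ} {ε : ℝ} (h : Dat I P L R T ε) :
    Dat I (fun i => -P i) R L T ε := by
  refine ⟨fun i hi => by rw [abs_neg]; exact h.win i hi, h.T0, h.TR, h.TL,
    fun i hi => by rw [add_comm]; exact h.sm i hi, fun i hi j hj hij hc => ?_⟩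
  exact h.sep i hi j hj hij ⟨by linarith [hc.2], by linarith [hc.1]⟩

theorem refl_ap (a : ℝ → ℝ) (P L : ℝ) : Ap (fun x => a (-x)) (-P) L = Am a P L := by
  unfold Ap Am
  congr 1
  have h := intervalIntegral.integral_comp_neg (fun z => (z - (P - L)) * a z)
    (a := -P) (b := -P + L)
  rw [neg_neg, show -(-P + L) = P - L by ring] at h
  rw [← h]
  refine intervalIntegral.integral_congr fun z _ => ?_
  simp only
  ring

theorem refl_mn (a : ℝ → ℝ) (P ρ : ℝ) : mn (fun x => a (-x)) (-P) ρ = mn a P ρ := by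
  unfold mn
  congr 1
  have h := intervalIntegral.integral_comp_neg (fun z => a z) (a := -P - ρ) (b := -P + ρ)
  rw [show -(-P + ρ) = P - ρ by ring, show -(-P - ρ) = P + ρ by ring] at h
  exact h

theorem exists_uc {a : ℝ → ℝ} (ha : Continuous a) {η : ℝ} (hη : 0 < η) :
    ∃ (h : ℝ) (K0 : ℕ), Uc a h η K0 ∧ Uc (fun x => a (-x)) h η K0 := by
  have h1 : UniformContinuousOn a (Icc (-10) 10) :=
    isCompact_Icc.uniformContinuousOn_of_continuous ha.continuousOn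
  rw [Metric.uniformContinuousOn_iff_le] at h1
  obtain ⟨δ, hδ, h2⟩ := h1 η hη
  obtain ⟨n, hn⟩ := exists_nat_gt (18 / δ)
  obtain ⟨K0, hK0⟩ : ∃ K0 : ℕ, K0 = n + 18 := ⟨_, rfl⟩
  have hKpos : (0 : ℝ) < K0 := by rw [hK0]; positivity
  have hK18 : (18 : ℝ) ≤ K0 := by
    rw [hK0]
    push_cast
    have : (0 : ℝ) ≤ n := by positivity
    linarith
  have hKn : 18 / δ < K0 := by
    rw [hK0]
    push_cast
    linarith
  have hh : 18 / (K0 : ℝ) ≤ δ := by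
    rw [div_lt_iff₀ hδ] at hKn
    rw [div_le_iff₀ hKpos]
    linarith
  have hosc : ∀ x y : ℝ, |x| ≤ 10 → |y| ≤ 10 → |x - y| ≤ 18 / (K0 : ℝ) → |a x - a y| ≤ η := by
    intro x y hx hy hxy
    have h3 := h2 x (abs_le.1 hx) y (abs_le.1 hy) (by rw [Real.dist_eq]; linarith)
    rwa [Real.dist_eq] at h3
  have hb : ∀ b : ℝ → ℝ, Continuous b →
      (∀ x y : ℝ, |x| ≤ 10 → |y| ≤ 10 → |x - y| ≤ 18 / (K0 : ℝ) → |b x - b y| ≤ η) →
      Uc b (18 / K0) η K0 := fun b hb hbo =>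
    ⟨hb, by positivity, by rw [div_le_one hKpos]; exact hK18, hη.le, by field_simp, hbo⟩
  refine ⟨18 / K0, K0, hb a ha hosc, hb _ (ha.comp continuous_neg) fun x y hx hy hxy => ?_⟩
  apply hosc
  · rwa [abs_neg]
  · rwa [abs_neg]
  · rw [show -x - -y = -(x - y) by ring, abs_neg]
    exact hxy

theorem en1_geom (M : ℕ) : ∑ n ∈ Finset.range M, (9 / 10 : ℝ) ^ n ≤ 10 := by
  have h := geom_sum_eq (x := (9 / 10 : ℝ)) (by norm_num) M
  rw [h]
  have : (0 : ℝ) < (9 / 10) ^ M := by positivity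
  rw [div_le_iff_of_neg (by norm_num)]
  linarith

theorem energy1 {a : ℝ → ℝ} (ha : Continuous a) {ζ : ℝ} (hζ : 0 < ζ) :
    ∃ ε : ℝ, 0 < ε ∧ ∀ (I : Finset ℕ) (P L R T : ℕ → ℝ), Dat I P L R T ε → ∀ M : ℕ,
      ∃ m W : ℕ → ℕ → ℝ,
        (∀ i ∈ I, ∀ n < M, Osc a (P i) (5 * ((9 / 10) ^ n * T i)) (m i n) (W i n)) ∧
        ∑ i ∈ I, ∑ n ∈ Finset.range M, (9 / 10 : ℝ) ^ n * T i *
          Er a (P i) (L i) (R i) (5 * ((9 / 10) ^ n * T i)) (m i n) (W i n) ^ 2 ≤ ζ := by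
  -- η
  obtain ⟨η, hη⟩ : ∃ η : ℝ, η = √(ζ / (2 * 10 ^ 14)) := ⟨_, rfl⟩
  have hη0 : 0 < η := by rw [hη]; positivity
  have hη2 : η ^ 2 = ζ / (2 * 10 ^ 14) := by rw [hη, Real.sq_sqrt (by positivity)]
  obtain ⟨h, K0, hu, hu'⟩ := exists_uc ha hη0
  obtain ⟨ε, hε⟩ : ∃ ε : ℝ, ε = min (h / 100) η := ⟨_, rfl⟩
  have hε0 : 0 < ε := by rw [hε]; exact lt_min (by have := hu.h0; positivity) hη0
  have hεh : 100 * ε ≤ h := by
    have := min_le_left (h / 100) η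
    rw [← hε] at this
    linarith
  have hε1 : 100 * ε ≤ 1 := hεh.trans hu.h1
  have hε2 : ε ^ 2 ≤ η ^ 2 := by
    have := min_le_right (h / 100) η
    rw [← hε] at this
    gcongr
  refine ⟨ε, hε0, fun I P L R T hd M => ?_⟩
  obtain ⟨Lm, gg, ll, kk, gR, lR, kR, D, -, hc⟩ := en_cells hu hεh hd M 0
  refine ⟨fun i n => mn a (P i) (5 * ((9 / 10) ^ n * T i)),
    fun i n => 5 * ((9 / 10) ^ n * T i) * (23 * D (gg i n) (ll i n) (kk i n)),
    fun i hi n hn => en_osc hu hd hc hi hn, ?_⟩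
  have hd' := refl_dat hd
  have s1 := en_w1 hu hd hc
  have s2 := en_r hu hεh hd M
  have s3 := en_r hu' hεh hd' M
  have s4 := en_u hε1 hd
  have s5 := en_u hε1 hd'
  simp only [refl_ap, refl_mn] at s3
  have hterm : ∀ i ∈ I, ∀ n ∈ Finset.range M, (9 / 10 : ℝ) ^ n * T i *
      Er a (P i) (L i) (R i) (5 * ((9 / 10) ^ n * T i)) (mn a (P i) (5 * ((9 / 10) ^ n * T i)))
        (5 * ((9 / 10) ^ n * T i) * (23 * D (gg i n) (ll i n) (kk i n))) ^ 2 ≤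
      2645 * ((9 / 10 : ℝ) ^ n * T i * D (gg i n) (ll i n) (kk i n) ^ 2) +
      5 * ((9 / 10 : ℝ) ^ n * T i *
        (Ap a (P i) (R i) - mn a (P i) (5 * ((9 / 10) ^ n * T i))) ^ 2) +
      5 * ((9 / 10 : ℝ) ^ n * T i *
        (Am a (P i) (L i) - mn a (P i) (5 * ((9 / 10) ^ n * T i))) ^ 2) +
      5 * ((9 / 10 : ℝ) ^ n * (T i * L i ^ 2)) + 5 * ((9 / 10 : ℝ) ^ n * (T i * R i ^ 2)) := by
    intro i hi n _
    have hT := hd.T0 i hi
    have hρ : (0 : ℝ) < 5 * ((9 / 10) ^ n * T i) := by positivity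
    unfold Er
    rw [mul_div_cancel_left₀ _ hρ.ne']
    have hw : (0 : ℝ) ≤ (9 / 10 : ℝ) ^ n * T i := by positivity
    have key : (23 * D (gg i n) (ll i n) (kk i n) +
        |Ap a (P i) (R i) - mn a (P i) (5 * ((9 / 10) ^ n * T i))| +
        |Am a (P i) (L i) - mn a (P i) (5 * ((9 / 10) ^ n * T i))| + (L i + R i)) ^ 2 ≤
        2645 * D (gg i n) (ll i n) (kk i n) ^ 2 +
        5 * (Ap a (P i) (R i) - mn a (P i) (5 * ((9 / 10) ^ n * T i))) ^ 2 +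
        5 * (Am a (P i) (L i) - mn a (P i) (5 * ((9 / 10) ^ n * T i))) ^ 2 +
        5 * L i ^ 2 + 5 * R i ^ 2 := by
      rw [← sq_abs (Ap a (P i) (R i) - mn a (P i) (5 * ((9 / 10) ^ n * T i))),
        ← sq_abs (Am a (P i) (L i) - mn a (P i) (5 * ((9 / 10) ^ n * T i)))]
      generalize |Ap a (P i) (R i) - mn a (P i) (5 * ((9 / 10) ^ n * T i))| = x2
      generalize |Am a (P i) (L i) - mn a (P i) (5 * ((9 / 10) ^ n * T i))| = x3
      generalize D (gg i n) (ll i n) (kk i n) = x1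
      generalize L i = x4
      generalize R i = x5
      nlinarith [sq_nonneg (23 * x1 - x2), sq_nonneg (23 * x1 - x3), sq_nonneg (23 * x1 - x4),
        sq_nonneg (23 * x1 - x5), sq_nonneg (x2 - x3), sq_nonneg (x2 - x4), sq_nonneg (x2 - x5),
        sq_nonneg (x3 - x4), sq_nonneg (x3 - x5), sq_nonneg (x4 - x5)]
    have h6 := mul_le_mul_of_nonneg_left key hw
    linarith
  have hsum : ∑ i ∈ I, ∑ n ∈ Finset.range M, (9 / 10 : ℝ) ^ n * T i *
      Er a (P i) (L i) (R i) (5 * ((9 / 10) ^ n * T i)) (mn a (P i) (5 * ((9 / 10) ^ n * T i)))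
        (5 * ((9 / 10) ^ n * T i) * (23 * D (gg i n) (ll i n) (kk i n))) ^ 2 ≤
      2645 * ∑ i ∈ I, ∑ n ∈ Finset.range M,
        (9 / 10 : ℝ) ^ n * T i * D (gg i n) (ll i n) (kk i n) ^ 2 +
      5 * ∑ i ∈ I, ∑ n ∈ Finset.range M, (9 / 10 : ℝ) ^ n * T i *
        (Ap a (P i) (R i) - mn a (P i) (5 * ((9 / 10) ^ n * T i))) ^ 2 +
      5 * ∑ i ∈ I, ∑ n ∈ Finset.range M, (9 / 10 : ℝ) ^ n * T i *
        (Am a (P i) (L i) - mn a (P i) (5 * ((9 / 10) ^ n * T i))) ^ 2 +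
      5 * ∑ i ∈ I, ∑ n ∈ Finset.range M, (9 / 10 : ℝ) ^ n * (T i * L i ^ 2) +
      5 * ∑ i ∈ I, ∑ n ∈ Finset.range M, (9 / 10 : ℝ) ^ n * (T i * R i ^ 2) := by
    refine (Finset.sum_le_sum fun i hi => Finset.sum_le_sum fun n hn => hterm i hi n hn).trans
      (le_of_eq ?_)
    simp only [Finset.sum_add_distrib, Finset.mul_sum]
  have hgeo : ∀ Z : ℕ → ℝ, (∀ i ∈ I, 0 ≤ T i * Z i ^ 2) →
      ∑ i ∈ I, ∑ n ∈ Finset.range M, (9 / 10 : ℝ) ^ n * (T i * Z i ^ 2) ≤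
        10 * ∑ i ∈ I, T i * Z i ^ 2 := by
    intro Z hZ
    rw [Finset.mul_sum]
    refine Finset.sum_le_sum fun i hi => ?_
    rw [← Finset.sum_mul]
    exact mul_le_mul_of_nonneg_right (en1_geom M) (hZ i hi)
  have g1 := hgeo L fun i hi => by have := hd.T0 i hi; positivity
  have g2 := hgeo R fun i hi => by have := hd.T0 i hi; positivity
  have hζη : ζ = 2 * 10 ^ 14 * η ^ 2 := by rw [hη2]; field_simp
  have hη20 : 0 ≤ η ^ 2 := by positivity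
  rw [hζη]
  linarith

end Pool.Agent.H66.GSC
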