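import Mathlib
import Pool.Agent.H66.GSC.En1

/-!
# GSC-21: the energy theorem for finitely many functions

PROOF.  `energy1` for each function with `ζ / (card ι)` (or `ζ / (card ι + 1)`), the minimum of the `ε`, and the
subsets `{i ∈ I : s i = j}`.
-/

set_option autoImplicit false
open Set Filter Topology MeasureTheory

namespace Pool.Agent.H66.GSC

theorem energy {ι : Type} [Finite ι] (A : ι → ℝ → ℝ) (hA : ∀ s, Continuous (A s)) {ζ : ℝ}
    (hζ : 0 < ζ) :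
    ∃ ε : ℝ, 0 < ε ∧ ∀ (I : Finset ℕ) (s : ℕ → ι) (P L R T : ℕ → ℝ), Dat I P L R T ε → ∀ M : ℕ,
      ∃ m W : ℕ → ℕ → ℝ,
        (∀ i ∈ I, ∀ n < M, Osc (A (s i)) (P i) (5 * ((9 / 10) ^ n * T i)) (m i n) (W i n)) ∧
        ∑ i ∈ I, ∑ n ∈ Finset.range M, (9 / 10 : ℝ) ^ n * T i *
          Er (A (s i)) (P i) (L i) (R i) (5 * ((9 / 10) ^ n * T i)) (m i n) (W i n) ^ 2 ≤ ζ := by
  classical
  obtain ⟨_⟩ := nonempty_fintype ι
  obtain ⟨ζ', hζ'⟩ : ∃ ζ' : ℝ, ζ' = ζ / (Fintype.card ι + 1) := ⟨_, rfl⟩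
  have hcard : (0 : ℝ) < (Fintype.card ι : ℝ) + 1 := by positivity
  have hz0 : 0 < ζ' := by rw [hζ']; positivity
  have h1 := fun j : ι => energy1 (hA j) hz0
  choose e he h using h1
  obtain ⟨ε, hε, hεe⟩ : ∃ ε : ℝ, 0 < ε ∧ ∀ j, ε ≤ e j := by
    rcases isEmpty_or_nonempty ι with hι | hι
    · exact ⟨1, one_pos, fun j => (hι.false j).elim⟩
    · obtain ⟨j, hj⟩ := Finite.exists_min e
      exact ⟨e j, he j, hj⟩
  refine ⟨ε, hε, fun I s P L R T hd M => ?_⟩
  have h2 : ∀ j : ι, Dat (I.filter fun i => s i = j) P L R T (e j) := by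
    intro j
    have hs : ∀ i ∈ I.filter (fun i => s i = j), i ∈ I := fun i hi => (Finset.mem_filter.1 hi).1
    exact ⟨fun i hi => hd.win i (hs i hi), fun i hi => hd.T0 i (hs i hi),
      fun i hi => hd.TL i (hs i hi), fun i hi => hd.TR i (hs i hi),
      fun i hi => (hd.sm i (hs i hi)).trans (hεe j),
      fun i hi k hk => hd.sep i (hs i hi) k (hs k hk)⟩
  have h3 := fun j => h j _ P L R T (h2 j) M
  choose m W h4 h5 using h3
  refine ⟨fun i => m (s i) i, fun i => W (s i) i, fun i hi n hn =>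
    h4 (s i) i (Finset.mem_filter.2 ⟨hi, rfl⟩) n hn, ?_⟩
  rw [← Finset.sum_fiberwise I s]
  calc ∑ j, ∑ i ∈ I.filter (fun i => s i = j), ∑ n ∈ Finset.range M, (9 / 10 : ℝ) ^ n * T i *
          Er (A (s i)) (P i) (L i) (R i) (5 * ((9 / 10) ^ n * T i)) (m (s i) i n) (W (s i) i n) ^ 2
      ≤ ∑ _j : ι, ζ' := by
        refine Finset.sum_le_sum fun j _ => le_trans (le_of_eq ?_) (h5 j)
        refine Finset.sum_congr rfl fun i hi => ?_
        rw [(Finset.mem_filter.1 hi).2]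
    _ ≤ ζ := by
        rw [Finset.sum_const, Finset.card_univ, nsmul_eq_mul, hζ']
        rw [mul_div_assoc', div_le_iff₀ hcard]
        nlinarith

end Pool.Agent.H66.GSC
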