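import Mathlib
import Pool.Agent.H66.GSC.En
import Pool.Agent.H51.GSC.PathCore
import Pool.Agent.H52.G0.X1
import Pool.Agent.H52.G0.Word
import Pool.Agent.H52.G0.Mark
import Pool.Agent.H24.GN.FctB
import Pool.Agent.H50.GSD.D16
import Pool.Agent.H50.GSD.D17

/-!
# GSC-30: the final assembly (section 6 of note 1871)
-/

set_option autoImplicit false
open Set Filter Topology MeasureTheory

namespace Pool.Agent.H66.GSC

open Pool.Agent.H52.GS (TT BB)
open Pool.Agent.H50.GS Pool.Agent.H50.GSD Pool.Agent.H24.GN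
open Pool.Agent.H52.G0 (XO exists_x1x2 exists_path exists_markers)

/-- the lifts satisfy the hypotheses of the structure `Sm` -/
theorem fin_sm {f : ℝ ≃o ℝ} (hper : Per f) (hc : C2p f) :
    ∃ K : ℝ, ∀ K' : ℝ, K ≤ K' → Sm K' f (deriv (ld f)) := by
  have h1 : ContDiff ℝ 1 (deriv (f : ℝ → ℝ)) := by
    have h2 : ContDiff ℝ (1 + 1) (f : ℝ → ℝ) := by
      convert hc.1 using 1
      norm_num
    exact (contDiff_succ_iff_deriv.1 h2).2.2
  have h2 : ContDiff ℝ 1 (ld f) := by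
    have h3 : ld f = fun x => Real.log (deriv (f : ℝ → ℝ) x) := rfl
    rw [h3]
    exact h1.log fun x => (hc.2 x).ne'
  have h3 : Continuous (deriv (ld f)) := h2.continuous_deriv le_rfl
  have h4 : ∀ x, deriv (f : ℝ → ℝ) (x + 2 * Real.pi) = deriv (f : ℝ → ℝ) x := by
    intro x
    have h5 : (fun y => (f : ℝ → ℝ) (y + 2 * Real.pi)) = fun y => f y + 2 * Real.pi :=
      funext fun y => hper y
    have h6 : deriv (fun y => (f : ℝ → ℝ) (y + 2 * Real.pi)) x =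
        deriv (f : ℝ → ℝ) (x + 2 * Real.pi) := deriv_comp_add_const _ _ _
    rw [← h6, h5, deriv_add_const]
  have h5 : ∀ x, ld f (x + 2 * Real.pi) = ld f x := fun x => by
    unfold ld
    rw [h4]
  have h6 : Function.Periodic (deriv (ld f)) (2 * Real.pi) := by
    intro x
    have h7 : (fun y => ld f (y + 2 * Real.pi)) = ld f := funext h5
    have h8 : deriv (fun y => ld f (y + 2 * Real.pi)) x = deriv (ld f) (x + 2 * Real.pi) :=
      deriv_comp_add_const _ _ _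
    rw [← h8, h7]
  obtain ⟨K, hK⟩ := isCompact_Icc.exists_bound_of_continuousOn (s := Icc 0 (2 * Real.pi))
    h3.continuousOn
  refine ⟨K, fun K' hK' => ⟨⟨hc.1.differentiable (by norm_num), hc.2⟩, h3, fun x => ?_,
    fun x => (h2.differentiable one_ne_zero x).hasDerivAt⟩⟩
  obtain ⟨y, hy, hxy⟩ := h6.exists_mem_Ico₀ Real.two_pi_pos x
  rw [hxy]
  have := hK y ⟨hy.1, hy.2.le⟩
  rw [Real.norm_eq_abs] at this
  exact this.trans hK'

/-- the markers -/
theorem fin_mark {G : Subgroup (Circle ≃ₜ Circle)} (hC : C2Group G) (hm : Minimal G)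
    (hyp : ∃ q ∈ Lf G, ∃ y : ℝ, q y = y ∧ deriv (q : ℝ → ℝ) y < 1) {ε : ℝ} (hε : 0 < ε) :
    ∃ (Y : Set ℝ) (κ : ℝ), 0 < κ ∧ (∀ y ∈ Y, ∀ k : ℤ, y + k * (2 * Real.pi) ∈ Y) ∧
      (∀ a b : ℝ, ε < b - a → ∃ y ∈ Y, a < y ∧ y < b) ∧
      ∀ y ∈ Y, ∀ a b : ℝ, a < y → y < b → ∃ h ∈ Lf G, DB h a b (1 / 10) ∧ κ ≤ h b - h a := by
  obtain ⟨Y, h1, h2, κ, hκ, h3⟩ := exists_markers (Γ := Lf G) TT_mem (fun f hf => Lf_rg hC hf)
    (fun f hf => Lf_lip hC hf) (fun x a b hab => Lf_dense hC hm x hab) hyp hε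
  refine ⟨Y, κ, hκ, h1, h2, fun y hy a b ha hb => ?_⟩
  rcases lt_or_ge (b - a) κ with h | h
  · exact h3 y hy a b (ha.trans hb) ha.le hb.le h
  · refine ⟨1, (Lf G).one_mem, fun x _ y _ => ?_, ?_⟩
    · rw [ld_one, ld_one, sub_zero, abs_zero]
      norm_num
    · exact h

/-- the contradiction -/
theorem fin_core {Γ : Subgroup (ℝ ≃o ℝ)} (hrg : ∀ f ∈ Γ, Rg f) {N : ℕ} {v : ℕ → ℝ ≃o ℝ}
    {x1 p x2 t0 t κ r : ℝ} (hv : v N ∈ Γ) (ht0 : 0 < t0) (ht : 0 < t) (hr0 : 4 * t0 ≤ r)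
    (hg : Gd (v N) x1 p x2 t)
    (hX : volume (Ioo (p - t0) (p + t0) \ XO Γ κ r) ≤ ENNReal.ofReal (t0 / 4))
    (hH : volume (Ioo (p - t0) (p + t0) \ HH Γ p t0 t) ≤ ENNReal.ofReal t0)
    (hM : ∀ a b : ℝ, a < v N p → v N p < b → ∃ h ∈ Γ, DB h a b (1 / 10) ∧ κ ≤ h b - h a) :
    False := by
  have h1 : ∃ x ∈ Ioo (p - t0) (p + t0), x ∈ XO Γ κ r ∧ x ∈ HH Γ p t0 t := by
    by_contra hcon
    push Not at hcon
    have h2 : Ioo (p - t0) (p + t0) ⊆ (Ioo (p - t0) (p + t0) \ XO Γ κ r) ∪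
        (Ioo (p - t0) (p + t0) \ HH Γ p t0 t) := by
      intro x hx
      by_cases hxX : x ∈ XO Γ κ r
      · exact Or.inr ⟨hx, hcon x hx hxX⟩
      · exact Or.inl ⟨hx, hxX⟩
    have h3 := (measure_mono h2).trans ((measure_union_le _ _).trans (add_le_add hX hH))
    rw [Real.volume_Ioo, ← ENNReal.ofReal_add (by positivity) ht0.le,
      ENNReal.ofReal_le_ofReal_iff (by positivity)] at h3
    linarith
  obtain ⟨x, -, hxX, hxH⟩ := h1
  unfold HH at hxH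
  rw [mem_iUnion₂] at hxH
  obtain ⟨g, hgC, z, hz, hzx⟩ := hxH
  obtain ⟨hgΓ, hgr, hgm, hgd⟩ := hgC
  have hpt1 : |p - t - p| ≤ 2 * t := by rw [abs_le]; constructor <;> linarith
  have hpt2 : |p + t - p| ≤ 2 * t := by rw [abs_le]; constructor <;> linarith
  have ha : g (p - t) < x := by rw [← hzx]; exact g.strictMono hz.1
  have hb : x < g (p + t) := by rw [← hzx]; exact g.strictMono hz.2
  have hab : g (p + t) - g (p - t) ≤ r := by
    have h2 := abs_le.1 (hgm _ hpt1)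
    have h3 := abs_le.1 (hgm _ hpt2)
    linarith [h2.1, h3.2]
  have hva : v N (p - t) < v N p := (v N).strictMono (by linarith)
  have hvb : v N p < v N (p + t) := (v N).strictMono (by linarith)
  obtain ⟨h, hhΓ, hhd, hhκ⟩ := hM _ _ hva hvb
  have hvr := hrg _ hv
  have hhr := hrg _ hhΓ
  have hw : h * v N * g⁻¹ ∈ Γ := Γ.mul_mem (Γ.mul_mem hhΓ hv) (Γ.inv_mem hgΓ)
  have hwa : ∀ s : ℝ, (h * v N * g⁻¹ : ℝ ≃o ℝ) (g s) = h (v N s) := by
    intro s
    change h (v N ((g⁻¹ : ℝ ≃o ℝ) (g s))) = _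
    rw [RelIso.inv_apply_self]
  have hlw : ∀ s : ℝ, ld (h * v N * g⁻¹) (g s) = ld h (v N s) + ld (v N) s - ld g s := by
    intro s
    rw [ld_mul (rg_mul hhr hvr) (rg_inv hgr), ld_inv hgr, RelIso.inv_apply_self,
      ld_mul hhr hvr]
    ring
  have hhr2 : ∀ s s' : ℝ, s ∈ Icc (p - t) (p + t) → s' ∈ Icc (p - t) (p + t) →
      hr (|s - s'| / t) ≤ 2 := by
    intro s s' hs hs'
    apply hr_le (by norm_num)
    rw [div_le_iff₀ ht, abs_le]
    constructor <;> linarith [hs.1, hs.2, hs'.1, hs'.2]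
  have hD : DB (h * v N * g⁻¹) (g (p - t)) (g (p + t)) (1 / 2) := by
    intro y hy y' hy'
    obtain ⟨s, rfl⟩ := g.surjective y
    obtain ⟨s', rfl⟩ := g.surjective y'
    have hs : s ∈ Icc (p - t) (p + t) := ⟨g.le_iff_le.1 hy.1, g.le_iff_le.1 hy.2⟩
    have hs' : s' ∈ Icc (p - t) (p + t) := ⟨g.le_iff_le.1 hy'.1, g.le_iff_le.1 hy'.2⟩
    rw [hlw, hlw]
    have h2 := hhd (v N s) ⟨(v N).monotone hs.1, (v N).monotone hs.2⟩ (v N s')
      ⟨(v N).monotone hs'.1, (v N).monotone hs'.2⟩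
    have h3 := hg.h s ⟨by linarith [hs.1], by linarith [hs.2]⟩ s'
      ⟨by linarith [hs'.1], by linarith [hs'.2]⟩
    have h4 := hgd s s' (by rw [abs_le]; constructor <;> linarith [hs.1, hs.2])
      (by rw [abs_le]; constructor <;> linarith [hs'.1, hs'.2])
    have h5 := hhr2 s s' hs hs'
    have h6 : ld h (v N s) + ld (v N) s - ld g s - (ld h (v N s') + ld (v N) s' - ld g s') =
      (ld h (v N s) - ld h (v N s')) + (ld (v N) s - ld (v N) s') - (ld g s - ld g s') := by ring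
    rw [h6]
    calc |(ld h (v N s) - ld h (v N s')) + (ld (v N) s - ld (v N) s') - (ld g s - ld g s')|
        ≤ |(ld h (v N s) - ld h (v N s')) + (ld (v N) s - ld (v N) s')| + |ld g s - ld g s'| :=
          abs_sub _ _
      _ ≤ |ld h (v N s) - ld h (v N s')| + |ld (v N) s - ld (v N) s'| + |ld g s - ld g s'| := by
          gcongr
          exact abs_add_le _ _
      _ ≤ 1 / 2 := by linarith
  have hfin := hxX _ hw _ _ ha hb hab hD
  rw [hwa, hwa] at hfin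
  linarith

theorem ergodic_c2 {G : Subgroup (Circle ≃ₜ Circle)} (hC : C2Group G) (hm : Minimal G)
    (hfg : G.FG) : LebErgodic G := by
  classical
  by_contra hne
  obtain ⟨S, hSf, hSG, hS1, -, hgen⟩ := Lf_gen hC hfg
  have hrg : ∀ f ∈ Lf G, Rg f := fun f hf => Lf_rg hC hf
  have hper : ∀ f ∈ Lf G, Per f := by
    rintro f ⟨g, -, hf⟩
    exact isL_per hf
  obtain ⟨A, hA, hinv, hpos⟩ := inv_set hC hm hne
  have hyp := exists_hypC hC hm (exists_fix_fg hC hm hfg (Lf_ratC hC hne))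
  -- a common bound
  have hKs : ∀ s ∈ S, ∃ K : ℝ, ∀ K' : ℝ, K ≤ K' → Sm K' s (deriv (ld s)) := fun s hs =>
    fin_sm (hper s (hSG hs)) (Lf_c2 hC (hSG hs))
  choose! k hk using hKs
  obtain ⟨K1, hK1⟩ := (hSf.image k).bddAbove
  obtain ⟨K, hKd⟩ : ∃ K : ℝ, K = max K1 1 := ⟨_, rfl⟩
  have hK : 1 ≤ K := by rw [hKd]; exact le_max_right _ _
  have hsm : ∀ s ∈ S, Sm K s (deriv (ld s)) := fun s hs => hk s hs K
    ((hK1 (mem_image_of_mem k hs)).trans (by rw [hKd]; exact le_max_left _ _))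
  -- the energy theorem
  obtain ⟨ζ, hζd⟩ : ∃ ζ : ℝ, ζ = 1 / (60 * (100000 * K ^ 2) ^ 2) := ⟨_, rfl⟩
  have hζ : 0 < ζ := by rw [hζd]; positivity
  have : Finite S := hSf
  obtain ⟨ε0, hε0, hen⟩ := energy (fun s : S => deriv (ld (s : ℝ ≃o ℝ)))
    (fun s => (hsm s s.2).cont) hζ
  obtain ⟨ε, hεd⟩ : ∃ ε : ℝ, ε = min ε0 (1 / (1000 * K)) := ⟨_, rfl⟩
  have hε : 0 < ε := by rw [hεd]; exact lt_min hε0 (by positivity)
  -- markers
  obtain ⟨Y, κ, hκ, hYT, hYε, hYM⟩ := fin_mark hC hm hyp hε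
  obtain ⟨r, hr0, hx⟩ := exists_x1x2 (Γ := Lf G) TT_mem hrg hper hA hinv hpos hκ
  obtain ⟨x1, x2, hx12, hxr, hden⟩ := hx r hr0
  obtain ⟨N, v, σ, s, p, hP, hvY, hsS, hvΓ, hvε, -, -⟩ :=
    exists_path (Γ := Lf G) TT_mem hrg hper hSG hgen (as := fun s => deriv (ld s)) hsm hYT
      (by rw [hεd]; exact min_le_right _ _) hYε (fun x a b hab => Lf_dense hC hm x hab) hx12
  obtain ⟨t0, ht0d⟩ : ∃ t0 : ℝ, t0 = min (p - x1) (x2 - p) / 100000 := ⟨_, rfl⟩
  have hp1 := hP.lt1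
  have hp2 := hP.lt2
  have ht0 : 0 < t0 := by
    rw [ht0d]
    have := lt_min (sub_pos.2 hp1) (sub_pos.2 hp2)
    positivity
  have h100 : 100000 * t0 = min (p - x1) (x2 - p) := by rw [ht0d]; ring
  have hE : PathEn N v (fun j => deriv (ld (s j))) x1 p x2 ε (5 * ζ) := by
    intro I T M hI hd
    have hd' : Dat I (fun i => v i p) (fun i => v i p - v i x1) (fun i => v i x2 - v i p) T ε0 :=
      ⟨hd.win, hd.T0, hd.TL, hd.TR, fun i hi => (hd.sm i hi).trans (by rw [hεd]; exact min_le_left _ _),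
        hd.sep⟩
    obtain ⟨lab, hlab⟩ : ∃ lab : ℕ → S, ∀ i < N, (lab i : ℝ ≃o ℝ) = s i := by
      refine ⟨fun j => if h : s j ∈ S then ⟨s j, h⟩ else ⟨1, hS1⟩, fun i hi => ?_⟩
      have h4 := hsS i hi
      simp only [h4, dif_pos]
    obtain ⟨m, W, h1, h2⟩ := hen I lab _ _ _ T hd' M
    refine ⟨m, W, fun i hi l hl => ?_, ?_⟩
    · have h5 := h1 i hi l hl
      simp only [hlab i (hI i hi)] at h5
      exact h5
    · have h6 : ∑ i ∈ I, ∑ l ∈ Finset.range M, 5 * ((9 / 10) ^ l * T i) *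
          Er (deriv (ld (s i))) (v i p) (v i p - v i x1) (v i x2 - v i p)
            (5 * ((9 / 10) ^ l * T i)) (m i l) (W i l) ^ 2 =
          5 * ∑ i ∈ I, ∑ l ∈ Finset.range M, (9 / 10 : ℝ) ^ l * T i *
          Er (deriv (ld (lab i : ℝ ≃o ℝ))) (v i p) (v i p - v i x1)
            (v i x2 - v i p) (5 * ((9 / 10) ^ l * T i)) (m i l) (W i l) ^ 2 := by
        rw [Finset.mul_sum]
        refine Finset.sum_congr rfl fun i hi => ?_
        rw [Finset.mul_sum]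
        refine Finset.sum_congr rfl fun l _ => ?_
        rw [hlab i (hI i hi)]
        ring
      rw [h6]
      linarith
  obtain ⟨k', hgk, hHk⟩ := path_core hK hP hvΓ ht0
    (by rw [h100]; exact min_le_left _ _) (by rw [h100]; exact min_le_right _ _) hvε hE
  have ht : 0 < (9 / 10 : ℝ) ^ k' * t0 := by positivity
  have hX := hden p hp1 hp2
  rw [← ht0d] at hX
  have hH : volume (Ioo (p - t0) (p + t0) \ HH (Lf G) p t0 ((9 / 10) ^ k' * t0)) ≤
      ENNReal.ofReal t0 := by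
    refine hHk.trans (ENNReal.ofReal_le_ofReal (le_of_eq ?_))
    rw [hζd]
    have : (100000 * K ^ 2) ^ 2 ≠ 0 := by positivity
    field_simp
    norm_num
  have hrr : 4 * t0 ≤ r := by
    have h1 : 100000 * t0 ≤ p - x1 := by rw [h100]; exact min_le_left _ _
    linarith
  exact fin_core hrg (hvΓ N le_rfl) ht0 ht hrr hgk hX hH (fun a b ha hb => hYM _ hvY a b ha hb)

end Pool.Agent.H66.GSC
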